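import Pool.Agent.Lib.MP_800721_co.Sgl.Basic

/-!
# PROJECT EMPIRE: certificates for single `n`, part 2

Found by computer search (helper98, helper7); converted by helper56.
-/

namespace Empire

/-- certificate for `n = 49`, `3 ≤ m ≤ 7` -/
def s49_6_7 : Single :=
  ⟨⟨(0, 49), [((0, 3), (0, -22), (0, 19)), ((0, 6), (0, -10), (0, 4)), ((0, -23), (0, -20), (0, -6)), ((0, -13), (0, -3), (0, 16)), ((0, -15), (0, 24), (0, -9)), ((0, -1), (0, -16), (0, 17)), ((0, -18), (0, 10), (0, 8)), ((0, 2), (0, -24), (0, 22)), ((0, 23), (0, 11), (0, 15)), ((0, 18), (0, -19), (0, 1)), ((0, 12), (0, 9), (0, -21)), ((0, -11), (0, -2), (0, 13)), ((0, -4), (0, -17), (0, 21)), ((0, 20), (0, -12), (0, -8))],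
  [(0, 5), (0, 7), (0, 14)], false,
  [⟨1, (0, 24), ⟨(4, 1), (3, 1), (0, -23), (0, -47), [⟨0, 3, (some ((7, 1), (4, 1))), 1, false⟩, ⟨1, 3, (some ((9, 2), (5, 0))), 2, true⟩, ⟨2, 3, (some ((6, 1), (1, 1))), 2, false⟩, ⟨2, 4, (some ((8, 0), (2, 0))), 0, false⟩, ⟨2, 5, none, 1, true⟩, ⟨0, 5, (some ((7, 2), (0, 1))), 0, false⟩]⟩, (some ⟨(4, 2), (3, 1), (0, 1), (0, -47), [⟨0, 3, (some ((9, 2), (5, 0))), 2, true⟩, ⟨1, 5, none, 1, true⟩, ⟨2, 5, (some ((7, 2), (0, 1))), 0, false⟩]⟩)⟩]⟩,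
  11000392686017475255138807315583826947398933291583980992401116211417317624001569905577109730803586826,
  10729997759694458333231175976630740228716423594361260939994859464255082487141383093353543524024576,
  1648998842602299063197233978308568136179328536246691771179315811876932191774198039387922513239474176,
  [0, 1, 2, 5, 3, 7, 4], [0, 3, 16, 17, 21, 12, -8], [0, 10, 16, 37, 32, 40, 20], [13, 11], [0, 0, 1, 0, 1, 1, 1],
  [(0, 0), (0, 0), (33, 35), (0, 0), (34, 35), (40, 41), (39, 41)], [(12, 18)]⟩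

/-- certificate for `n = 50`, `2 ≤ m ≤ 8` -/
def s50_1_8 : Single :=
  ⟨⟨(0, 50), [((0, 9), (0, -4), (0, -5)), ((0, 5), (0, -23), (0, 18)), ((0, -16), (0, -24), (0, -10)), ((0, 16), (0, -15), (0, -1)), ((0, -21), (0, 8), (0, 13)), ((0, 21), (0, 12), (0, 17)), ((0, 11), (0, 2), (0, -13)), ((0, -11), (0, -12), (0, 23)), ((0, 1), (0, 6), (0, -7)), ((0, -3), (0, -19), (0, 22)), ((0, -20), (0, -8), (0, -22)), ((0, -9), (0, -6), (0, 15)), ((0, 24), (0, 7), (0, 19)), ((0, -17), (0, 14), (0, 3)), ((0, -18), (0, -2), (0, 20)), ((0, 10), (0, -14), (0, 4))],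
  [(0, 25)], true,
  [⟨2, (0, 4), ⟨(0, 0), (1, 0), (0, 0), (0, -16), [⟨0, 3, (some ((2, 0), (3, 0))), 0, true⟩, ⟨1, 3, none, 0, true⟩, ⟨2, 3, (some ((4, 0), (5, 0))), 0, true⟩, ⟨2, 4, (some ((6, 0), (7, 0))), 0, true⟩, ⟨0, 4, (some ((3, 0), (2, 0))), 0, true⟩, ⟨0, 5, (some ((7, 0), (6, 0))), 0, true⟩]⟩, (some ⟨(0, 2), (1, 0), (0, 5), (0, -16), [⟨0, 3, (some ((4, 0), (5, 0))), 0, true⟩]⟩)⟩]⟩,
  177982226994363280345495567269066901478869531792495215307806212583455174521938201785037751609028857614160541986593,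
  925891831670159180590372949471099059966692294604978523801960500445344727302633586042135419495496972422827622138112,
  156328462051174338857388723502436073339680033433623462658857995502176526352470639222887890383624217839056986308608,
  [0, 1, 11, 7, 8, 13, 2, 5], [0, 9, -6, -7, 19, 22, -20, -18], [0, 33, 25, 37, 28, 32, 44, 5], [10, 12, 11], [0, 1, 1, 1, 1, 1, 1, 0],
  [(0, 0), (33, 34), (35, 34), (37, 38), (36, 38), (32, 30), (31, 30), (0, 0)], [(12, 9)]⟩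

/-- certificate for `n = 50`, `3 ≤ m ≤ 7` -/
def s50_7_7 : Single :=
  ⟨⟨(0, 50), [((0, 11), (0, -16), (0, 5)), ((0, -19), (0, 16), (0, 3)), ((0, 19), (0, -23), (0, 4)), ((0, 12), (0, -18), (0, 6)), ((0, -12), (0, 14), (0, -2)), ((0, -4), (0, 15), (0, -11)), ((0, -10), (0, 24), (0, -14)), ((0, 10), (0, -7), (0, -3)), ((0, -6), (0, -1), (0, 7)), ((0, 8), (0, 1), (0, -9)), ((0, 22), (0, 2), (0, -24)), ((0, -15), (0, 23), (0, -8)), ((0, -22), (0, 9), (0, 13)), ((0, -13), (0, 18), (0, -5))],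
  [(0, 17), (0, 20), (0, 21), (0, 25)], true,
  [⟨1, (0, 16), ⟨(0, 0), (1, 0), (0, 0), (0, -19), [⟨0, 3, (some ((1, 0), (2, 0))), 1, false⟩, ⟨1, 3, none, 1, true⟩, ⟨1, 4, none, 0, true⟩, ⟨2, 4, none, 0, false⟩, ⟨2, 5, none, 0, true⟩, ⟨0, 5, (some ((3, 0), (4, 0))), 1, true⟩]⟩, (some ⟨(0, 0), (1, 0), (0, 0), (0, -19), [⟨0, 3, (some ((1, 0), (2, 0))), 1, false⟩, ⟨1, 4, none, 0, true⟩, ⟨2, 4, none, 0, false⟩, ⟨0, 5, (some ((3, 0), (4, 0))), 1, true⟩]⟩)⟩,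
    ⟨3, (0, 12), ⟨(5, 0), (5, 0), (0, 0), (0, 25), [⟨0, 3, none, 3, true⟩, ⟨1, 3, none, 2, false⟩, ⟨1, 4, (some ((6, 0), (7, 0))), 2, false⟩, ⟨2, 4, none, 3, true⟩, ⟨2, 5, (some ((7, 0), (6, 0))), 2, true⟩, ⟨0, 5, none, 2, true⟩]⟩, (some ⟨(5, 1), (5, 0), (0, -4), (0, 25), [⟨0, 3, none, 2, false⟩, ⟨1, 4, none, 3, true⟩, ⟨2, 5, none, 2, true⟩]⟩)⟩]⟩,
  1115303568143908715674857763727511650721263111764729323683362430352251977709953707295984557056656401,
  8544078641306717471594123183175810692201517274662792733746309182291351669529431721113007048098048,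
  548998796124732918798440142322398082952161337962585454670825909145775028859687020697473930337124352,
  [0, 1, 8, 3, 11, 14, 9], [0, 11, -4, 19, -13, 2, -12], [0, 17, 8, 3, 38, 14, 9], [11, 10], [0, 1, 2, 2, 0, 1, 0],
  [(0, 0), (30, 31), (34, 33), (35, 33), (0, 0), (32, 31), (0, 0)], [(18, 3)]⟩

/-- certificate for `n = 51`, `2 ≤ m ≤ 8` -/
def s51_2_8 : Single :=
  ⟨⟨(0, 51), [((0, -17), (0, 15), (0, 2)), ((0, -12), (0, -5), (0, 17)), ((0, -1), (0, 25), (0, -24)), ((0, 1), (0, -9), (0, 8)), ((0, 23), (0, 4), (0, 24)), ((0, -23), (0, -6), (0, -22)), ((0, 21), (0, -13), (0, -8)), ((0, -21), (0, -10), (0, -20)), ((0, 7), (0, -16), (0, 9)), ((0, 19), (0, 20), (0, 12)), ((0, 14), (0, -11), (0, -3)), ((0, 22), (0, -25), (0, 3)), ((0, -14), (0, -2), (0, 16)), ((0, 10), (0, -15), (0, 5)), ((0, 13), (0, -19), (0, 6)), ((0, -7), (0, -4), (0, 11))],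
  [(0, 18)], false,
  [⟨1, (0, 8), ⟨(0, 0), (1, 0), (0, 0), (0, -18), [⟨0, 3, none, 0, false⟩, ⟨1, 3, (some ((2, 0), (3, 0))), 0, true⟩, ⟨1, 4, none, 0, false⟩, ⟨2, 4, none, 0, true⟩, ⟨2, 5, (some ((4, 0), (5, 0))), 0, true⟩, ⟨0, 5, (some ((6, 0), (7, 0))), 0, false⟩]⟩, (some ⟨(0, 1), (1, 0), (0, -17), (0, -18), [⟨0, 3, (some ((2, 0), (3, 0))), 0, true⟩, ⟨0, 4, none, 0, false⟩, ⟨1, 4, none, 0, true⟩]⟩)⟩]⟩,
  4779209150336244894529613144474827545218846503415702103435215093356284041634880099597285404959654423076685069232133,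
  618678921230201968326174734131133654010509084052680058131683622060350863315252142432907289536428046632724669530368,
  616861268534043477357299510092887876610667742096061871305310165820585000420131509617313108234229280666904388698112,
  [0, 1, 4, 19, 13, 6, 2, 25], [0, -17, -12, 19, -22, -24, -8, 14], [0, 5, 29, 43, 33, 14, 11, 36], [9, 12, 15], [0, 0, 1, 1, 2, 2, 1, 1],
  [(0, 0), (0, 0), (29, 27), (28, 27), (47, 45), (46, 45), (38, 37), (36, 37)], [(6, 2)]⟩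

/-- certificate for `n = 51`, `3 ≤ m ≤ 7` -/
def s51_8_7 : Single :=
  ⟨⟨(0, 51), [((0, -20), (0, -12), (0, -19)), ((0, 15), (0, 19), (0, 17)), ((0, 1), (0, -13), (0, 12)), ((0, -1), (0, 9), (0, -8)), ((0, -18), (0, 4), (0, 14)), ((0, 18), (0, 7), (0, -25)), ((0, -7), (0, 5), (0, 2)), ((0, 20), (0, -5), (0, -15)), ((0, -10), (0, -3), (0, 13)), ((0, 10), (0, -6), (0, -4)), ((0, -2), (0, -9), (0, 11)), ((0, -23), (0, -11), (0, -17)), ((0, 6), (0, 8), (0, -14)), ((0, 3), (0, 25), (0, 23))],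
  [(0, 21), (0, 16), (0, 22), (0, 24)], false,
  [⟨3, (0, 17), ⟨(0, 0), (1, 0), (0, 0), (0, 1), [⟨0, 3, (some ((2, 0), (3, 0))), 0, true⟩, ⟨1, 3, none, 0, true⟩, ⟨2, 3, (some ((4, 0), (5, 0))), 0, true⟩, ⟨2, 4, none, 1, true⟩, ⟨0, 4, none, 1, false⟩, ⟨0, 5, none, 1, true⟩]⟩, none⟩,
    ⟨3, (0, 17), ⟨(6, 0), (6, 1), (0, 0), (0, 22), [⟨0, 3, none, 2, true⟩, ⟨1, 3, none, 2, false⟩, ⟨2, 3, none, 3, true⟩, ⟨2, 4, (some ((0, 0), (7, 0))), 3, false⟩, ⟨0, 4, none, 2, false⟩, ⟨0, 5, none, 3, false⟩]⟩, none⟩]⟩,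
  18081339309264936439520777081072044007175665178277102303302385582171733525031346061399372098645002261,
  1104355360151200405460603034116568689904562568569521614135319166719211347721901173839154239418794240,
  2191547925764014665218980600766134407939015463761728592161976339575145470293289474246722563629645824,
  [0, 1, 17, 7, 14, 13, 2], [0, -20, 2, -8, -14, -18, 19], [0, 21, 30, 37, 14, 15, 2], [12, 10], [0, 1, 1, 1, 1, 0, 0],
  [(0, 0), (32, 31), (30, 31), (37, 38), (36, 38), (0, 0), (0, 0)], [(3, 10)]⟩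

/-- certificate for `n = 52`, `2 ≤ m ≤ 8` -/
def s52_3_8 : Single :=
  ⟨⟨(0, 52), [((0, -5), (0, -14), (0, 19)), ((0, -21), (0, 4), (0, 17)), ((0, 21), (0, -10), (0, -11)), ((0, 12), (0, -23), (0, 11)), ((0, -12), (0, -18), (0, -22)), ((0, -16), (0, -9), (0, 25)), ((0, -2), (0, 6), (0, -4)), ((0, 24), (0, 13), (0, 15)), ((0, -8), (0, -6), (0, 14)), ((0, 3), (0, 10), (0, -13)), ((0, -3), (0, 22), (0, -19)), ((0, 8), (0, 9), (0, -17)), ((0, 16), (0, -1), (0, -15)), ((0, -25), (0, 5), (0, 20)), ((0, 23), (0, -24), (0, 1)), ((0, 18), (0, 2), (0, -20))],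
  [(0, 7), (0, 26)], true,
  [⟨2, (0, 13), ⟨(0, 0), (0, 0), (0, 0), (0, 26), [⟨0, 3, none, 1, true⟩, ⟨1, 3, (some ((1, 0), (2, 0))), 0, true⟩, ⟨1, 4, (some ((3, 0), (4, 0))), 0, false⟩, ⟨2, 4, none, 1, true⟩, ⟨2, 5, (some ((4, 0), (3, 0))), 0, true⟩, ⟨0, 5, (some ((2, 0), (1, 0))), 0, false⟩]⟩, none⟩]⟩,
  6321330510358076135392443694708925029133474958152461232368272558185182108892918262877610676844114951166628401781288,
  309631918474487054232005982279179113633374782912289242428762888159406623323746995949170376250789741408661776040192,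
  1079209351791570815250219678714850037290519275585323027938111097364258442700874987314008526545333329616439462592512,
  [0, 1, 4, 2, 10, 5, 3, 21], [0, -5, 20, 18, -22, -13, 4, 19], [0, 40, 47, 13, 31, 33, 16, 44], [10, 13, 7], [0, 1, 1, 1, 1, 0, 2, 2],
  [(0, 0), (40, 41), (39, 41), (30, 32), (31, 32), (0, 0), (23, 22), (21, 22)], [(1, 7)]⟩

/-- certificate for `n = 52`, `3 ≤ m ≤ 7` -/
def s52_9_7 : Single :=
  ⟨⟨(0, 52), [((0, 24), (0, 15), (0, 13)), ((0, -11), (0, -16), (0, -25)), ((0, 11), (0, 23), (0, 18)), ((0, 22), (0, -1), (0, -21)), ((0, 8), (0, 1), (0, -9)), ((0, 16), (0, -3), (0, -13)), ((0, 4), (0, 20), (0, -24)), ((0, -20), (0, -17), (0, -15)), ((0, 21), (0, 19), (0, 12)), ((0, -22), (0, -12), (0, -18)), ((0, -4), (0, -5), (0, 9)), ((0, -8), (0, 5), (0, 3)), ((0, -10), (0, -23), (0, -19)), ((0, 10), (0, 25), (0, 17))],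
  [(0, 2), (0, 7), (0, 14), (0, 6), (0, 26)], true,
  [⟨2, (0, 13), ⟨(0, 0), (0, 0), (0, 0), (0, 26), [⟨0, 3, none, 4, true⟩, ⟨1, 3, none, 0, true⟩, ⟨1, 4, (some ((1, 0), (2, 0))), 0, false⟩, ⟨2, 4, none, 4, true⟩, ⟨2, 5, (some ((2, 0), (1, 0))), 0, true⟩, ⟨0, 5, none, 0, false⟩]⟩, none⟩,
    ⟨2, (0, 26), ⟨(3, 0), (4, 0), (0, 0), (0, 6), [⟨0, 3, none, 3, true⟩, ⟨1, 3, (some ((1, 1), (5, 0))), 2, false⟩, ⟨1, 4, none, 1, false⟩, ⟨2, 4, none, 3, false⟩, ⟨2, 5, none, 1, false⟩, ⟨0, 5, none, 2, true⟩]⟩, none⟩]⟩,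
  12040860110388117210406514584276862681356976985082062181522118518215269493038832379402881430356825876,
  2742624172148087976184355570339935032457668673482580880395495909711651946223000489777133727439454464,
  1095778428065365756286577342560978980968332554457049975164546573585396623245960176162281153401716736,
  [0, 1, 8, 12, 3, 2, 9], [0, 24, 4, -5, 3, -13, -18], [0, 20, 30, 34, 16, 2, 9], [7, 11], [0, 0, 1, 1, 1, 1, 0],
  [(0, 0), (0, 0), (22, 21), (34, 35), (33, 35), (23, 21), (0, 0)], [(3, 33)]⟩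

/-- certificate for `n = 53`, `2 ≤ m ≤ 8` -/
def s53_4_8 : Single :=
  ⟨⟨(0, 53), [((0, -4), (0, -5), (0, 9)), ((0, 11), (0, -8), (0, -3)), ((0, 15), (0, 21), (0, 17)), ((0, -15), (0, 1), (0, 14)), ((0, 19), (0, 3), (0, -22)), ((0, -19), (0, -13), (0, -21)), ((0, 24), (0, -7), (0, -17)), ((0, -24), (0, -9), (0, -20)), ((0, -1), (0, 7), (0, -6)), ((0, 16), (0, -14), (0, -2)), ((0, -23), (0, 13), (0, 10)), ((0, 12), (0, -16), (0, 4)), ((0, -12), (0, 23), (0, -11)), ((0, 2), (0, 8), (0, -10)), ((0, 25), (0, 22), (0, 6)), ((0, 5), (0, -25), (0, 20))],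
  [(0, 26), (0, 18)], false,
  [⟨1, (0, 17), ⟨(0, 0), (1, 0), (0, 0), (0, 15), [⟨0, 3, (some ((2, 0), (3, 0))), 1, true⟩, ⟨1, 3, (some ((4, 0), (5, 0))), 1, true⟩, ⟨2, 3, (some ((6, 0), (7, 0))), 0, false⟩, ⟨2, 4, none, 0, false⟩, ⟨0, 4, none, 1, true⟩, ⟨0, 5, none, 0, true⟩]⟩, (some ⟨(0, 1), (1, 0), (0, -4), (0, 15), [⟨0, 3, (some ((4, 0), (5, 0))), 1, true⟩, ⟨1, 3, (some ((6, 0), (7, 0))), 0, false⟩, ⟨2, 4, none, 1, true⟩, ⟨2, 5, none, 0, true⟩]⟩)⟩]⟩,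
  3565278111631899178568532434423289724316637476714337121821029994939783539881585280241273673752780336165072737283363,
  770185815934515155647704118947840394503478861415241297706028216115273922767881707792493101102138301368873400008960,
  312640383282680778793473269817939363351461892558327052496059634281343769565165034413352743508159363098642898485248,
  [0, 1, 3, 4, 6, 19, 2, 5], [0, -4, 12, 23, 17, 24, -9, 18], [0, 35, 36, 30, 20, 21, 2, 14], [8, 11, 13], [0, 1, 1, 2, 3, 3, 0, 2],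
  [(0, 0), (35, 33), (34, 33), (41, 39), (25, 24), (26, 24), (0, 0), (40, 39)], [(4, 35)]⟩

/-- certificate for `n = 53`, `3 ≤ m ≤ 7` -/
def s53_10_7 : Single :=
  ⟨⟨(0, 53), [((0, 24), (0, 19), (0, 10)), ((0, 25), (0, -8), (0, -17)), ((0, -11), (0, -5), (0, 16)), ((0, 11), (0, -1), (0, -10)), ((0, 5), (0, 17), (0, -22)), ((0, -14), (0, 26), (0, -12)), ((0, -25), (0, -4), (0, -24)), ((0, -23), (0, 20), (0, 3)), ((0, -7), (0, -20), (0, -26)), ((0, 23), (0, 18), (0, 12)), ((0, 22), (0, -19), (0, -3)), ((0, -16), (0, 7), (0, 9)), ((0, 14), (0, -18), (0, 4)), ((0, 8), (0, 1), (0, -9))],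
  [(0, 6), (0, 13), (0, 15), (0, 2), (0, 21)], false,
  [⟨7, (0, 26), ⟨(0, 0), (1, 0), (0, 0), (0, 13), [⟨0, 3, none, 1, true⟩, ⟨1, 3, (some ((2, 0), (3, 0))), 2, true⟩, ⟨1, 4, none, 0, true⟩, ⟨2, 4, none, 1, false⟩, ⟨2, 5, (some ((2, 1), (4, 0))), 0, true⟩, ⟨0, 5, none, 2, false⟩]⟩, (some ⟨(0, 0), (1, 0), (0, 0), (0, 13), [⟨0, 3, none, 1, true⟩, ⟨1, 3, (some ((2, 0), (3, 0))), 2, true⟩, ⟨1, 4, none, 0, true⟩]⟩)⟩,
    ⟨6, (0, 17), ⟨(6, 2), (6, 1), (0, 0), (0, 2), [⟨0, 3, none, 3, true⟩, ⟨1, 3, (some ((5, 1), (8, 2))), 4, false⟩, ⟨2, 3, none, 3, false⟩, ⟨2, 4, (some ((9, 0), (7, 0))), 4, false⟩, ⟨0, 4, (some ((8, 2), (5, 1))), 4, true⟩, ⟨0, 5, none, 3, false⟩]⟩, (some ⟨(6, 2), (6, 1), (0, 0), (0, 2), [⟨0, 3, none, 3, true⟩, ⟨1, 3, (some ((5, 1), (8, 2))), 4, false⟩, ⟨0, 4, (some ((8, 2), (5, 1))), 4, true⟩, ⟨0, 5, none, 3, false⟩]⟩)⟩]⟩,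
  19159837709839289147908245597796168183749177585828275678494271732352949003519002121584097796182187796,
  1640454764343439750120455538218582504460269507046819751049781341021475306142069877758187291940094208,
  1097930776704553123525157514769960180369520976317091372399677106078037068499493331011547372544065536,
  [0, 1, 2, 6, 8, 17, 15], [0, 24, -25, 1, 21, 1, -11], [0, 20, 3, 10, 23, 27, 37], [10, 13], [0, 2, 1, 1, 2, 0, 0],
  [(0, 0), (32, 31), (39, 40), (41, 40), (30, 31), (0, 0), (0, 0)], [(1, 46)]⟩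

/-- certificate for `n = 54`, `2 ≤ m ≤ 8` -/
def s54_5_8 : Single :=
  ⟨⟨(0, 54), [((0, -20), (0, 24), (0, -4)), ((0, 2), (0, 13), (0, -15)), ((0, -22), (0, -18), (0, -14)), ((0, -5), (0, -23), (0, -26)), ((0, 18), (0, -21), (0, 3)), ((0, 12), (0, 22), (0, 20)), ((0, -13), (0, 4), (0, 9)), ((0, 26), (0, -19), (0, -7)), ((0, 5), (0, -2), (0, -3)), ((0, 23), (0, 21), (0, 10)), ((0, -9), (0, 8), (0, 1)), ((0, 17), (0, 7), (0, -24)), ((0, -10), (0, -1), (0, 11)), ((0, -11), (0, -8), (0, 19)), ((0, -17), (0, -25), (0, -12)), ((0, 25), (0, 14), (0, 15))],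
  [(0, 16), (0, 6), (0, 27)], true,
  [⟨8, (0, 13), ⟨(0, 0), (0, 2), (0, 0), (0, -23), [⟨0, 3, (some ((3, 1), (9, 0))), 0, true⟩, ⟨1, 3, (some ((8, 2), (4, 2))), 0, true⟩, ⟨2, 3, none, 2, true⟩, ⟨2, 4, (some ((4, 2), (8, 2))), 0, false⟩, ⟨2, 5, (some ((9, 0), (3, 1))), 0, false⟩, ⟨0, 5, none, 2, true⟩]⟩, (some ⟨(0, 0), (0, 2), (0, 0), (0, -23), [⟨0, 3, (some ((3, 1), (9, 0))), 0, true⟩, ⟨2, 5, (some ((9, 0), (3, 1))), 0, false⟩, ⟨0, 5, none, 2, true⟩]⟩)⟩,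
    ⟨6, (0, 9), ⟨(7, 1), (7, 1), (0, 0), (0, -13), [⟨0, 3, (some ((6, 0), (1, 1))), 1, false⟩, ⟨1, 3, none, 1, true⟩, ⟨2, 3, (some ((1, 1), (6, 0))), 1, true⟩, ⟨2, 4, (some ((6, 0), (1, 1))), 1, false⟩, ⟨2, 5, none, 1, false⟩, ⟨0, 5, (some ((5, 1), (2, 0))), 1, false⟩]⟩, none⟩]⟩,
  774481375291074501110313550022687738079615211911953116775980349155647777866558433185404555916233567126112250831633,
  924090462598177754729558489392119399617581006533261739534216520125244229733788999779784217790568939556037225283840,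
  155738977827762108946533046528129757217582931575595433250596511805008282852711524380559769583346453008847502049280,
  [0, 1, 5, 2, 11, 10, 3, 32], [0, -20, 12, 7, 26, -5, -2, 11], [0, 17, 44, 23, 11, 24, 3, 32], [13, 15, 11], [0, 1, 2, 1, 2, 0, 2, 2],
  [(0, 0), (33, 34), (45, 46), (35, 34), (39, 41), (0, 0), (47, 46), (40, 41)], [(4, 1)]⟩

/-- certificate for `n = 55`, `2 ≤ m ≤ 8` -/
def s55_6_8 : Single :=
  ⟨⟨(0, 55), [((0, 2), (0, 12), (0, -14)), ((0, 26), (0, -19), (0, -7)), ((0, -17), (0, -27), (0, -11)), ((0, 17), (0, 16), (0, 22)), ((0, -10), (0, -8), (0, 18)), ((0, 10), (0, 14), (0, -24)), ((0, 4), (0, 24), (0, 27)), ((0, -4), (0, 25), (0, -21)), ((0, -25), (0, 19), (0, 6)), ((0, 20), (0, -2), (0, -18)), ((0, -15), (0, 21), (0, -6)), ((0, -1), (0, -12), (0, 13)), ((0, 8), (0, 1), (0, -9)), ((0, 11), (0, 15), (0, -26)), ((0, 9), (0, -16), (0, 7)), ((0, -22), (0, -13), (0, -20))],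
  [(0, 3), (0, 5), (0, 23)], false,
  [⟨1, (0, 27), ⟨(0, 0), (1, 0), (0, 0), (0, -3), [⟨0, 3, none, 0, false⟩, ⟨1, 3, none, 1, false⟩, ⟨2, 3, (some ((2, 0), (3, 0))), 1, true⟩, ⟨2, 4, (some ((4, 0), (5, 0))), 2, false⟩, ⟨0, 4, (some ((6, 0), (7, 0))), 0, false⟩, ⟨0, 5, none, 2, true⟩]⟩, (some ⟨(0, 0), (1, 0), (0, 0), (0, -3), [⟨0, 3, none, 0, false⟩, ⟨1, 3, none, 1, false⟩, ⟨0, 5, none, 2, true⟩]⟩)⟩]⟩,
  4176749162769696864205780087777647193879529914806780341338608823097540650106037356753287743241303777484441031549468,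
  156323737408191672846940262774176914065874189570872225576853751046885048249159308238072110080611519885299914309888,
  310247181480819701303665932059876588880050262590319047451927806656680882177567034696939977020752402710850323873792,
  [0, 1, 5, 2, 11, 3, 23, 4], [0, 2, -18, -10, 15, -25, 7, 1], [0, 28, 14, 15, 46, 44, 24, 4], [14, 13, 9], [0, 1, 1, 3, 2, 2, 0, 3],
  [(0, 0), (28, 29), (27, 29), (40, 39), (43, 42), (44, 42), (0, 0), (41, 39)], [(1, 39)]⟩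

/-- certificate for `n = 56`, `3 ≤ m ≤ 9` -/
def s56_1_9 : Single :=
  ⟨⟨(0, 56), [((0, 23), (0, -16), (0, -7)), ((0, -23), (0, 6), (0, 17)), ((0, 12), (0, 20), (0, 24)), ((0, -12), (0, 4), (0, 8)), ((0, -11), (0, -26), (0, -19)), ((0, 11), (0, -9), (0, -2)), ((0, -18), (0, -8), (0, 26)), ((0, 18), (0, 2), (0, -20)), ((0, -3), (0, 25), (0, -22)), ((0, -27), (0, 14), (0, 13)), ((0, 10), (0, 5), (0, -15)), ((0, 21), (0, 3), (0, -24)), ((0, -17), (0, 1), (0, 16)), ((0, -14), (0, 15), (0, -1)), ((0, -13), (0, -6), (0, 19)), ((0, 9), (0, -4), (0, -5)), ((0, -25), (0, -21), (0, -10)), ((0, 27), (0, 7), (0, 22))],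
  [(0, 28)], true,
  [⟨1, (0, 4), ⟨(0, 0), (1, 0), (0, 0), (0, 12), [⟨0, 3, (some ((2, 0), (3, 0))), 0, true⟩, ⟨1, 3, (some ((4, 0), (5, 0))), 0, true⟩, ⟨1, 4, none, 0, true⟩, ⟨2, 4, (some ((3, 0), (2, 0))), 0, true⟩, ⟨2, 5, (some ((6, 0), (7, 0))), 0, true⟩, ⟨0, 5, (some ((4, 0), (5, 0))), 0, true⟩]⟩, (some ⟨(0, 0), (1, 0), (0, 0), (0, 12), [⟨0, 3, (some ((2, 0), (3, 0))), 0, true⟩, ⟨1, 3, (some ((4, 0), (5, 0))), 0, true⟩, ⟨2, 4, (some ((3, 0), (2, 0))), 0, true⟩, ⟨2, 5, (some ((6, 0), (7, 0))), 0, true⟩]⟩)⟩]⟩,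
  1126753450205113299194536077917731334960886464958478035740217617477474871534465972990432988788568141910290867868006241653291755011,
  216619457654941597305809050283592988738234629299407447172813071986429540202260289380263591236901226484434764731686327512782405888,
  390079224275057083997906791600388717796566738851703106862028185624798072517357639390148777301373540211404827406670798519481139200,
  [0, 1, 5, 13, 8, 2, 7, 26, 25], [0, 23, 6, -11, -9, -4, 8, -27, 12], [0, 3, 43, 15, 45, 10, 19, 51, 49], [17, 11, 12], [0, 2, 2, 0, 2, 1, 0, 1, 2],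
  [(0, 0), (36, 38), (37, 38), (0, 0), (33, 35), (53, 52), (0, 0), (51, 52), (34, 35)], [(1, 51)]⟩

/-- certificate for `n = 56`, `2 ≤ m ≤ 8` -/
def s56_7_8 : Single :=
  ⟨⟨(0, 56), [((0, -12), (0, -8), (0, 20)), ((0, 23), (0, 21), (0, 12)), ((0, 5), (0, 14), (0, -19)), ((0, -5), (0, 1), (0, 4)), ((0, -15), (0, -16), (0, -25)), ((0, 15), (0, -1), (0, -14)), ((0, -22), (0, 3), (0, 19)), ((0, -9), (0, 11), (0, -2)), ((0, 9), (0, 8), (0, -17)), ((0, 2), (0, -24), (0, 22)), ((0, -27), (0, 10), (0, 17)), ((0, -10), (0, -3), (0, 13)), ((0, 16), (0, -23), (0, 7)), ((0, -13), (0, 24), (0, -11)), ((0, -7), (0, -20), (0, 27)), ((0, -4), (0, 25), (0, -21))],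
  [(0, 26), (0, 18), (0, 6), (0, 28)], true,
  [⟨1, (0, 18), ⟨(0, 0), (1, 0), (0, 0), (0, 18), [⟨0, 3, none, 1, true⟩, ⟨1, 3, none, 0, false⟩, ⟨2, 3, none, 1, false⟩, ⟨2, 4, none, 0, true⟩, ⟨2, 5, (some ((2, 0), (3, 0))), 1, false⟩, ⟨0, 5, (some ((4, 0), (5, 0))), 0, false⟩]⟩, (some ⟨(0, 2), (1, 0), (0, -20), (0, 18), [⟨0, 3, none, 1, false⟩, ⟨0, 4, none, 0, true⟩, ⟨0, 5, (some ((2, 0), (3, 0))), 1, false⟩, ⟨1, 5, (some ((4, 0), (5, 0))), 0, false⟩]⟩)⟩,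
    ⟨2, (0, 14), ⟨(6, 0), (6, 0), (0, 0), (0, 28), [⟨0, 3, none, 3, true⟩, ⟨1, 3, none, 2, false⟩, ⟨2, 3, (some ((7, 0), (8, 0))), 2, true⟩, ⟨2, 4, none, 3, true⟩, ⟨0, 4, (some ((8, 0), (7, 0))), 2, false⟩, ⟨0, 5, none, 2, true⟩]⟩, none⟩]⟩,
  624099632700572902447088163926453030011667895117317065329249076838223182712333634153171846630418302458437527345413,
  156924945817909205086429204980372047809826134245257339132620460304267523486523205353160978834328032073432529305856,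
  309646055492868770512619826760661810810804620290954913662423314774970176459857349105548362930352821327465984032768,
  [0, 1, 4, 2, 22, 11, 19, 23], [0, -12, 23, -20, 27, 19, -23, -18], [0, 5, 37, 2, 32, 46, 19, 23], [10, 13, 12], [0, 1, 1, 2, 2, 0, 3, 3],
  [(0, 0), (36, 38), (37, 38), (31, 30), (32, 30), (0, 0), (40, 39), (41, 39)], [(7, 1)]⟩

/-- certificate for `n = 57`, `3 ≤ m ≤ 9` -/
def s57_2_9 : Single :=
  ⟨⟨(0, 57), [((0, 1), (0, -21), (0, 20)), ((0, 16), (0, -20), (0, 4)), ((0, -6), (0, -22), (0, 28)), ((0, 6), (0, 19), (0, -25)), ((0, -7), (0, 25), (0, -18)), ((0, 7), (0, 8), (0, -15)), ((0, 14), (0, -13), (0, -1)), ((0, -14), (0, -9), (0, 23)), ((0, 3), (0, 9), (0, -12)), ((0, -3), (0, 27), (0, -24)), ((0, -4), (0, -11), (0, 15)), ((0, -27), (0, -2), (0, -28)), ((0, 5), (0, -17), (0, 12)), ((0, 26), (0, 18), (0, 13)), ((0, -26), (0, -23), (0, -8)), ((0, 17), (0, -19), (0, 2)), ((0, -16),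 (0, 21), (0, -5)), ((0, 11), (0, 24), (0, 22))],
  [(0, 10)], false,
  [⟨1, (0, 9), ⟨(0, 0), (1, 0), (0, 0), (0, -6), [⟨0, 3, (some ((2, 0), (3, 0))), 0, false⟩, ⟨1, 3, (some ((4, 0), (5, 0))), 0, false⟩, ⟨2, 3, (some ((6, 0), (7, 0))), 0, false⟩, ⟨2, 4, none, 0, true⟩, ⟨0, 4, none, 0, false⟩, ⟨0, 5, none, 0, true⟩]⟩, (some ⟨(0, 1), (1, 0), (0, 1), (0, -6), [⟨0, 3, (some ((4, 0), (5, 0))), 0, false⟩, ⟨1, 4, none, 0, true⟩, ⟨2, 4, none, 0, false⟩]⟩)⟩]⟩,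
  308189013013001398483411637453805816415486777026579483736517318125016355977749584735150583696651393765646851458050694245702185236,
  347095371697456898889712294643794793249577854743205241917175362397133303608300067628609013631641016075911682568863763328007340288,
  44849360288489591241973539674824021954469138535159060692219461219230107454133914179614279839945423165604116605943756951193124864,
  [0, 1, 19, 2, 24, 6, 7, 12, 8], [0, 1, 14, -9, -12, -18, -24, -17, 15], [0, 20, 21, 25, 38, 10, 13, 40, 29], [17, 15, 13], [0, 0, 1, 0, 1, 1, 1, 1, 1],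
  [(0, 0), (0, 0), (39, 41), (0, 0), (45, 46), (47, 46), (51, 52), (40, 41), (53, 52)], [(1, 31)]⟩

/-- certificate for `n = 57`, `2 ≤ m ≤ 8` -/
def s57_8_8 : Single :=
  ⟨⟨(0, 57), [((0, -6), (0, -1), (0, 7)), ((0, -27), (0, -7), (0, -23)), ((0, -5), (0, -8), (0, 13)), ((0, 5), (0, 11), (0, -16)), ((0, 1), (0, -18), (0, 17)), ((0, -12), (0, -4), (0, 16)), ((0, 18), (0, -15), (0, -3)), ((0, 15), (0, 23), (0, 19)), ((0, -22), (0, -26), (0, -9)), ((0, -20), (0, 12), (0, 8)), ((0, -21), (0, -19), (0, -17)), ((0, -28), (0, 6), (0, 22)), ((0, -11), (0, 21), (0, -10)), ((0, -13), (0, 10), (0, 3)), ((0, 9), (0, 20), (0, 28)), ((0, 4), (0, 26), (0, 27))],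
  [(0, 25), (0, 24), (0, 14), (0, 2)], false,
  [⟨3, (0, 19), ⟨(0, 0), (1, 0), (0, 0), (0, -5), [⟨0, 3, (some ((2, 0), (3, 0))), 1, true⟩, ⟨1, 3, (some ((4, 0), (0, 1))), 1, true⟩, ⟨1, 4, none, 1, true⟩, ⟨2, 4, none, 0, true⟩, ⟨2, 5, none, 0, false⟩, ⟨0, 5, none, 0, true⟩]⟩, none⟩,
    ⟨3, (0, 19), ⟨(5, 0), (5, 1), (0, 0), (0, -14), [⟨0, 3, none, 2, false⟩, ⟨1, 3, none, 3, false⟩, ⟨2, 3, none, 3, true⟩, ⟨2, 4, none, 2, true⟩, ⟨2, 5, none, 3, false⟩, ⟨0, 5, (some ((4, 1), (6, 0))), 2, false⟩]⟩, none⟩]⟩,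
  476810813038112359264512194527788304711251773788416115759083984957760298859689947076471311979338920778618359778338,
  1806038527938006495381041268832051073316589742151078303004479345565933073925754425129694551879411209336397234432,
  310249539231973538934271682432483527236811485630250508060666406929075154303811060438214558070321043858904213094400,
  [0, 1, 24, 16, 2, 14, 6, 8], [0, -6, 22, -26, -7, -24, -21, 10], [0, 34, 24, 46, 2, 18, 21, 11], [13, 11, 7], [0, 1, 1, 0, 2, 3, 2, 3],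
  [(0, 0), (34, 35), (33, 35), (0, 0), (23, 22), (41, 39), (21, 22), (40, 39)], [(6, 37)]⟩

/-- certificate for `n = 58`, `3 ≤ m ≤ 9` -/
def s58_3_9 : Single :=
  ⟨⟨(0, 58), [((0, 9), (0, 1), (0, -10)), ((0, -20), (0, -8), (0, 28)), ((0, 20), (0, 11), (0, 27)), ((0, -16), (0, -5), (0, 21)), ((0, -6), (0, 17), (0, -11)), ((0, -25), (0, 10), (0, 15)), ((0, -15), (0, -3), (0, 18)), ((0, 24), (0, -23), (0, -1)), ((0, -26), (0, 3), (0, 23)), ((0, 12), (0, -14), (0, 2)), ((0, 26), (0, -24), (0, -2)), ((0, -4), (0, 16), (0, -12)), ((0, -7), (0, 25), (0, -18)), ((0, -17), (0, 4), (0, 13)), ((0, -28), (0, 22), (0, 6)), ((0, 7), (0, 14), (0, -21)), ((0, 5), (0, -13), (0, 8)), ((0, -22), (0, -9), (0, -27))],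
  [(0, 19), (0, 29)], true,
  [⟨2, (0, 14), ⟨(0, 0), (0, 1), (0, 0), (0, -20), [⟨0, 3, (some ((1, 0), (2, 0))), 0, false⟩, ⟨1, 3, none, 1, true⟩, ⟨1, 4, (some ((2, 0), (1, 0))), 0, true⟩, ⟨2, 4, none, 0, true⟩, ⟨2, 5, none, 1, true⟩, ⟨0, 5, none, 0, false⟩]⟩, (some ⟨(0, 1), (0, 1), (0, 9), (0, -20), [⟨0, 3, none, 1, true⟩, ⟨1, 4, none, 0, true⟩, ⟨2, 5, none, 0, false⟩]⟩)⟩]⟩,
  346612147914718537557977896524046172243255651856732237190871806651741543061142487163949390837517909591760110991685463442709288756,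
  170555042372208060491866021669755134620667669730916043310959023241005019193424543292663115889857008464700854573478247789953280,
  346758901956288692789584722574218055717318965528521399907738302054624243762652742992849176400367705368061790549660318880250200064,
  [0, 1, 8, 3, 9, 20, 15, 2, 22], [0, 9, -27, 20, 21, 7, 25, 10, -25], [0, 52, 8, 3, 47, 36, 15, 2, 31], [17, 7, 15], [0, 1, 1, 0, 1, 1, 0, 2, 2],
  [(0, 0), (52, 53), (51, 53), (0, 0), (47, 45), (46, 45), (0, 0), (23, 21), (22, 21)], [(4, 17)]⟩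

/-- certificate for `n = 58`, `2 ≤ m ≤ 8` -/
def s58_9_8 : Single :=
  ⟨⟨(0, 58), [((0, -19), (0, -23), (0, -16)), ((0, 13), (0, 26), (0, 19)), ((0, 18), (0, -3), (0, -15)), ((0, -18), (0, 7), (0, 11)), ((0, 23), (0, -24), (0, 1)), ((0, 5), (0, 25), (0, 28)), ((0, -5), (0, -22), (0, 27)), ((0, -12), (0, 9), (0, 3)), ((0, -25), (0, 10), (0, 15)), ((0, 22), (0, -13), (0, -9)), ((0, 17), (0, -7), (0, -10)), ((0, -14), (0, -17), (0, -27)), ((0, 12), (0, -11), (0, -1)), ((0, -20), (0, 4), (0, 16)), ((0, 24), (0, 20), (0, 14)), ((0, -28), (0, -4), (0, -26))],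
  [(0, 2), (0, 21), (0, 8), (0, 6), (0, 29)], true,
  [⟨2, (0, 29), ⟨(0, 0), (1, 0), (0, 0), (0, -21), [⟨0, 3, none, 1, false⟩, ⟨1, 3, none, 0, false⟩, ⟨2, 3, none, 1, true⟩, ⟨2, 4, none, 0, true⟩, ⟨0, 4, (some ((2, 0), (3, 0))), 2, false⟩, ⟨0, 5, none, 2, false⟩]⟩, none⟩,
    ⟨2, (0, 14), ⟨(4, 0), (4, 0), (0, 0), (0, 29), [⟨0, 3, none, 4, true⟩, ⟨1, 3, none, 3, true⟩, ⟨1, 4, (some ((5, 0), (6, 0))), 3, true⟩, ⟨2, 4, none, 4, true⟩, ⟨2, 5, (some ((6, 0), (5, 0))), 3, false⟩, ⟨0, 5, none, 3, false⟩]⟩, (some ⟨(4, 1), (4, 0), (0, 23), (0, 29), [⟨0, 3, none, 3, true⟩, ⟨1, 4, none, 4, true⟩, ⟨2, 5, none, 3, false⟩]⟩)⟩]⟩,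
  639745652231413959761734053294761583206540386461279660541928000669432726592529167236354452838102368503046857100293,
  153918848044048600020047900340158180944675600615492022914234718171215198671981806769875364185113271568046622179584,
  309040076569494151378116475466629143362867065540993871913362441207938304743627460526310280335982365998065104453632,
  [0, 1, 4, 14, 7, 6, 16, 2], [0, -19, 13, -9, 3, -15, -25, 16], [0, 5, 28, 22, 7, 26, 16, 2], [14, 8, 15], [0, 1, 1, 2, 0, 1, 1, 2],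
  [(0, 0), (47, 46), (45, 46), (42, 43), (0, 0), (26, 24), (25, 24), (44, 43)], [(15, 27)]⟩

/-- certificate for `n = 59`, `3 ≤ m ≤ 9` -/
def s59_4_9 : Single :=
  ⟨⟨(0, 59), [((0, -4), (0, -24), (0, 28)), ((0, -2), (0, -10), (0, 12)), ((0, -7), (0, 18), (0, -11)), ((0, 7), (0, 20), (0, -27)), ((0, 21), (0, -20), (0, -1)), ((0, -21), (0, 4), (0, 17)), ((0, -19), (0, -28), (0, -12)), ((0, 19), (0, 15), (0, 25)), ((0, 29), (0, -6), (0, -23)), ((0, -14), (0, 22), (0, -8)), ((0, 26), (0, 10), (0, 23)), ((0, -17), (0, 11), (0, 6)), ((0, -13), (0, 8), (0, 5)), ((0, 13), (0, -29), (0, 16)), ((0, 1), (0, -25), (0, 24)), ((0, -22), (0, 27), (0, -5)), ((0, -15), (0, -26), (0, -18)), ((0, 14), (0, -16), (0, 2))],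
  [(0, 9), (0, 3)], false,
  [⟨1, (0, 19), ⟨(0, 0), (1, 0), (0, 0), (0, -7), [⟨0, 3, (some ((2, 0), (3, 0))), 0, true⟩, ⟨1, 3, none, 1, false⟩, ⟨2, 3, (some ((4, 0), (5, 0))), 1, true⟩, ⟨2, 4, none, 0, true⟩, ⟨0, 4, (some ((6, 0), (7, 0))), 1, true⟩, ⟨0, 5, none, 0, false⟩]⟩, (some ⟨(0, 0), (1, 0), (0, 0), (0, -7), [⟨0, 3, (some ((2, 0), (3, 0))), 0, true⟩, ⟨2, 3, (some ((4, 0), (5, 0))), 1, true⟩, ⟨0, 4, (some ((6, 0), (7, 0))), 1, true⟩, ⟨0, 5, none, 0, false⟩]⟩)⟩]⟩,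
  136925202250722236297059459075624598054139628599988154355950069812587347266573417507604029066280790797453057277094138119007185936,
  347770976082391264395124658898571913427151842280177223320906759232131067378837371162154753032001777123270636701644036840221835520,
  43835946004961957380077318664702668898093548262767348899416654053632288112138990516102807682478358379064072508613058976246923264,
  [0, 1, 11, 8, 2, 5, 29, 27, 4], [0, -4, 17, 11, -7, 19, 12, 4, -12], [0, 16, 33, 8, 9, 18, 38, 39, 24], [8, 12, 14], [0, 1, 0, 1, 1, 0, 1, 1, 1],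
  [(0, 0), (42, 43), (0, 0), (26, 25), (44, 43), (0, 0), (38, 36), (37, 36), (24, 25)], [(1, 14)]⟩

/-- certificate for `n = 60`, `3 ≤ m ≤ 9` -/
def s60_5_9 : Single :=
  ⟨⟨(0, 60), [((0, 9), (0, 25), (0, 26)), ((0, 23), (0, -26), (0, 3)), ((0, -23), (0, -17), (0, -20)), ((0, -11), (0, 1), (0, 10)), ((0, 11), (0, 4), (0, -15)), ((0, 12), (0, 13), (0, -25)), ((0, -12), (0, -21), (0, -27)), ((0, -18), (0, -1), (0, 19)), ((0, 18), (0, -24), (0, 6)), ((0, 29), (0, -22), (0, -7)), ((0, -28), (0, 8), (0, 20)), ((0, -16), (0, 24), (0, -8)), ((0, -3), (0, -4), (0, 7)), ((0, -10), (0, -6), (0, 16)), ((0, 21), (0, 17), (0, 22)), ((0, -19), (0, 28), (0, -9)), ((0, -13), (0, -2), (0, 15)), ((0, 27), (0, -29), (0, 2))],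
  [(0, 14), (0, 5), (0, 30)], true,
  [⟨6, (0, 10), ⟨(0, 0), (1, 0), (0, 0), (0, 23), [⟨0, 3, (some ((1, 0), (2, 0))), 0, false⟩, ⟨1, 3, none, 0, true⟩, ⟨2, 3, (some ((3, 0), (4, 0))), 0, true⟩, ⟨2, 4, none, 0, false⟩, ⟨2, 5, (some ((5, 0), (6, 0))), 0, true⟩, ⟨0, 5, none, 0, false⟩]⟩, none⟩,
    ⟨2, (0, 15), ⟨(5, 2), (5, 2), (0, 0), (0, 30), [⟨0, 3, none, 2, true⟩, ⟨1, 3, none, 1, false⟩, ⟨1, 4, (some ((7, 0), (8, 0))), 1, false⟩, ⟨2, 4, none, 2, true⟩, ⟨2, 5, (some ((8, 0), (7, 0))), 1, true⟩, ⟨0, 5, none, 1, true⟩]⟩, none⟩]⟩,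
  2127407711223638043632281537933335212616242332664678921867039396871723974170527471990569250628429398981571512160273952528398553391,
  88004403192484143664192496124433526772975163034920707850317556567309698321519870171418577255306514663496846752053153146545242368,
  390415709520046806851361708647010565966625591449853851145858647378879087343888956756839174956526407859319731302120132490096017408,
  [0, 1, 9, 11, 26, 3, 2, 16, 20], [0, 9, -19, -18, -24, -23, -26, 21, -12], [0, 47, 23, 24, 34, 3, 2, 18, 42], [14, 16, 15], [0, 1, 1, 0, 0, 2, 2, 2, 2],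
  [(0, 0), (47, 45), (46, 45), (0, 0), (0, 0), (44, 43), (48, 50), (49, 50), (42, 43)], [(7, 11)]⟩

/-- certificate for `n = 60`, `2 ≤ m ≤ 8` -/
def s60_11_8 : Single :=
  ⟨⟨(0, 60), [((0, 25), (0, -3), (0, -22)), ((0, -8), (0, 29), (0, -21)), ((0, 8), (0, -25), (0, 17)), ((0, -24), (0, 28), (0, -4)), ((0, 22), (0, -23), (0, 1)), ((0, -5), (0, -18), (0, 23)), ((0, 7), (0, 21), (0, -28)), ((0, -7), (0, 16), (0, -9)), ((0, -6), (0, 19), (0, -13)), ((0, -20), (0, 15), (0, 5)), ((0, 18), (0, -17), (0, -1)), ((0, -27), (0, 3), (0, 24)), ((0, -10), (0, 6), (0, 4)), ((0, 10), (0, 9), (0, -19)), ((0, -29), (0, -15), (0, -16)), ((0, 13), (0, 20), (0, 27))],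
  [(0, 11), (0, 14), (0, 2), (0, 26), (0, 12), (0, 30)], true,
  [⟨3, (0, 20), ⟨(0, 0), (0, 2), (0, 0), (0, 11), [⟨0, 3, none, 0, true⟩, ⟨1, 3, none, 1, false⟩, ⟨2, 3, none, 0, false⟩, ⟨2, 4, (some ((1, 0), (2, 0))), 1, true⟩, ⟨0, 4, none, 1, true⟩, ⟨0, 5, none, 0, false⟩]⟩, none⟩,
    ⟨3, (0, 20), ⟨(3, 0), (3, 0), (0, 0), (0, 2), [⟨0, 3, none, 2, true⟩, ⟨1, 3, none, 3, true⟩, ⟨2, 3, none, 2, false⟩, ⟨2, 4, none, 2, true⟩, ⟨2, 5, none, 3, false⟩, ⟨0, 5, (some ((0, 2), (4, 0))), 3, false⟩]⟩, none⟩,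
    ⟨2, (0, 15), ⟨(5, 0), (5, 2), (0, 0), (0, 7), [⟨0, 3, (some ((6, 0), (7, 0))), 4, false⟩, ⟨1, 3, none, 4, true⟩, ⟨2, 3, none, 5, true⟩, ⟨2, 4, none, 4, false⟩, ⟨2, 5, (some ((7, 0), (6, 0))), 4, true⟩, ⟨0, 5, none, 5, true⟩]⟩, none⟩]⟩,
  5095459252525118198445902478655010224444204559391821696292585198283813553769104641154469135645509162076341273371143,
  619275506054500097324473777857997653591022214385262527281808425925905853665616565901792025666796896227839057330432,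
  309638909095227122823065581231076277387666980486608899351125173012055173685978056656798697075686794519964351987712,
  [0, 1, 4, 14, 2, 9, 23, 25], [0, 25, 17, -1, 22, -11, -19, 15], [0, 7, 31, 14, 2, 9, 44, 39], [14, 12, 10], [0, 2, 1, 1, 0, 3, 2, 3],
  [(0, 0), (42, 43), (31, 32), (30, 32), (0, 0), (38, 36), (44, 43), (37, 36)], [(18, 43)]⟩

/-- certificate for `n = 62`, `3 ≤ m ≤ 9` -/
def s62_7_9 : Single :=
  ⟨⟨(0, 62), [((0, 2), (0, 5), (0, -7)), ((0, -24), (0, 7), (0, 17)), ((0, 24), (0, 9), (0, 29)), ((0, 4), (0, 11), (0, -15)), ((0, -11), (0, 10), (0, 1)), ((0, -28), (0, 20), (0, 8)), ((0, 28), (0, 19), (0, 15)), ((0, 13), (0, -9), (0, -4)), ((0, -13), (0, -19), (0, -30)), ((0, -16), (0, -2), (0, 18)), ((0, 12), (0, 6), (0, -18)), ((0, -22), (0, -3), (0, 25)), ((0, -6), (0, -10), (0, 16)), ((0, -1), (0, 21), (0, -20)), ((0, 22), (0, -8), (0, -14)), ((0, -29), (0, -21), (0, -12)), ((0, 30),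 (0, -25), (0, -5)), ((0, -17), (0, 3), (0, 14))],
  [(0, 26), (0, 23), (0, 27), (0, 31)], true,
  [⟨14, (0, 15), ⟨(0, 0), (0, 2), (0, 0), (0, -24), [⟨0, 3, (some ((1, 0), (2, 0))), 0, true⟩, ⟨1, 3, none, 0, false⟩, ⟨2, 3, none, 3, true⟩, ⟨2, 4, none, 0, true⟩, ⟨2, 5, (some ((2, 0), (1, 0))), 0, false⟩, ⟨0, 5, none, 3, true⟩]⟩, (some ⟨(0, 1), (0, 2), (0, 2), (0, -24), [⟨0, 3, none, 0, false⟩, ⟨1, 4, none, 0, true⟩, ⟨2, 5, none, 3, true⟩]⟩)⟩,
    ⟨5, (0, 20), ⟨(3, 0), (4, 0), (0, 0), (0, -23), [⟨0, 3, none, 1, false⟩, ⟨1, 3, none, 2, false⟩, ⟨1, 4, (some ((5, 0), (6, 0))), 2, true⟩, ⟨2, 4, none, 1, true⟩, ⟨2, 5, (some ((7, 0), (8, 0))), 1, false⟩, ⟨0, 5, (some ((6, 0), (5, 0))), 2, false⟩]⟩, (some ⟨(3, 1), (4, 0), (0, 4), (0, -23), [⟨0, 3, none, 2, false⟩, ⟨0, 4, (some ((5, 0), (6, 0))), 2, true⟩, ⟨1, 4, none, 1, true⟩, ⟨1, 5, (some ((7, 0), (8, 0))), 1, false⟩]⟩)⟩]⟩,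
  1911967554076575438267093725663242358063900877692937332689070824796973871027881423928102894840190584976677395159381567030400659996,
  347261304512585806889939542185598751540878366837520236668172481282211957741210150083202424512412259595353343836707777500965765376,
  87158909986198217183605148851290244155381247596254449178170177934327628556348174837313518885196737057836144730627709525303492608,
  [0, 1, 27, 14, 2, 15, 9, 11, 34], [0, 2, 18, 12, 7, -30, -11, -18, -12], [0, 28, 32, 47, 2, 26, 21, 16, 53], [13, 17, 10], [0, 2, 1, 1, 3, 0, 0, 2, 3],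
  [(0, 0), (41, 40), (32, 30), (31, 30), (52, 51), (0, 0), (0, 0), (39, 40), (53, 51)], [(7, 7)]⟩

/-- the certificates of this file -/
def singles02 : List Single := [s49_6_7, s50_1_8, s50_7_7, s51_2_8, s51_8_7, s52_3_8, s52_9_7, s53_4_8, s53_10_7, s54_5_8, s55_6_8, s56_1_9, s56_7_8, s57_2_9, s57_8_8, s58_3_9, s58_9_8, s59_4_9, s60_5_9, s60_11_8, s62_7_9]

theorem singles02_ok : singles02.all Single.check = true := by decide +kernel

theorem sgl02 : ∀ x ∈ ([(49, 7, 2), (50, 8, 3), (50, 7, 2), (51, 8, 3), (51, 7, 2), (52, 8, 3), (52, 7, 2), (53, 8, 3), (53, 7, 2), (54, 8, 3), (55, 8, 3), (56, 9, 3), (56, 8, 3), (57, 9, 3), (57, 8, 3), (58, 9, 3), (58, 8, 3), (59, 9, 3), (60, 9, 3), (60, 8, 3), (62, 9, 3)] :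
    List (ℕ × ℕ × ℕ)), Covers x.1 x.2.1 x.2.2 := by
  have e : singles02.map (fun T => (T.n, T.F, T.xs.length)) = [(49, 7, 2), (50, 8, 3), (50, 7, 2), (51, 8, 3), (51, 7, 2), (52, 8, 3), (52, 7, 2), (53, 8, 3), (53, 7, 2), (54, 8, 3), (55, 8, 3), (56, 9, 3), (56, 8, 3), (57, 9, 3), (57, 8, 3), (58, 9, 3), (58, 8, 3), (59, 9, 3), (60, 9, 3), (60, 8, 3), (62, 9, 3)] := by
    decide +kernel
  rw [← e]
  exact covers_of_all singles02 singles02_ok

end Empire
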