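import Pool.Agent.Lib.MP_800721_co.Sgl.Basic

/-!
# PROJECT EMPIRE: certificates for single `n`, part 3

Found by computer search (helper98, helper7); converted by helper56.
-/

namespace Empire

/-- certificate for `n = 63`, `2 ≤ m ≤ 10` -/
def s63_2_10 : Single :=
  ⟨⟨(0, 63), [((0, -28), (0, 6), (0, 22)), ((0, -22), (0, 12), (0, 10)), ((0, -24), (0, 30), (0, -6)), ((0, 24), (0, -5), (0, -19)), ((0, 29), (0, 9), (0, 25)), ((0, -29), (0, -14), (0, -20)), ((0, 23), (0, 19), (0, 21)), ((0, -23), (0, -10), (0, -30)), ((0, -8), (0, -7), (0, 15)), ((0, -27), (0, 7), (0, 20)), ((0, -1), (0, -3), (0, 4)), ((0, 26), (0, -31), (0, 5)), ((0, -18), (0, 2), (0, 16)), ((0, -9), (0, 8), (0, 1)), ((0, 13), (0, 3), (0, -16)), ((0, -15), (0, 27), (0, -12)), ((0, -25), (0, -17), (0, -21)), ((0, -26), (0, 28), (0, -2)), ((0, 18), (0, 14), (0, 31)), ((0, 17), (0, -4), (0, -13))],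
  [(0, 11)], false,
  [⟨1, (0, 10), ⟨(0, 0), (1, 0), (0, 0), (0, 11), [⟨0, 3, none, 0, true⟩, ⟨1, 3, (some ((2, 0), (3, 0))), 0, false⟩, ⟨1, 4, (some ((4, 0), (5, 0))), 0, true⟩, ⟨2, 4, (some ((6, 0), (7, 0))), 0, true⟩, ⟨2, 5, none, 0, true⟩, ⟨0, 5, none, 0, false⟩]⟩, (some ⟨(0, 1), (1, 0), (0, -28), (0, 11), [⟨0, 3, (some ((2, 0), (3, 0))), 0, false⟩, ⟨1, 5, none, 0, true⟩, ⟨2, 5, none, 0, false⟩]⟩)⟩]⟩,
  513695305043853933862204729499334027609317010965428205589087409569615470896189340769518020305212838845153307619590739696012700861539987941951540,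
  49015495981436731683318602823661994109837763222246261588807706702092471426173904290085958335296993527818077395384770314029476659489575083901184,
  24532494684402662112640503363620033194081743250239731917825342849975079012315514234186958529095593298584881611387981314978086134909930768957440,
  [0, 1, 34, 2, 32, 14, 11, 7, 26, 13], [0, -28, -2, 16, 13, 17, -21, 23, 1, 8], [0, 52, 37, 44, 59, 49, 20, 21, 26, 40], [19, 18, 17, 9], [0, 1, 1, 2, 1, 1, 2, 0, 3, 3],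
  [(0, 0), (52, 53), (51, 53), (55, 54), (59, 57), (58, 57), (56, 54), (0, 0), (28, 27), (29, 27)], [(1, 58)]⟩

/-- certificate for `n = 63`, `3 ≤ m ≤ 9` -/
def s63_8_9 : Single :=
  ⟨⟨(0, 63), [((0, 18), (0, 19), (0, 26)), ((0, 24), (0, -5), (0, -19)), ((0, -6), (0, 28), (0, -22)), ((0, 6), (0, -9), (0, 3)), ((0, -8), (0, 22), (0, -14)), ((0, 8), (0, -18), (0, 10)), ((0, 23), (0, -27), (0, 4)), ((0, 21), (0, -26), (0, 5)), ((0, -21), (0, -30), (0, -12)), ((0, -17), (0, 20), (0, -3)), ((0, 29), (0, 7), (0, 27)), ((0, -23), (0, -16), (0, -24)), ((0, 9), (0, -10), (0, 1)), ((0, -11), (0, 12), (0, -1)), ((0, -4), (0, -7), (0, 11)), ((0, -15), (0, -28), (0, -20)), ((0, 14), (0, 15), (0, -29)), ((0, 17), (0, 30), (0, 16))],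
  [(0, 31), (0, 13), (0, 25), (0, 2)], false,
  [⟨3, (0, 21), ⟨(0, 0), (1, 0), (0, 0), (0, 31), [⟨0, 3, none, 0, true⟩, ⟨1, 3, none, 1, true⟩, ⟨2, 3, (some ((2, 0), (3, 0))), 0, false⟩, ⟨2, 4, none, 1, true⟩, ⟨0, 4, none, 1, false⟩, ⟨0, 5, (some ((4, 0), (5, 0))), 0, true⟩]⟩, none⟩,
    ⟨3, (0, 21), ⟨(6, 0), (6, 0), (0, 0), (0, -2), [⟨0, 3, none, 3, false⟩, ⟨1, 3, none, 2, false⟩, ⟨2, 3, none, 3, true⟩, ⟨2, 4, none, 3, false⟩, ⟨2, 5, none, 2, true⟩, ⟨0, 5, (some ((7, 0), (8, 0))), 2, false⟩]⟩, none⟩]⟩,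
  1477229459635061217891421632973534546172106030868027475391793390344748425637130561282449741194008646561308326355960819853410305296,
  217122510907868296631802659991983520980381803224911660282298504898814953158830292374377004336650801380394394894516394025760063744,
  87328814270827555237101049095425653431654285972581569249753928305479440004015393828754396401473035772493919707419263210352541696,
  [0, 1, 6, 11, 20, 4, 7, 8, 2], [0, 18, 10, 1, -4, -16, 20, -15, -26], [0, 16, 37, 41, 20, 53, 47, 49, 2], [10, 12, 15], [0, 1, 1, 1, 1, 0, 1, 1, 0],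
  [(0, 0), (30, 31), (37, 38), (36, 38), (32, 31), (0, 0), (47, 45), (46, 45), (0, 0)], [(3, 25)]⟩

/-- certificate for `n = 64`, `3 ≤ m ≤ 9` -/
def s64_9_9 : Single :=
  ⟨⟨(0, 64), [((0, 20), (0, 6), (0, -26)), ((0, 19), (0, 5), (0, -24)), ((0, 13), (0, 16), (0, -29)), ((0, -13), (0, -23), (0, -28)), ((0, 9), (0, 21), (0, -30)), ((0, -9), (0, 26), (0, -17)), ((0, -1), (0, 15), (0, -14)), ((0, -16), (0, 18), (0, -2)), ((0, 11), (0, 25), (0, 28)), ((0, -21), (0, -18), (0, -25)), ((0, 1), (0, 10), (0, -11)), ((0, 17), (0, 23), (0, 24)), ((0, 29), (0, 27), (0, 8)), ((0, 3), (0, 2), (0, -5)), ((0, -27), (0, -22), (0, -15)), ((0, -3), (0, -19), (0, 22)), ((0, -10), (0, -20), (0, 30)), ((0, -8), (0, -6), (0, 14))],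
  [(0, 12), (0, 31), (0, 7), (0, 4), (0, 32)], true,
  [⟨2, (0, 32), ⟨(0, 0), (1, 0), (0, 0), (0, -31), [⟨0, 3, none, 1, false⟩, ⟨1, 3, (some ((2, 0), (3, 0))), 0, true⟩, ⟨2, 3, none, 2, true⟩, ⟨2, 4, none, 1, true⟩, ⟨0, 4, none, 2, false⟩, ⟨0, 5, none, 0, false⟩]⟩, none⟩,
    ⟨2, (0, 16), ⟨(3, 0), (3, 2), (0, 0), (0, -4), [⟨0, 3, none, 3, false⟩, ⟨1, 3, (some ((4, 0), (5, 0))), 3, false⟩, ⟨1, 4, none, 4, true⟩, ⟨2, 4, (some ((5, 0), (4, 0))), 3, true⟩, ⟨2, 5, none, 3, true⟩, ⟨0, 5, none, 4, true⟩]⟩, none⟩]⟩,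
  866653666020305352316332939981895787687168406112111924965135559526606630755197722495210518516100507318663056731418443032543900721,
  44003190572689389984638670431191362472351823833394245082484446896854221596910018528895465100921341526300966320643303852791300352,
  173464399247400571400796197958602002833246994824122020464909859171714709517901845686280163961266769991605226038920189719972151296,
  [0, 1, 14, 5, 2, 3, 7, 8, 4], [0, 20, 30, 9, 26, -30, -9, 7, 4], [0, 49, 14, 15, 2, 20, 29, 40, 4], [13, 17, 8], [0, 0, 2, 0, 1, 1, 2, 1, 1],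
  [(0, 0), (0, 0), (25, 24), (0, 0), (52, 53), (51, 53), (26, 24), (40, 41), (39, 41)], [(3, 17)]⟩

/-- certificate for `n = 65`, `3 ≤ m ≤ 9` -/
def s65_10_9 : Single :=
  ⟨⟨(0, 65), [((0, -22), (0, 23), (0, -1)), ((0, -16), (0, 11), (0, 5)), ((0, 14), (0, -8), (0, -6)), ((0, -14), (0, 26), (0, -12)), ((0, -9), (0, 8), (0, 1)), ((0, 9), (0, 2), (0, -11)), ((0, 18), (0, 22), (0, 25)), ((0, 32), (0, -30), (0, -2)), ((0, 6), (0, 17), (0, -23)), ((0, -25), (0, -5), (0, 30)), ((0, -15), (0, -18), (0, -32)), ((0, 13), (0, -17), (0, 4)), ((0, 29), (0, 15), (0, 21)), ((0, 10), (0, 27), (0, 28)), ((0, 16), (0, 12), (0, -28)), ((0, -27), (0, 31), (0, -4)), ((0, -10), (0, -26), (0, -29)), ((0, -13), (0, -31), (0, -21))],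
  [(0, 20), (0, 19), (0, 3), (0, 24), (0, 7)], false,
  [⟨6, (0, 32), ⟨(0, 0), (1, 0), (0, 0), (0, -3), [⟨0, 3, none, 2, false⟩, ⟨1, 3, none, 1, true⟩, ⟨1, 4, (some ((2, 0), (3, 0))), 0, true⟩, ⟨2, 4, (some ((4, 0), (5, 0))), 2, true⟩, ⟨2, 5, none, 0, false⟩, ⟨0, 5, none, 1, false⟩]⟩, (some ⟨(0, 0), (1, 0), (0, 0), (0, -3), [⟨0, 3, none, 2, false⟩, ⟨1, 3, none, 1, true⟩, ⟨2, 5, none, 0, false⟩]⟩)⟩,
    ⟨7, (0, 21), ⟨(8, 2), (8, 1), (0, 0), (0, 24), [⟨0, 3, none, 3, true⟩, ⟨1, 3, (some ((10, 1), (6, 0))), 4, true⟩, ⟨2, 3, none, 3, false⟩, ⟨2, 4, (some ((7, 1), (9, 2))), 4, true⟩, ⟨0, 4, (some ((6, 0), (10, 1))), 4, false⟩, ⟨0, 5, none, 3, false⟩]⟩, (some ⟨(8, 2), (8, 1), (0, 0), (0, 24), [⟨0, 3, none, 3, true⟩, ⟨1, 3, (some ((10, 1), (6, 0))), 4, true⟩, ⟨0, 4, (some ((6, 0), (10, 1))), 4, false⟩, ⟨0, 5, none, 3, false⟩]⟩)⟩]⟩,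
  1654079133883084712163996825709449835806610729949649841733717074704677773410317862204327081028251218661384012847900047191302871571,
  304618559387320791481026556359209480923475615194684308229313578037272466905296409257978011757503184089065365096918598191898034432,
  43663418133808899291683681492339810483245503183373659957963128925486487926184381772834075355278249629436521693523034629015076864,
  [0, 1, 18, 5, 4, 11, 2, 36, 33], [0, -22, 25, -5, -16, 12, 1, 14, -12], [0, 19, 27, 5, 42, 11, 2, 36, 47], [16, 14, 11], [0, 2, 0, 0, 1, 1, 2, 2, 2],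
  [(0, 0), (50, 49), (0, 0), (0, 0), (42, 43), (44, 43), (34, 35), (48, 49), (33, 35)], [(6, 8)]⟩

/-- certificate for `n = 66`, `2 ≤ m ≤ 10` -/
def s66_5_10 : Single :=
  ⟨⟨(0, 66), [((0, 9), (0, 26), (0, 31)), ((0, 24), (0, 4), (0, -28)), ((0, -24), (0, -31), (0, -11)), ((0, 17), (0, 30), (0, 19)), ((0, -2), (0, 12), (0, -10)), ((0, 2), (0, 25), (0, -27)), ((0, -21), (0, -16), (0, -29)), ((0, 21), (0, -22), (0, 1)), ((0, 32), (0, 29), (0, 5)), ((0, -32), (0, 10), (0, 22)), ((0, -12), (0, 13), (0, -1)), ((0, -20), (0, 28), (0, -8)), ((0, -25), (0, -18), (0, -23)), ((0, -4), (0, -19), (0, 23)), ((0, 18), (0, -26), (0, 8)), ((0, -6), (0, 20), (0, -14)), ((0, -13), (0, -3), (0, 16)), ((0, -30), (0, 3), (0, 27)), ((0, -9), (0, -5), (0, 14)), ((0, -17), (0, 11), (0, 6))],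
  [(0, 7), (0, 15), (0, 33)], true,
  [⟨4, (0, 16), ⟨(0, 0), (0, 0), (0, 0), (0, 33), [⟨0, 3, none, 2, true⟩, ⟨1, 3, (some ((1, 0), (2, 0))), 0, true⟩, ⟨1, 4, none, 0, false⟩, ⟨2, 4, none, 2, true⟩, ⟨2, 5, none, 0, true⟩, ⟨0, 5, (some ((2, 0), (1, 0))), 0, false⟩]⟩, (some ⟨(0, 0), (0, 0), (0, 0), (0, 33), [⟨0, 3, none, 2, true⟩, ⟨1, 4, none, 0, false⟩, ⟨2, 5, none, 0, true⟩]⟩)⟩,
    ⟨6, (0, 11), ⟨(3, 0), (3, 0), (0, 0), (0, 15), [⟨0, 3, none, 1, true⟩, ⟨1, 3, (some ((4, 0), (5, 0))), 1, true⟩, ⟨1, 4, (some ((6, 0), (7, 0))), 1, true⟩, ⟨2, 4, none, 1, true⟩, ⟨2, 5, none, 1, false⟩, ⟨0, 5, (some ((8, 0), (9, 0))), 1, true⟩]⟩, none⟩]⟩,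
  549127644052977626265384689743377529482659518765255439834463530150261025723188683556034308917807072045471401380224369396437368438630793248975670,
  381446416199090723402609803571312795702523365998623476163642785466646108642604954076510475258023748955900146552246963833474209083754297688320,
  61067107869619860862623856420671614766256480963560182731669389133658413017093676936582346244345323488360007782716686174241582322603767181541376,
  [0, 1, 10, 18, 14, 13, 11, 5, 4, 19], [0, 9, -5, 32, 10, -2, 25, -18, -11, 11], [0, 54, 26, 27, 14, 15, 36, 42, 58, 19], [17, 11, 10, 19], [0, 1, 1, 0, 3, 2, 2, 1, 1, 3],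
  [(0, 0), (33, 34), (57, 59), (0, 0), (30, 31), (53, 52), (51, 52), (35, 34), (58, 59), (32, 31)], [(1, 17)]⟩

/-- certificate for `n = 68`, `3 ≤ m ≤ 11` -/
def s68_1_11 : Single :=
  ⟨⟨(0, 68), [((0, -31), (0, 25), (0, 6)), ((0, 30), (0, -6), (0, -24)), ((0, 4), (0, 8), (0, -12)), ((0, -4), (0, -22), (0, 26)), ((0, -33), (0, 2), (0, 31)), ((0, 33), (0, 3), (0, 32)), ((0, -9), (0, -11), (0, 20)), ((0, 9), (0, 14), (0, -23)), ((0, -28), (0, 23), (0, 5)), ((0, 28), (0, 29), (0, 11)), ((0, -27), (0, 17), (0, 10)), ((0, 16), (0, 13), (0, -29)), ((0, -26), (0, 19), (0, 7)), ((0, -18), (0, -30), (0, -20)), ((0, -25), (0, -2), (0, 27)), ((0, -21), (0, -15), (0, -32)), ((0, -3), (0, -19), (0, 22)), ((0, 1), (0, -13), (0, 12)), ((0, -16), (0, -5), (0, 21)), ((0, 18), (0, -1), (0, -17)), ((0, -7), (0, 15), (0, -8)), ((0, 24), (0, -10), (0, -14))],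
  [(0, 34)], true,
  [⟨1, (0, 5), ⟨(0, 0), (1, 0), (0, 0), (0, 4), [⟨0, 3, (some ((2, 0), (3, 0))), 0, true⟩, ⟨1, 3, (some ((4, 0), (5, 0))), 0, true⟩, ⟨1, 4, (some ((6, 0), (7, 0))), 0, true⟩, ⟨2, 4, none, 0, true⟩, ⟨2, 5, (some ((8, 0), (9, 0))), 0, true⟩, ⟨0, 5, none, 0, true⟩]⟩, (some ⟨(0, 1), (1, 0), (0, -31), (0, 4), [⟨0, 3, (some ((4, 0), (5, 0))), 0, true⟩, ⟨0, 4, (some ((6, 0), (7, 0))), 0, true⟩, ⟨1, 4, none, 0, true⟩, ⟨2, 5, none, 0, true⟩]⟩)⟩]⟩,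
  75942087455432610452199367983655515017382226231524305815669368618199495944473014550620230109947895052668360193138793248169723465859179866187360224857754446350,
  17242861014851103843050907760117310583391177175114577252444401844350538640141211603155689313581987721114054676230037528984613160659485031691726564189987537152,
  20634668990220267919341209082362003312639886983065455177326772228581318269605581437043343350957168592176000784135144426686418847426430903372865350016138477568,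
  [0, 1, 6, 11, 7, 8, 2, 20, 3, 24, 19], [0, -31, 3, -19, 7, 15, 27, 18, -30, -13, -8], [0, 14, 48, 37, 60, 46, 30, 39, 3, 33, 25], [11, 12, 19, 14], [0, 1, 2, 1, 1, 1, 1, 1, 0, 2, 0],
  [(0, 0), (43, 44), (34, 35), (37, 38), (36, 38), (59, 57), (42, 44), (58, 57), (0, 0), (33, 35), (0, 0)], [(1, 35)]⟩

/-- certificate for `n = 68`, `2 ≤ m ≤ 10` -/
def s68_7_10 : Single :=
  ⟨⟨(0, 68), [((0, 15), (0, -11), (0, -4)), ((0, -19), (0, -6), (0, 25)), ((0, 19), (0, 13), (0, -32)), ((0, 3), (0, -25), (0, 22)), ((0, 20), (0, 21), (0, 27)), ((0, -20), (0, 29), (0, -9)), ((0, 26), (0, -5), (0, -21)), ((0, -26), (0, 9), (0, 17)), ((0, 4), (0, -22), (0, 18)), ((0, 11), (0, 6), (0, -17)), ((0, 10), (0, -18), (0, 8)), ((0, -10), (0, -14), (0, 24)), ((0, 32), (0, 31), (0, 5)), ((0, -13), (0, -3), (0, 16)), ((0, -16), (0, 14), (0, 2)), ((0, 7), (0, -8), (0, 1)), ((0, 28), (0, -1), (0, -27)), ((0, -28), (0, -33), (0, -7)), ((0,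 -31), (0, -2), (0, 33)), ((0, -15), (0, -24), (0, -29))],
  [(0, 30), (0, 12), (0, 23), (0, 34)], true,
  [⟨2, (0, 17), ⟨(0, 0), (0, 1), (0, 0), (0, -19), [⟨0, 3, (some ((1, 0), (2, 0))), 0, false⟩, ⟨1, 3, none, 3, true⟩, ⟨1, 4, (some ((2, 0), (1, 0))), 0, true⟩, ⟨2, 4, none, 0, true⟩, ⟨2, 5, none, 3, true⟩, ⟨0, 5, none, 0, false⟩]⟩, none⟩,
    ⟨1, (0, 22), ⟨(3, 0), (3, 0), (0, 0), (0, 23), [⟨0, 3, none, 2, true⟩, ⟨1, 3, (some ((4, 0), (5, 0))), 1, false⟩, ⟨2, 3, none, 2, false⟩, ⟨2, 4, none, 2, true⟩, ⟨2, 5, (some ((5, 0), (4, 0))), 1, true⟩, ⟨0, 5, (some ((6, 0), (7, 0))), 1, false⟩]⟩, (some ⟨(3, 0), (3, 0), (0, 0), (0, 23), [⟨0, 3, none, 2, true⟩, ⟨1, 3, (some ((4, 0), (5, 0))), 1, false⟩, ⟨2, 3, none, 2, false⟩, ⟨0, 5, (some ((6, 0), (7, 0))), 1, false⟩]⟩)⟩]⟩,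
  196776515907941188989256228694053958985734135659266532769947647492665508189435680631341107881574289363543971553593561812538253142362697135299385,
  24388848826203971679779380039961118960292321418720729692675406918183153324088093610266604424791945763346960111110070397241108410165988931272960,
  48968045769009719411088568496084849865808970193586180092575786849285129399885181810400119199629605176996831256802912886898326867672933985157120,
  [0, 1, 2, 30, 4, 3, 45, 14, 13, 8], [0, 15, -24, -10, 21, -28, 16, -12, -33, -8], [0, 57, 35, 30, 4, 10, 49, 14, 15, 42], [13, 16, 9, 11], [0, 2, 1, 1, 2, 2, 3, 3, 0, 2],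
  [(0, 0), (28, 27), (35, 33), (34, 33), (29, 27), (40, 41), (49, 50), (48, 50), (0, 0), (39, 41)], [(7, 29)]⟩

/-- certificate for `n = 69`, `2 ≤ m ≤ 10` -/
def s69_8_10 : Single :=
  ⟨⟨(0, 69), [((0, -19), (0, 32), (0, -13)), ((0, 13), (0, 29), (0, 27)), ((0, 1), (0, -20), (0, 19)), ((0, -1), (0, -10), (0, 11)), ((0, -15), (0, 22), (0, -7)), ((0, 15), (0, 16), (0, -31)), ((0, 34), (0, -22), (0, -12)), ((0, 10), (0, 6), (0, -16)), ((0, -11), (0, 3), (0, 8)), ((0, -18), (0, -8), (0, 26)), ((0, -6), (0, -25), (0, 31)), ((0, 18), (0, 14), (0, -32)), ((0, -23), (0, 2), (0, 21)), ((0, -26), (0, -29), (0, -14)), ((0, -33), (0, -2), (0, -34)), ((0, 30), (0, -27), (0, -3)), ((0, 4), (0, -24), (0, 20)), ((0, 24), (0, 33), (0, 12)), ((0, -30), (0, 7), (0, 23)), ((0, -21), (0, -4), (0, 25))],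
  [(0, 28), (0, 9), (0, 17), (0, 5)], false,
  [⟨3, (0, 23), ⟨(0, 0), (1, 0), (0, 0), (0, -28), [⟨0, 3, none, 0, false⟩, ⟨1, 3, none, 1, false⟩, ⟨2, 3, none, 0, true⟩, ⟨2, 4, (some ((2, 0), (3, 0))), 1, true⟩, ⟨2, 5, none, 0, false⟩, ⟨0, 5, (some ((4, 0), (5, 0))), 1, true⟩]⟩, none⟩,
    ⟨3, (0, 23), ⟨(4, 2), (6, 0), (0, 0), (0, -17), [⟨0, 3, none, 2, false⟩, ⟨1, 3, (some ((3, 1), (7, 0))), 3, true⟩, ⟨2, 3, none, 3, true⟩, ⟨2, 4, none, 2, true⟩, ⟨0, 4, none, 3, false⟩, ⟨0, 5, none, 2, true⟩]⟩, none⟩]⟩,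
  380317772334881124326359829057132216539166913562676392694940996075157227964469179061415673070634580208827908265778972959914238970998226445083400,
  12384870325086031822405134085662550248098194842904005348182577587709350344894436091769222563312081116865297466886692748857670537569366404694272,
  97746111880228671129499837826690962131944925217207047892807167377519061496219416145159561204301652907712759552065173903897827122781906257575936,
  [0, 1, 11, 17, 38, 14, 5, 2, 27, 18], [0, -19, -10, 6, -21, -23, -27, 13, -1, -31], [0, 8, 21, 30, 38, 56, 5, 2, 27, 53], [8, 10, 11, 12], [0, 1, 2, 1, 1, 1, 2, 2, 2, 0],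
  [(0, 0), (32, 31), (25, 24), (30, 31), (38, 36), (37, 36), (26, 24), (35, 33), (34, 33), (0, 0)], [(6, 38)]⟩

/-- certificate for `n = 71`, `2 ≤ m ≤ 10` -/
def s71_10_10 : Single :=
  ⟨⟨(0, 71), [((0, 27), (0, -8), (0, -19)), ((0, 11), (0, -34), (0, 23)), ((0, 28), (0, 9), (0, 34)), ((0, -28), (0, 24), (0, 4)), ((0, -24), (0, -27), (0, -20)), ((0, -31), (0, 2), (0, 29)), ((0, 22), (0, 8), (0, -30)), ((0, 7), (0, -32), (0, 25)), ((0, -18), (0, -12), (0, 30)), ((0, -17), (0, -15), (0, 32)), ((0, 21), (0, 33), (0, 17)), ((0, 14), (0, -26), (0, 12)), ((0, -14), (0, -21), (0, 35)), ((0, -25), (0, -6), (0, 31)), ((0, 18), (0, 15), (0, -33)), ((0, -35), (0, -7), (0, -29)), ((0, 26), (0, -23), (0, -3)), ((0, -4), (0, -2), (0, 6)), ((0, -22), (0, 3), (0, 19)), ((0, 20), (0, -9), (0, -11))],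
  [(0, 16), (0, 13), (0, 5), (0, 1), (0, 10)], false,
  [⟨7, (0, 35), ⟨(0, 0), (1, 0), (0, 0), (0, -16), [⟨0, 3, none, 0, false⟩, ⟨1, 3, (some ((2, 0), (3, 0))), 1, false⟩, ⟨1, 4, none, 2, true⟩, ⟨2, 4, none, 1, true⟩, ⟨2, 5, (some ((4, 0), (3, 1))), 0, false⟩, ⟨0, 5, none, 2, false⟩]⟩, (some ⟨(0, 0), (1, 0), (0, 0), (0, -16), [⟨0, 3, none, 0, false⟩, ⟨1, 3, (some ((2, 0), (3, 0))), 1, false⟩, ⟨1, 4, none, 2, true⟩]⟩)⟩,
    ⟨3, (0, 23), ⟨(5, 2), (5, 1), (0, 0), (0, -1), [⟨0, 3, none, 3, false⟩, ⟨1, 3, (some ((6, 2), (8, 2))), 4, false⟩, ⟨2, 3, none, 3, true⟩, ⟨2, 4, (some ((9, 2), (7, 1))), 4, true⟩, ⟨0, 4, (some ((8, 2), (6, 2))), 4, true⟩, ⟨0, 5, none, 3, true⟩]⟩, (some ⟨(5, 2), (5, 1), (0, 0), (0, -1), [⟨0, 3, none, 3, false⟩, ⟨1, 3, (some ((6, 2), (8, 2))), 4, false⟩, ⟨2, 3, none, 3, true⟩, ⟨0, 4, (some ((8, 2), (6, 2))), 4, true⟩]⟩)⟩]⟩,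
  36919036128290972450686070138632853143360646351644646764536879169699322846393234458513157319580125147350561209830134149313678572769039231750925,
  12194702424661078265804869741303214194881216776616565527885802281156928928937202960291214540865893285453037559403288332052495171718790737297664,
  61211497261175033200225095487492016414248474829403344107475154802179256072911790787109600763489756748980921575961491141463262700098868410843136,
  [0, 1, 3, 18, 2, 25, 28, 22, 15, 16], [0, 27, -20, -3, 19, 9, -29, -12, -19, 21], [0, 13, 57, 55, 2, 42, 28, 22, 39, 53], [19, 15, 18, 14], [0, 1, 1, 1, 1, 2, 2, 2, 2, 0],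
  [(0, 0), (59, 58), (57, 58), (55, 56), (54, 56), (42, 43), (44, 43), (46, 45), (47, 45), (0, 0)], [(3, 69)]⟩

/-- certificate for `n = 72`, `2 ≤ m ≤ 10` -/
def s72_11_10 : Single :=
  ⟨⟨(0, 72), [((0, -11), (0, -8), (0, 19)), ((0, -25), (0, -26), (0, -21)), ((0, 25), (0, 4), (0, -29)), ((0, 24), (0, 20), (0, 28)), ((0, 30), (0, 3), (0, -33)), ((0, -30), (0, 35), (0, -5)), ((0, -32), (0, 9), (0, 23)), ((0, 33), (0, -10), (0, -23)), ((0, 12), (0, 1), (0, -13)), ((0, 14), (0, -24), (0, 10)), ((0, -18), (0, 5), (0, 13)), ((0, -9), (0, -20), (0, 29)), ((0, 11), (0, 27), (0, 34)), ((0, 26), (0, 8), (0, -34)), ((0, 6), (0, 21), (0, -27)), ((0, -35), (0, -6), (0, -31)), ((0, -15), (0, -3), (0, 18)), ((0, -14), (0, 15), (0, -1)), ((0, -19), (0, -12), (0, 31)), ((0, 32), (0, -28), (0, -4))],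
  [(0, 17), (0, 2), (0, 22), (0, 16), (0, 7), (0, 36)], true,
  [⟨2, (0, 18), ⟨(0, 0), (0, 0), (0, 0), (0, 36), [⟨0, 3, none, 5, true⟩, ⟨1, 3, (some ((1, 0), (2, 0))), 0, false⟩, ⟨2, 3, none, 0, false⟩, ⟨2, 4, none, 5, true⟩, ⟨0, 4, none, 0, true⟩, ⟨0, 5, (some ((2, 0), (1, 0))), 0, true⟩]⟩, none⟩,
    ⟨3, (0, 24), ⟨(3, 0), (3, 2), (0, 0), (0, 22), [⟨0, 3, none, 2, true⟩, ⟨1, 3, none, 1, false⟩, ⟨2, 3, none, 2, false⟩, ⟨2, 4, (some ((4, 0), (5, 0))), 1, true⟩, ⟨0, 4, none, 1, true⟩, ⟨0, 5, none, 2, false⟩]⟩, none⟩,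
    ⟨3, (0, 24), ⟨(6, 0), (6, 1), (0, 0), (0, -16), [⟨0, 3, none, 3, false⟩, ⟨1, 3, none, 3, true⟩, ⟨2, 3, none, 4, true⟩, ⟨2, 4, (some ((4, 2), (7, 0))), 4, false⟩, ⟨0, 4, none, 3, true⟩, ⟨0, 5, none, 4, false⟩]⟩, none⟩]⟩,
  85887670554118717427232736477153623337214769222602469820739802642497927679265084015083949101540928113116878390243155915694053932599020348647460,
  36869356573519771457609452223808355998375056454633168675987162366710131809646811033432437255982522438673171019898865809371870325962696020001024,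
  109799026973198001394487535704115093202158994895850282911861421780622131881829086076568402932762490138913086836563617020042431085905969504321536,
  [0, 1, 5, 3, 17, 2, 9, 14, 13, 26], [0, -11, 27, 6, -31, -19, -34, -33, 36, -18], [0, 36, 44, 46, 56, 2, 18, 14, 15, 26], [16, 15, 12, 8], [0, 1, 1, 1, 1, 2, 0, 3, 3, 2],
  [(0, 0), (36, 37), (38, 37), (46, 47), (45, 47), (25, 24), (0, 0), (49, 48), (50, 48), (26, 24)], [(10, 43)]⟩

/-- certificate for `n = 74`, `3 ≤ m ≤ 11` -/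
def s74_7_11 : Single :=
  ⟨⟨(0, 74), [((0, -9), (0, -15), (0, 24)), ((0, 5), (0, 19), (0, -24)), ((0, 18), (0, 26), (0, 30)), ((0, -18), (0, -3), (0, 21)), ((0, -8), (0, -21), (0, 29)), ((0, 8), (0, -6), (0, -2)), ((0, -26), (0, -36), (0, -12)), ((0, 1), (0, 13), (0, -14)), ((0, -1), (0, -11), (0, 12)), ((0, 34), (0, 31), (0, 9)), ((0, 3), (0, 10), (0, -13)), ((0, 15), (0, -32), (0, 17)), ((0, -16), (0, -30), (0, -28)), ((0, -7), (0, -29), (0, 36)), ((0, 32), (0, 7), (0, 35)), ((0, -19), (0, -22), (0, -33)), ((0, 4), (0, 16), (0, -20)), ((0, -34), (0, 6), (0, 28)), ((0, -17), (0, 22), (0, -5)), ((0, -10), (0, -4), (0, 14)), ((0, -31), (0, 11), (0, 20)), ((0, 2), (0, 33), (0, -35))],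
  [(0, 23), (0, 27), (0, 25), (0, 37)], true,
  [⟨11, (0, 24), ⟨(0, 0), (1, 0), (0, 0), (0, 18), [⟨0, 3, (some ((2, 0), (3, 0))), 1, true⟩, ⟨1, 3, none, 1, true⟩, ⟨1, 4, none, 0, false⟩, ⟨2, 4, (some ((4, 0), (5, 0))), 0, true⟩, ⟨2, 5, none, 1, false⟩, ⟨0, 5, none, 0, true⟩]⟩, (some ⟨(0, 0), (1, 0), (0, 0), (0, 18), [⟨0, 3, (some ((2, 0), (3, 0))), 1, true⟩, ⟨1, 3, none, 1, true⟩, ⟨1, 4, none, 0, false⟩, ⟨2, 4, (some ((4, 0), (5, 0))), 0, true⟩]⟩)⟩,
    ⟨13, (0, 18), ⟨(6, 0), (6, 2), (0, 0), (0, -25), [⟨0, 3, none, 2, false⟩, ⟨1, 3, (some ((7, 0), (8, 0))), 2, false⟩, ⟨2, 3, none, 3, true⟩, ⟨2, 4, (some ((8, 0), (7, 0))), 2, true⟩, ⟨2, 5, none, 2, true⟩, ⟨0, 5, none, 3, true⟩]⟩, (some ⟨(6, 0), (6, 2), (0, 0), (0, -25), [⟨0, 3, none, 2, false⟩, ⟨2, 3, none, 3, true⟩, ⟨2, 5, none, 2, true⟩]⟩)⟩]⟩,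
  151656616107238595662548729776079333491522511365120939226536662497207449758533913163997645417304826701417391218989035858514346692379579677031842527922983608605,
  13729754285894182524575114009743923686070197708276742255637966347363236207056538458826704398391960529302573111460331924338892785746216291494957305371388412160,
  6905231197083840561235680586826374406814902141551215463373710175417240883269545795069932094041970895551677816285099024903922915182664560794101554839151443968,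
  [0, 1, 8, 7, 35, 4, 2, 11, 6, 21, 23], [0, -9, 34, -2, 33, -19, -24, 36, -25, -29, -25], [0, 29, 51, 63, 47, 4, 2, 14, 49, 62, 32], [15, 17, 10, 13], [0, 1, 1, 2, 1, 1, 0, 2, 3, 0, 3],
  [(0, 0), (53, 52), (51, 52), (39, 40), (47, 45), (46, 45), (0, 0), (41, 40), (31, 30), (0, 0), (32, 30)], [(6, 59)]⟩

/-- certificate for `n = 77`, `3 ≤ m ≤ 11` -/
def s77_10_11 : Single :=
  ⟨⟨(0, 77), [((0, 3), (0, 2), (0, -5)), ((0, 15), (0, 26), (0, 36)), ((0, -6), (0, 30), (0, -24)), ((0, 6), (0, 28), (0, -34)), ((0, -27), (0, -20), (0, -30)), ((0, 27), (0, -12), (0, -15)), ((0, 9), (0, -31), (0, 22)), ((0, 38), (0, 31), (0, 8)), ((0, -2), (0, 11), (0, -9)), ((0, -21), (0, 1), (0, 20)), ((0, 19), (0, -8), (0, -11)), ((0, 18), (0, 5), (0, -23)), ((0, -29), (0, 16), (0, 13)), ((0, -13), (0, -28), (0, -36)), ((0, 24), (0, -38), (0, 14)), ((0, -25), (0, -33), (0, -19)), ((0, -1), (0, 23), (0, -22)), ((0, 34), (0, -16), (0,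 -18)), ((0, 29), (0, -26), (0, -3)), ((0, -14), (0, -7), (0, 21)), ((0, 37), (0, 7), (0, 33)), ((0, 25), (0, 12), (0, -37))],
  [(0, 4), (0, 32), (0, 35), (0, 10), (0, 17)], false,
  [⟨17, (0, 38), ⟨(0, 0), (1, 0), (0, 0), (0, 35), [⟨0, 3, none, 2, true⟩, ⟨1, 3, none, 1, true⟩, ⟨1, 4, none, 0, false⟩, ⟨2, 4, (some ((2, 0), (3, 0))), 0, true⟩, ⟨2, 5, none, 1, false⟩, ⟨0, 5, (some ((4, 0), (5, 0))), 2, true⟩]⟩, (some ⟨(0, 1), (1, 0), (0, 3), (0, 35), [⟨0, 3, none, 1, true⟩, ⟨1, 4, (some ((2, 0), (3, 0))), 0, true⟩, ⟨2, 5, (some ((4, 0), (5, 0))), 2, true⟩]⟩)⟩,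
    ⟨30, (0, 25), ⟨(9, 1), (9, 2), (0, 0), (0, 11), [⟨0, 3, (some ((8, 1), (10, 2))), 4, true⟩, ⟨1, 3, none, 3, true⟩, ⟨2, 3, none, 3, false⟩, ⟨2, 4, (some ((10, 2), (8, 1))), 4, false⟩, ⟨2, 5, none, 3, true⟩, ⟨0, 5, (some ((7, 1), (6, 1))), 4, false⟩]⟩, (some ⟨(9, 1), (9, 2), (0, 0), (0, 11), [⟨0, 3, (some ((8, 1), (10, 2))), 4, true⟩, ⟨1, 3, none, 3, true⟩, ⟨2, 3, none, 3, false⟩, ⟨2, 4, (some ((10, 2), (8, 1))), 4, false⟩]⟩)⟩]⟩,
  206160821029588024218251686352986226988252614349068623356092796524330796140847058310297064357785346301184696718653631786917495164543846846690358690272602363960,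
  13743423557519057304146095498364772297624043465808869174652238138371677950938215109525803670641822673300049679427668310641403578224970881003486622480672817408,
  27512874865853164823838452060227004064210486613292737079779444722653248274945098750378553778110527298838558802543765784536883590347559021591579185036201558016,
  [0, 1, 5, 11, 7, 2, 19, 21, 46, 3, 8], [0, 3, 29, 16, -18, 5, 14, 22, -22, -12, 12], [0, 56, 36, 52, 33, 2, 32, 47, 63, 3, 14], [21, 19, 17, 16], [0, 2, 0, 1, 1, 2, 0, 2, 2, 2, 2],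
  [(0, 0), (64, 65), (0, 0), (52, 53), (51, 53), (50, 49), (0, 0), (58, 59), (63, 65), (57, 59), (48, 49)], [(19, 69)]⟩

/-- certificate for `n = 78`, `2 ≤ m ≤ 12` -/
def s78_5_12 : Single :=
  ⟨⟨(0, 78), [((0, 36), (0, -24), (0, -12)), ((0, 28), (0, -15), (0, -13)), ((0, -8), (0, -3), (0, 11)), ((0, 8), (0, 9), (0, -17)), ((0, 34), (0, -9), (0, -25)), ((0, -34), (0, 5), (0, 29)), ((0, -7), (0, 3), (0, 4)), ((0, 7), (0, 16), (0, -23)), ((0, 12), (0, -11), (0, -1)), ((0, 27), (0, 1), (0, -28)), ((0, -27), (0, -10), (0, 37)), ((0, 19), (0, 2), (0, -21)), ((0, -30), (0, 35), (0, -5)), ((0, 18), (0, -33), (0, 15)), ((0, -35), (0, -14), (0, -29)), ((0, -2), (0, 6), (0, -4)), ((0, -26), (0, -16), (0, -36)), ((0, -6), (0, -18), (0, 24)), ((0, -37), (0, -22), (0, -19)), ((0, 30), (0, 25), (0, 23)), ((0, 13), (0, 33), (0, 32)), ((0, 17), (0, 14), (0, -31)), ((0, 22), (0, 10), (0, -32)), ((0, 31), (0, 26), (0, 21))],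
  [(0, 20), (0, 38), (0, 39)], true,
  [⟨6, (0, 13), ⟨(0, 0), (1, 0), (0, 0), (0, -8), [⟨0, 3, (some ((2, 0), (3, 0))), 0, true⟩, ⟨1, 3, (some ((4, 0), (5, 0))), 0, false⟩, ⟨2, 3, none, 0, false⟩, ⟨2, 4, (some ((6, 0), (7, 0))), 0, true⟩, ⟨2, 5, (some ((3, 0), (2, 0))), 0, false⟩, ⟨0, 5, none, 0, true⟩]⟩, none⟩,
    ⟨2, (0, 19), ⟨(8, 0), (8, 0), (0, 0), (0, 39), [⟨0, 3, none, 2, true⟩, ⟨1, 3, (some ((9, 0), (10, 0))), 1, false⟩, ⟨2, 3, none, 1, true⟩, ⟨2, 4, none, 2, true⟩, ⟨0, 4, none, 1, false⟩, ⟨0, 5, (some ((10, 0), (9, 0))), 1, true⟩]⟩, (some ⟨(8, 0), (8, 0), (0, 0), (0, 39), [⟨0, 3, none, 2, true⟩, ⟨2, 3, none, 1, true⟩, ⟨0, 4, none, 1, false⟩]⟩)⟩]⟩,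
  33996815332799241164670890665188485103306102608655822249879049764529742150345037595348341222692056628946008313777881228715222360991313152802503685451765662810042208611743026,
  7592497616638605131162194132610818877958116567441965255963443582129133533971172323614230299317064783390524803287571678774106556596036164494996940672419067511535930114304,
  5804398550896603046352298958898473572680176758928184776983854105425635315541430973488884813731953402352074872607068045129947598142453134714011507062662142237849298426396672,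
  [0, 1, 23, 7, 34, 32, 3, 2, 12, 17, 11, 5], [0, 36, -26, 21, 19, -37, -27, 1, 4, 9, 38, -14], [0, 50, 70, 35, 56, 32, 27, 26, 36, 42, 64, 61], [23, 15, 22, 13, 14], [0, 2, 1, 1, 2, 3, 3, 3, 0, 2, 2, 3],
  [(0, 0), (47, 45), (70, 71), (69, 71), (46, 45), (67, 66), (68, 66), (39, 40), (0, 0), (42, 43), (44, 43), (41, 40)], [(1, 71)]⟩

/-- certificate for `n = 78`, `3 ≤ m ≤ 11` -/
def s78_11_11 : Single :=
  ⟨⟨(0, 78), [((0, -23), (0, -2), (0, 25)), ((0, -14), (0, 2), (0, 12)), ((0, 14), (0, 4), (0, -18)), ((0, 10), (0, -34), (0, 24)), ((0, -10), (0, 31), (0, -21)), ((0, 38), (0, -13), (0, -25)), ((0, -38), (0, 32), (0, 6)), ((0, 3), (0, -22), (0, 19)), ((0, -30), (0, 35), (0, -5)), ((0, 30), (0, -3), (0, -27)), ((0, 22), (0, -37), (0, 15)), ((0, -36), (0, 23), (0, 13)), ((0, -29), (0, 9), (0, 20)), ((0, -19), (0, -28), (0, -31)), ((0, 37), (0, -33), (0, -4)), ((0, 28), (0, 29), (0, 21)), ((0, -9), (0, -24),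 (0, 33)), ((0, 36), (0, -1), (0, -35)), ((0, -32), (0, -26), (0, -20)), ((0, 1), (0, -6), (0, 5)), ((0, 18), (0, 34), (0, 26)), ((0, 27), (0, -15), (0, -12))],
  [(0, 16), (0, 17), (0, 7), (0, 11), (0, 8), (0, 39)], true,
  [⟨4, (0, 19), ⟨(0, 0), (0, 1), (0, 0), (0, 16), [⟨0, 3, none, 0, true⟩, ⟨1, 3, none, 5, true⟩, ⟨1, 4, none, 0, false⟩, ⟨2, 4, (some ((1, 0), (2, 0))), 0, true⟩, ⟨2, 5, none, 5, true⟩, ⟨0, 5, (some ((2, 0), (1, 0))), 0, false⟩]⟩, (some ⟨(0, 0), (0, 1), (0, 0), (0, 16), [⟨0, 3, none, 0, true⟩, ⟨1, 4, none, 0, false⟩, ⟨2, 5, none, 5, true⟩]⟩)⟩,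
    ⟨3, (0, 26), ⟨(3, 0), (4, 0), (0, 0), (0, -7), [⟨0, 3, none, 2, false⟩, ⟨1, 3, none, 1, false⟩, ⟨2, 3, none, 1, true⟩, ⟨2, 4, (some ((5, 0), (6, 0))), 2, true⟩, ⟨2, 5, none, 2, true⟩, ⟨0, 5, none, 1, false⟩]⟩, none⟩,
    ⟨3, (0, 26), ⟨(7, 0), (7, 1), (0, 0), (0, -8), [⟨0, 3, none, 4, false⟩, ⟨1, 3, none, 3, false⟩, ⟨2, 3, none, 3, true⟩, ⟨2, 4, none, 4, true⟩, ⟨2, 5, none, 3, false⟩, ⟨0, 5, (some ((8, 0), (9, 0))), 4, false⟩]⟩, none⟩]⟩,
  17592574117623934139640620527307317168786714265671572293671260620380497118467305610980171397175823908836858420769645102294706647920356483935267314590800741410,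
  13796688378057909869939692608743932787790119845036680331518549230395222933600951707672013443237208023632907463081207722720944967531053090150166560547010707712,
  3526516382964245301872165497656346253545834234769114273491318935695371207362885097418254617780744397379246756897124820417711196329560128234404428505889636352,
  [0, 1, 16, 2, 3, 9, 20, 26, 10, 8, 14], [0, -23, 13, -25, -11, 4, 7, 12, 27, -7, 35], [0, 34, 16, 2, 65, 29, 24, 53, 62, 8, 41], [14, 20, 15, 11], [0, 1, 1, 0, 2, 2, 2, 0, 1, 1, 2],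
  [(0, 0), (34, 35), (33, 35), (0, 0), (42, 44), (46, 47), (43, 44), (0, 0), (62, 60), (61, 60), (45, 47)], [(22, 41)]⟩

/-- the certificates of this file -/
def singles03 : List Single := [s63_2_10, s63_8_9, s64_9_9, s65_10_9, s66_5_10, s68_1_11, s68_7_10, s69_8_10, s71_10_10, s72_11_10, s74_7_11, s77_10_11, s78_5_12, s78_11_11]

theorem singles03_ok : singles03.all Single.check = true := by decide +kernel

theorem sgl03 : ∀ x ∈ ([(63, 10, 4), (63, 9, 3), (64, 9, 3), (65, 9, 3), (66, 10, 4), (68, 11, 4), (68, 10, 4), (69, 10, 4), (71, 10, 4), (72, 10, 4), (74, 11, 4), (77, 11, 4), (78, 12, 5), (78, 11, 4)] :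
    List (ℕ × ℕ × ℕ)), Covers x.1 x.2.1 x.2.2 := by
  have e : singles03.map (fun T => (T.n, T.F, T.xs.length)) = [(63, 10, 4), (63, 9, 3), (64, 9, 3), (65, 9, 3), (66, 10, 4), (68, 11, 4), (68, 10, 4), (69, 10, 4), (71, 10, 4), (72, 10, 4), (74, 11, 4), (77, 11, 4), (78, 12, 5), (78, 11, 4)] := by
    decide +kernel
  rw [← e]
  exact covers_of_all singles03 singles03_ok

end Empire
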