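import Pool.Agent.Lib.MP_800721_co.Sgl.Basic

/-!
# PROJECT EMPIRE: certificates for single `n`, part 4

Found by computer search (helper98, helper7); converted by helper56.
-/

namespace Empire

/-- certificate for `n = 83`, `2 ≤ m ≤ 12` -/
def s83_10_12 : Single :=
  ⟨⟨(0, 83), [((0, -2), (0, 29), (0, -27)), ((0, 22), (0, -33), (0, 11)), ((0, 12), (0, 31), (0, 40)), ((0, -12), (0, -30), (0, -41)), ((0, 1), (0, -40), (0, 39)), ((0, -1), (0, -7), (0, 8)), ((0, -28), (0, -9), (0, 37)), ((0, 28), (0, 41), (0, 14)), ((0, 17), (0, -38), (0, 21)), ((0, -23), (0, -15), (0, 38)), ((0, -24), (0, 6), (0, 18)), ((0, 19), (0, -34), (0, 15)), ((0, 34), (0, -13), (0, -21)), ((0, 25), (0, -14), (0, -11)), ((0, -20), (0, 7), (0, 13)), ((0, -6), (0, 23), (0, -17)), ((0, -31), (0, -36), (0, -16)), ((0, -37), (0, 35), (0, 2)), ((0, 24), (0, 26), (0, 33)), ((0, -18), (0, -39), (0, -26)), ((0, -22), (0, 30), (0, -8)), ((0, 16), (0, 9), (0, -25)),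 ((0, 27), (0, 20), (0, 36)), ((0, -19), (0, -29), (0, -35))],
  [(0, 10), (0, 5), (0, 32), (0, 4), (0, 3)], false,
  [⟨1, (0, 41), ⟨(0, 0), (1, 0), (0, 0), (0, 10), [⟨0, 3, none, 0, true⟩, ⟨1, 3, (some ((2, 0), (3, 0))), 0, true⟩, ⟨1, 4, (some ((4, 0), (5, 0))), 2, true⟩, ⟨2, 4, (some ((6, 0), (7, 0))), 1, false⟩, ⟨2, 5, none, 1, true⟩, ⟨0, 5, none, 2, true⟩]⟩, (some ⟨(0, 1), (1, 0), (0, -2), (0, 10), [⟨0, 3, (some ((2, 0), (3, 0))), 0, true⟩, ⟨1, 4, (some ((6, 0), (7, 0))), 1, false⟩, ⟨2, 5, none, 2, true⟩]⟩)⟩,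
    ⟨9, (0, 27), ⟨(10, 0), (10, 1), (0, 0), (0, -21), [⟨0, 3, (some ((12, 2), (8, 2))), 3, true⟩, ⟨1, 3, none, 4, true⟩, ⟨2, 3, none, 4, false⟩, ⟨2, 4, (some ((8, 2), (12, 2))), 3, false⟩, ⟨2, 5, none, 4, true⟩, ⟨0, 5, (some ((9, 1), (11, 2))), 3, false⟩]⟩, (some ⟨(10, 0), (10, 1), (0, 0), (0, -21), [⟨0, 3, (some ((12, 2), (8, 2))), 3, true⟩, ⟨1, 3, none, 4, true⟩, ⟨2, 3, none, 4, false⟩, ⟨2, 4, (some ((8, 2), (12, 2))), 3, false⟩]⟩)⟩]⟩,
  50243251080161347089366152344700433162696105689663136997699575097061593691212180183159416005137026413475358566893170311819472381223261366787051671962543552850845804188026421,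
  992581718556332586654667083197668728924360671258729792630722221521313687992364145773278725236472763604833051153272864266130509864073852679915373186616505991140000907329792,
  1936146093452085730198424290192168522795518793471861958792350987834324407723870403235078530977559736468741426683265376092190187765031229267764414359301530207650874331758592,
  [0, 1, 20, 19, 3, 6, 5, 2, 26, 12, 30, 25], [0, -2, -37, -28, 41, -12, 31, 27, 12, 33, 5, -33], [0, 53, 20, 21, 11, 6, 48, 2, 36, 44, 55, 27], [19, 15, 20, 17, 21], [0, 1, 1, 2, 5, 5, 2, 4, 0, 3, 3, 4],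
  [(0, 0), (53, 51), (52, 51), (65, 64), (61, 60), (62, 60), (63, 64), (46, 45), (0, 0), (58, 59), (57, 59), (47, 45)], [(3, 30)]⟩

/-- certificate for `n = 84`, `2 ≤ m ≤ 12` -/
def s84_11_12 : Single :=
  ⟨⟨(0, 84), [((0, -28), (0, 20), (0, 8)), ((0, 34), (0, -14), (0, -20)), ((0, 4), (0, 15), (0, -19)), ((0, -4), (0, -27), (0, 31)), ((0, 19), (0, -22), (0, 3)), ((0, 37), (0, -29), (0, -8)), ((0, -37), (0, -17), (0, -30)), ((0, 11), (0, 7), (0, -18)), ((0, -35), (0, 33), (0, 2)), ((0, 35), (0, -26), (0, -9)), ((0, -36), (0, 10), (0, 26)), ((0, 1), (0, 9), (0, -10)), ((0, 28), (0, -33), (0, 5)), ((0, 23), (0, -11), (0, -12)), ((0, -7), (0, -23), (0, 30)), ((0, -39), (0, -2), (0, 41)), ((0, -3), (0, 16), (0, -13)), ((0, 14), (0, -31), (0, 17)), ((0, -41), (0, 29), (0, 12)), ((0, 36), (0, -15), (0, -21)), ((0, 18), (0, 27), (0, 39)), ((0, 13), (0, 21), (0, -34)), ((0, 6), (0, -5), (0, -1)), ((0, -16), (0, 22), (0, -6))],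
  [(0, 38), (0, 32), (0, 25), (0, 40), (0, 24), (0, 42)], true,
  [⟨3, (0, 28), ⟨(0, 0), (1, 0), (0, 0), (0, 4), [⟨0, 3, (some ((2, 0), (3, 0))), 0, true⟩, ⟨1, 3, none, 1, true⟩, ⟨1, 4, none, 1, false⟩, ⟨2, 4, none, 1, true⟩, ⟨2, 5, none, 0, false⟩, ⟨0, 5, none, 0, true⟩]⟩, none⟩,
    ⟨3, (0, 28), ⟨(2, 2), (4, 0), (0, 0), (0, 25), [⟨0, 3, none, 2, true⟩, ⟨1, 3, none, 3, false⟩, ⟨2, 3, none, 3, true⟩, ⟨2, 4, (some ((5, 0), (6, 0))), 2, false⟩, ⟨2, 5, none, 2, false⟩, ⟨0, 5, none, 3, false⟩]⟩, none⟩,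
    ⟨2, (0, 21), ⟨(7, 0), (7, 2), (0, 0), (0, -24), [⟨0, 3, none, 4, false⟩, ⟨1, 3, (some ((8, 0), (9, 0))), 4, false⟩, ⟨1, 4, none, 5, true⟩, ⟨2, 4, (some ((9, 0), (8, 0))), 4, true⟩, ⟨2, 5, none, 4, true⟩, ⟨0, 5, none, 5, true⟩]⟩, none⟩]⟩,
  63814654910254340119900476126775104685192534340979848705228556956729645350358961251883469201083573941526090639450021224061301305193274274308814714206871783832608924100527396,
  996429389841251008049806949797690312095750711243513920537425888444460271055617689121336954946481105958305310329961100931050396439419461399770102369437624512164700858155264,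
  2902236246063231156927613754662072372954646830576651258819451787719730861430559990572518879980617942873347038298613334177179914902674977976752284225185457600824368701636608,
  [0, 1, 25, 21, 16, 2, 4, 31, 14, 11, 29, 22], [0, -28, -33, 41, 29, -8, 6, -15, -31, 29, 30, -32], [0, 36, 25, 54, 16, 2, 65, 50, 14, 61, 32, 40], [19, 14, 15, 17, 11], [0, 1, 3, 1, 4, 3, 2, 2, 0, 3, 3, 4],
  [(0, 0), (46, 47), (34, 33), (45, 47), (44, 42), (51, 52), (59, 58), (57, 58), (0, 0), (53, 52), (35, 33), (43, 42)], [(8, 53)]⟩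

/-- certificate for `n = 90`, `3 ≤ m ≤ 13` -/
def s90_11_13 : Single :=
  ⟨⟨(0, 90), [((0, -37), (0, -43), (0, -10)), ((0, 13), (0, -4), (0, -9)), ((0, -13), (0, 12), (0, 1)), ((0, 20), (0, -5), (0, -15)), ((0, 28), (0, -8), (0, -20)), ((0, -22), (0, 36), (0, -14)), ((0, 22), (0, 44), (0, 24)), ((0, -7), (0, -19), (0, 26)), ((0, 7), (0, 4), (0, -11)), ((0, -29), (0, 2), (0, 27)), ((0, 16), (0, 31), (0, 43)), ((0, -16), (0, -25), (0, 41)), ((0, -44), (0, 11), (0, 33)), ((0, -6), (0, 32), (0, -26)), ((0, -38), (0, -24), (0, -28)), ((0, -2), (0, -36), (0, 38)), ((0, 23), (0, 9), (0, -32)), ((0, 34), (0, 5), (0, -39)), ((0, 8), (0, -33), (0, 25)), ((0, 10), (0, -31), (0, 21)), ((0, 15), (0, -34), (0, 19)), ((0, 14), (0, 39), (0, 37)), ((0, 29), (0, -12), (0, -17)), ((0, -23), (0, 6), (0, 17)), ((0, -27), (0, -21), (0, -42)), ((0, -1), (0, 42), (0, -41))],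
  [(0, 40), (0, 3), (0, 35), (0, 30), (0, 18), (0, 45)], true,
  [⟨3, (0, 30), ⟨(0, 0), (0, 0), (0, 0), (0, -40), [⟨0, 3, none, 0, false⟩, ⟨1, 3, none, 1, false⟩, ⟨2, 3, none, 0, true⟩, ⟨2, 4, none, 0, false⟩, ⟨2, 5, none, 1, true⟩, ⟨0, 5, (some ((1, 0), (2, 0))), 1, true⟩]⟩, none⟩,
    ⟨3, (0, 30), ⟨(3, 0), (4, 0), (0, 0), (0, -35), [⟨0, 3, none, 2, false⟩, ⟨1, 3, none, 2, true⟩, ⟨1, 4, none, 2, false⟩, ⟨2, 4, none, 3, false⟩, ⟨2, 5, (some ((5, 0), (6, 0))), 3, true⟩, ⟨0, 5, (some ((7, 0), (8, 0))), 3, true⟩]⟩, none⟩,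
    ⟨4, (0, 22), ⟨(9, 0), (9, 1), (0, 0), (0, 16), [⟨0, 3, (some ((10, 0), (11, 0))), 4, true⟩, ⟨1, 3, none, 5, true⟩, ⟨1, 4, (some ((11, 0), (10, 0))), 4, false⟩, ⟨2, 4, none, 4, false⟩, ⟨2, 5, none, 5, true⟩, ⟨0, 5, none, 4, true⟩]⟩, (some ⟨(9, 1), (9, 1), (0, -29), (0, 16), [⟨0, 3, none, 5, true⟩, ⟨1, 4, none, 4, false⟩, ⟨2, 5, none, 4, true⟩]⟩)⟩]⟩,
  9596635685968250309138557314849354602859206717832045150780438587437374400990351904146991899014629742023953014664873691436297772623247636281126278200016549837032970561604665642445100884033,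
  2456002972245962804949587467927100407954785968882747261949747382283112312808062197082005062921298580044354393232915538282862786202732999325043708030713090913878170967124660939946604495104,
  548142756372556005757499630985154087255923723620883509007145872961901929396781237887856279300781289735729575017463461926001577474946887970699328254867749771493623068843633071661015629824,
  [0, 1, 17, 16, 13, 4, 5, 11, 8, 31, 2, 40, 3], [0, -37, 14, -22, 44, 11, 7, 15, 27, -21, 10, 8, 31], [0, 65, 17, 18, 36, 26, 21, 11, 72, 59, 2, 70, 68], [20, 23, 25, 18, 19], [0, 3, 1, 0, 3, 2, 0, 1, 2, 1, 1, 2, 2],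
  [(0, 0), (54, 56), (62, 60), (0, 0), (55, 56), (75, 77), (0, 0), (61, 60), (76, 77), (59, 57), (58, 57), (70, 71), (69, 71)], [(8, 53)]⟩

/-- certificate for `n = 96`, `2 ≤ m ≤ 14` -/
def s96_11_14 : Single :=
  ⟨⟨(0, 96), [((0, 25), (0, 43), (0, 28)), ((0, -5), (0, -1), (0, 6)), ((0, 5), (0, 14), (0, -19)), ((0, -22), (0, 26), (0, -4)), ((0, 22), (0, -10), (0, -12)), ((0, 40), (0, 23), (0, 33)), ((0, -40), (0, 11), (0, 29)), ((0, -34), (0, -2), (0, 36)), ((0, 34), (0, -6), (0, -28)), ((0, 19), (0, 13), (0, -32)), ((0, 35), (0, -47), (0, 12)), ((0, -35), (0, -15), (0, -46)), ((0, -13), (0, 24), (0, -11)), ((0, 38), (0, -17), (0, -21)), ((0, -25), (0, 15), (0, 10)), ((0, -29), (0, -41), (0, -26)), ((0, 45), (0, 42), (0, 9)), ((0, 7), (0, 17), (0, -24)), ((0, -31), (0, -38), (0, -27)), ((0, -43), (0, 4), (0, 39)), ((0, -14), (0, 21), (0, -7)), ((0, 32), (0, -33), (0, 1)), ((0, -37), (0, 46), (0, -9)), ((0, 27), (0, 18), (0,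 -45)), ((0, 31), (0, -23), (0, -8)), ((0, 47), (0, 41), (0, 8)), ((0, -39), (0, 37), (0, 2)), ((0, -36), (0, -42), (0, -18))],
  [(0, 20), (0, 44), (0, 30), (0, 16), (0, 3), (0, 48)], true,
  [⟨2, (0, 24), ⟨(0, 0), (0, 2), (0, 0), (0, 20), [⟨0, 3, none, 0, true⟩, ⟨1, 3, (some ((1, 0), (2, 0))), 0, true⟩, ⟨1, 4, none, 5, true⟩, ⟨2, 4, (some ((2, 0), (1, 0))), 0, false⟩, ⟨2, 5, none, 0, false⟩, ⟨0, 5, none, 5, true⟩]⟩, none⟩,
    ⟨3, (0, 32), ⟨(3, 0), (4, 0), (0, 0), (0, 44), [⟨0, 3, none, 1, true⟩, ⟨1, 3, none, 2, false⟩, ⟨2, 3, (some ((5, 0), (6, 0))), 1, true⟩, ⟨2, 4, none, 1, false⟩, ⟨2, 5, (some ((7, 0), (8, 0))), 2, true⟩, ⟨0, 5, none, 2, false⟩]⟩, none⟩,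
    ⟨3, (0, 32), ⟨(9, 0), (9, 0), (0, 0), (0, 16), [⟨0, 3, none, 3, true⟩, ⟨1, 3, none, 4, false⟩, ⟨2, 3, none, 3, false⟩, ⟨2, 4, none, 3, true⟩, ⟨2, 5, none, 4, true⟩, ⟨0, 5, (some ((10, 0), (11, 0))), 4, false⟩]⟩, none⟩]⟩,
  5372831787543408174994295838888050791122898375896588600706552062174918923067720523695073062685493481586444829117044917155857971700002351106598879786840973044767654348328845250139852746584930204828449066,
  383928301291155767126002374633011554545259381480688100008565693361059356046929174157111674965240410213356475285116429335139729559511325181418372523110859872285387860089501101399013111752034657793409280,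
  154289628515215925772627695508941601701144087704247123867426996334839249024751599489513526743734759974452595275005754561868756922908975183385622608033615187643530111320322800319753812127680375914758144,
  [0, 1, 14, 11, 23, 49, 3, 20, 10, 15, 4, 2, 8, 41], [0, 25, 15, -46, -9, 45, 27, -31, -23, 33, 1, -28, 41, 48], [0, 42, 34, 67, 50, 71, 56, 72, 16, 64, 4, 2, 60, 41], [15, 22, 20, 21, 14, 23], [0, 1, 1, 1, 1, 1, 1, 2, 2, 1, 1, 0, 2, 2],
  [(0, 0), (42, 43), (44, 43), (67, 68), (66, 68), (71, 69), (70, 69), (46, 47), (45, 47), (64, 65), (63, 65), (0, 0), (60, 61), (62, 61)], [(10, 49)]⟩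

/-- certificate for `n = 102`, `3 ≤ m ≤ 15` -/
def s102_11_15 : Single :=
  ⟨⟨(0, 102), [((0, -46), (0, -22), (0, -34)), ((0, -44), (0, 34), (0, 10)), ((0, -41), (0, 48), (0, -7)), ((0, 41), (0, 12), (0, 49)), ((0, 19), (0, 6), (0, -25)), ((0, -2), (0, -23), (0, 25)), ((0, -28), (0, 27), (0, 1)), ((0, 28), (0, -48), (0, 20)), ((0, 24), (0, -38), (0, 14)), ((0, -24), (0, 16), (0, 8)), ((0, -36), (0, -14), (0, 50)), ((0, -15), (0, 2), (0, 13)), ((0, 15), (0, -50), (0, 35)), ((0, -6), (0, -40), (0, 46)), ((0, -21), (0, 40), (0, -19)), ((0, -9), (0, -20), (0, 29)), ((0, 33), (0, -32), (0, -1)), ((0, 22), (0, -12), (0, -10)), ((0, -16), (0, 45), (0, -29)), ((0, -31), (0, -13), (0, 44)), ((0, 18), (0, -49), (0, 31)), ((0, 4), (0, 7), (0, -11)), ((0, -3), (0, -35), (0, 38)), ((0, -42), (0, -33), (0, -27)), ((0, -45), (0, 36), (0, 9)), ((0, -43), (0, 11), (0, 32)), ((0, 26), (0, -8), (0, -18)), ((0, -4), (0, 43), (0, -39)), ((0,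 42), (0, 21), (0, 39)), ((0, 23), (0, 3), (0, -26))],
  [(0, 17), (0, 5), (0, 47), (0, 30), (0, 37), (0, 51)], true,
  [⟨3, (0, 34), ⟨(0, 0), (1, 0), (0, 0), (0, -41), [⟨0, 3, (some ((2, 0), (3, 0))), 1, true⟩, ⟨1, 3, none, 1, true⟩, ⟨1, 4, none, 1, false⟩, ⟨2, 4, none, 0, true⟩, ⟨2, 5, none, 0, false⟩, ⟨0, 5, none, 0, true⟩]⟩, none⟩,
    ⟨3, (0, 34), ⟨(4, 0), (5, 0), (0, 0), (0, -28), [⟨0, 3, (some ((6, 0), (7, 0))), 2, false⟩, ⟨1, 3, none, 2, false⟩, ⟨1, 4, none, 3, true⟩, ⟨2, 4, (some ((8, 0), (9, 0))), 3, true⟩, ⟨2, 5, none, 2, true⟩, ⟨0, 5, none, 3, false⟩]⟩, none⟩,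
    ⟨2, (0, 25), ⟨(10, 0), (10, 0), (0, 0), (0, 51), [⟨0, 3, none, 5, true⟩, ⟨1, 3, (some ((11, 0), (12, 0))), 4, false⟩, ⟨1, 4, none, 4, true⟩, ⟨2, 4, none, 5, true⟩, ⟨2, 5, none, 4, false⟩, ⟨0, 5, (some ((12, 0), (11, 0))), 4, true⟩]⟩, (some ⟨(10, 0), (10, 0), (0, 0), (0, 51), [⟨0, 3, none, 5, true⟩, ⟨1, 4, none, 4, true⟩, ⟨2, 5, none, 4, false⟩]⟩)⟩]⟩,
  1686110369363541183354214834029911004706545915584572507815092233288894404839466762856705000332135333391391436771153168750904817706212066806208460716209362565677484879431773169737014199086306213052701041031041824076585,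
  280429355316719554144173884406493469461133540119018315695873675350980481987736797961890367358717618746827461244075606324961308804491147099430566572110240120750357885466240451215712571329782691558035049502574836515072,
  64976493961229967664474653524614366163347677478504166913073229851244547454984914900774157465713022858833070197566887271781393146311396876524695212870849912817454338417650724504838830233427426558482520331162375684096,
  [0, 1, 13, 3, 16, 2, 7, 26, 24, 45, 8, 20, 49, 25, 63], [0, -46, -6, -25, -2, 34, 3, 6, 20, -37, -18, -19, 14, 1, -29], [0, 41, 13, 17, 34, 2, 61, 32, 73, 45, 18, 71, 84, 89, 63], [13, 20, 24, 22, 16, 21], [0, 1, 1, 2, 0, 0, 2, 1, 2, 2, 3, 4, 4, 1, 3],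
  [(0, 0), (41, 39), (40, 39), (60, 62), (0, 0), (0, 0), (61, 62), (68, 67), (73, 74), (72, 74), (65, 64), (48, 50), (49, 50), (66, 67), (63, 64)], [(24, 19)]⟩

/-- the certificates of this file -/
def singles04 : List Single := [s83_10_12, s84_11_12, s90_11_13, s96_11_14, s102_11_15]

theorem singles04_ok : singles04.all Single.check = true := by decide +kernel

theorem sgl04 : ∀ x ∈ ([(83, 12, 5), (84, 12, 5), (90, 13, 5), (96, 14, 6), (102, 15, 6)] :
    List (ℕ × ℕ × ℕ)), Covers x.1 x.2.1 x.2.2 := by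
  have e : singles04.map (fun T => (T.n, T.F, T.xs.length)) = [(83, 12, 5), (84, 12, 5), (90, 13, 5), (96, 14, 6), (102, 15, 6)] := by
    decide +kernel
  rw [← e]
  exact covers_of_all singles04 singles04_ok

end Empire
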