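import Pool.Agent.Lib.MP_800721_co.Sgl.Basic

/-!
# PROJECT EMPIRE: certificates for single `n`, part 5

Found by computer search (helper98, helper7); converted by helper56.
-/

namespace Empire

/-- certificate for `n = 59`, `2 ≤ m ≤ 8` -/
def s59_10_8 : Single :=
  ⟨⟨(0, 59), [((0, -19), (0, 8), (0, 11)), ((0, -16), (0, 17), (0, -1)), ((0, -7), (0, -8), (0, 15)), ((0, 7), (0, -2), (0, -5)), ((0, 5), (0, -21), (0, 16)), ((0, 27), (0, -9), (0, -18)), ((0, 22), (0, 4), (0, -26)), ((0, -24), (0, -29), (0, -6)), ((0, 24), (0, 9), (0, 26)), ((0, -10), (0, -22), (0, -27)), ((0, -25), (0, 6), (0, 19)), ((0, -4), (0, -17), (0, 21)), ((0, 14), (0, 25), (0, 20)), ((0, 1), (0, 10), (0, -11)), ((0, 2), (0, -20), (0, 18)), ((0, -15), (0, 29), (0, -14))],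
  [(0, 12), (0, 23), (0, 13), (0, 28), (0, 3)], false,
  [⟨8, (0, 29), ⟨(0, 0), (1, 0), (0, 0), (0, -7), [⟨0, 3, (some ((2, 0), (3, 0))), 2, true⟩, ⟨1, 3, none, 0, true⟩, ⟨1, 4, none, 2, true⟩, ⟨2, 4, (some ((4, 0), (3, 2))), 1, true⟩, ⟨2, 5, none, 0, false⟩, ⟨0, 5, none, 1, false⟩]⟩, (some ⟨(0, 1), (1, 2), (0, -19), (0, -6), [⟨0, 3, none, 2, true⟩, ⟨1, 3, (some ((4, 0), (3, 2))), 1, true⟩, ⟨1, 4, none, 0, false⟩]⟩)⟩,
    ⟨9, (0, 19), ⟨(7, 2), (7, 0), (0, 0), (0, -3), [⟨0, 3, none, 4, false⟩, ⟨1, 3, none, 4, true⟩, ⟨2, 3, (some ((5, 0), (9, 2))), 3, false⟩, ⟨2, 4, (some ((6, 2), (8, 2))), 3, true⟩, ⟨0, 4, none, 4, true⟩, ⟨0, 5, (some ((9, 2), (5, 0))), 3, true⟩]⟩, (some ⟨(7, 2), (7, 0), (0, 0), (0, -3), [⟨0, 3, none, 4, false⟩, ⟨1, 3, none, 4, true⟩, ⟨2, 3, (some ((5, 0), (9, 2))), 3, false⟩, ⟨0, 5, (some ((9, 2), (5, 0))), 3, true⟩]⟩)⟩]⟩,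
  5554153058855889741005001743594447904562398803901890609887420939663877150024624667964760184888190975631491439593248,
  308436446046058018099257835784067508365622527272764176192347801336684919517995516292863841553427788017715508543744,
  1079204672982440761623578477957373642014490677558193494005627580359279453568992888092658846588092090905693591175168,
  [0, 1, 11, 6, 16, 5, 2, 4], [0, -19, -25, 20, 27, -10, -11, 13], [0, 32, 37, 43, 29, 40, 2, 35], [13, 11, 15], [0, 3, 2, 3, 0, 1, 1, 2],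
  [(0, 0), (46, 47), (33, 34), (45, 47), (0, 0), (40, 41), (39, 41), (35, 34)], [(3, 28)]⟩

/-- the certificates of this file -/
def singles05 : List Single := [s59_10_8]

theorem singles05_ok : singles05.all Single.check = true := by decide +kernel

theorem sgl05 : ∀ x ∈ ([(59, 8, 3)] :
    List (ℕ × ℕ × ℕ)), Covers x.1 x.2.1 x.2.2 := by
  have e : singles05.map (fun T => (T.n, T.F, T.xs.length)) = [(59, 8, 3)] := by
    decide +kernel
  rw [← e]
  exact covers_of_all singles05 singles05_ok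

end Empire
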