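import Mathlib
import Pool.Agent.Lib.MP_800721_co.Cover

/-!
# PROJECT EMPIRE: lists of certificates for single `n`
-/

namespace Empire

theorem covers_of_all (L : List Single) (h : L.all Single.check = true) :
    ∀ x ∈ L.map fun T => (T.n, T.F, T.xs.length), Covers x.1 x.2.1 x.2.2 := by
  intro x hx
  obtain ⟨T, hT, rfl⟩ := List.mem_map.1 hx
  exact T.covers (List.all_eq_true.1 h T hT) rfl rfl rfl

end Empire
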