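import Pool.Agent.Lib.MP_800721_co.Sgl.Basic

/-!
# PROJECT EMPIRE: certificates for single `n`, part 1

Found by computer search (helper98, helper7); converted by helper56.
-/

namespace Empire

/-- certificate for `n = 26`, `2 ≤ m ≤ 4` -/
def s26_1_4 : Single :=
  ⟨⟨(0, 26), [((0, -12), (0, 9), (0, 3)), ((0, 5), (0, -2), (0, -3)), ((0, -4), (0, -8), (0, 12)), ((0, 10), (0, -9), (0, -1)), ((0, -11), (0, -5), (0, -10)), ((0, 8), (0, 7), (0, 11)), ((0, 6), (0, -7), (0, 1)), ((0, 4), (0, 2), (0, -6))],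
  [(0, 13)], true,
  [⟨2, (0, 2), ⟨(2, 2), (2, 1), (0, 0), (0, -9), [⟨0, 3, (some ((3, 1), (0, 1))), 0, true⟩, ⟨1, 3, (some ((1, 0), (4, 1))), 0, true⟩, ⟨2, 3, (some ((0, 1), (3, 1))), 0, true⟩, ⟨2, 4, none, 0, true⟩, ⟨0, 4, (some ((4, 1), (1, 0))), 0, true⟩, ⟨0, 5, (some ((0, 1), (3, 1))), 0, true⟩]⟩, (some ⟨(2, 0), (2, 1), (0, 12), (0, -9), [⟨0, 3, (some ((1, 0), (4, 1))), 0, true⟩]⟩)⟩]⟩,
  441744100689483235623503169859808796616835620514182793736,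
  49040232925069694362562368859572488847137982973795827968,
  98274277038214418674113295616549540582464527778187313152,
  [0, 1, 4, 2], [0, -12, 2, -3], [0, 8, 4, 2], [7], [0, 1, 1, 0],
  [(0, 0), (21, 22), (23, 22), (0, 0)], [(9, 1)]⟩

/-- certificate for `n = 27`, `2 ≤ m ≤ 4` -/
def s27_2_4 : Single :=
  ⟨⟨(0, 27), [((0, -2), (0, -10), (0, 12)), ((0, -8), (0, -3), (0, 11)), ((0, 1), (0, -11), (0, 10)), ((0, 4), (0, 9), (0, -13)), ((0, -5), (0, 3), (0, 2)), ((0, -1), (0, 5), (0, -4)), ((0, 13), (0, 6), (0, 8)), ((0, -6), (0, -9), (0, -12))],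
  [(0, 7)], false,
  [⟨3, (0, 4), ⟨(3, 1), (3, 1), (0, 0), (0, -2), [⟨0, 3, (some ((0, 0), (4, 2))), 0, true⟩, ⟨1, 3, (some ((2, 1), (1, 2))), 0, false⟩, ⟨2, 3, (some ((4, 2), (0, 0))), 0, false⟩, ⟨2, 4, (some ((0, 0), (4, 2))), 0, true⟩, ⟨2, 5, (some ((1, 2), (2, 1))), 0, true⟩, ⟨0, 5, none, 0, true⟩]⟩, (some ⟨(3, 0), (3, 1), (0, -4), (0, -2), [⟨0, 3, (some ((4, 2), (0, 0))), 0, false⟩, ⟨0, 4, (some ((0, 0), (4, 2))), 0, true⟩, ⟨1, 5, none, 0, true⟩]⟩)⟩]⟩,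
  50004780269353415994865675229389879691556708124372437006,
  287718537004722348806783726280092307873122301654401280,
  24617210598847327549182654282763860528644621741376995328,
  [0, 1, 3, 11], [0, -2, -4, 9], [0, 14, 9, 22], [5], [0, 1, 1, 0],
  [(0, 0), (16, 17), (15, 17), (0, 0)], [(1, 8)]⟩

/-- certificate for `n = 28`, `2 ≤ m ≤ 4` -/
def s28_3_4 : Single :=
  ⟨⟨(0, 28), [((0, 11), (0, -4), (0, -7)), ((0, 3), (0, -9), (0, 6)), ((0, 5), (0, 10), (0, 13)), ((0, -11), (0, 2), (0, 9)), ((0, 4), (0, -3), (0, -1)), ((0, -2), (0, -5), (0, 7)), ((0, 12), (0, -13), (0, 1)), ((0, -12), (0, -6), (0, -10))],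
  [(0, 8), (0, 14)], true,
  [⟨2, (0, 7), ⟨(2, 2), (2, 1), (0, 0), (0, 4), [⟨0, 3, (some ((4, 0), (0, 1))), 0, false⟩, ⟨1, 3, (some ((1, 1), (3, 2))), 0, false⟩, ⟨1, 4, none, 1, true⟩, ⟨2, 4, (some ((3, 2), (1, 1))), 0, true⟩, ⟨2, 5, (some ((0, 1), (4, 0))), 0, true⟩, ⟨0, 5, none, 1, true⟩]⟩, none⟩]⟩,
  172125160540208303933081899066810293009066476569172708361,
  49327203144690974528484776536825189122907117993437823232,
  98176995104572569461144630301707345836260822164436942848,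
  [0, 1, 2, 3], [0, 11, 2, -12], [0, 9, 15, 18], [6], [0, 0, 1, 1],
  [(0, 0), (0, 0), (20, 19), (18, 19)], [(1, 17)]⟩

/-- certificate for `n = 28`, `3 ≤ m ≤ 3` -/
def s28_9_3 : Single :=
  ⟨⟨(0, 28), [((0, -12), (0, 4), (0, 8)), ((0, -13), (0, -9), (0, -6)), ((0, -3), (0, -2), (0, 5)), ((0, 12), (0, 3), (0, 13)), ((0, -5), (0, 9), (0, -4)), ((0, 6), (0, 2), (0, -8))],
  [(0, 11), (0, 10), (0, 1), (0, 7), (0, 14)], true,
  [⟨4, (0, 7), ⟨(3, 0), (3, 0), (0, 4), (0, 18), [⟨0, 3, none, 4, true⟩, ⟨1, 3, (some ((5, 1), (2, 1))), 0, true⟩, ⟨1, 4, none, 0, false⟩, ⟨2, 4, none, 4, true⟩, ⟨2, 5, none, 0, true⟩, ⟨0, 5, (some ((2, 1), (5, 1))), 0, false⟩]⟩, none⟩,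
    ⟨2, (0, 14), ⟨(1, 0), (1, 2), (0, 0), (0, 7), [⟨0, 3, none, 3, true⟩, ⟨1, 3, (some ((5, 2), (0, 2))), 1, false⟩, ⟨1, 4, none, 2, true⟩, ⟨2, 4, none, 1, true⟩, ⟨2, 5, (some ((4, 0), (2, 2))), 3, false⟩, ⟨0, 5, none, 2, true⟩]⟩, none⟩]⟩,
  176613199846007245075211263624091595247113,
  681899194778877237213968337672293384448,
  88137146698992342551656541458178955804672,
  [0, 1, 5], [0, -12, -2], [0, 9, 16], [], [0, 0, 0],
  [(0, 0), (0, 0), (0, 0)], [(3, 15)]⟩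

/-- certificate for `n = 29`, `2 ≤ m ≤ 4` -/
def s29_4_4 : Single :=
  ⟨⟨(0, 29), [((0, 14), (0, 3), (0, 12)), ((0, 6), (0, -5), (0, -1)), ((0, 4), (0, -13), (0, 9)), ((0, -6), (0, -7), (0, 13)), ((0, -11), (0, -14), (0, -4)), ((0, 1), (0, -3), (0, 2)), ((0, 7), (0, 5), (0, -12)), ((0, -2), (0, 11), (0, -9))],
  [(0, 10), (0, 8)], false,
  [⟨1, (0, 9), ⟨(2, 1), (2, 2), (0, 0), (0, 6), [⟨0, 3, (some ((1, 0), (3, 0))), 1, false⟩, ⟨1, 3, none, 0, false⟩, ⟨2, 3, none, 0, true⟩, ⟨2, 4, (some ((3, 0), (1, 0))), 1, true⟩, ⟨2, 5, none, 0, false⟩, ⟨0, 5, (some ((4, 1), (0, 0))), 1, false⟩]⟩, (some ⟨(2, 1), (2, 2), (0, 0), (0, 6), [⟨0, 3, (some ((1, 0), (3, 0))), 1, false⟩, ⟨2, 3, none, 0, true⟩, ⟨2, 4, (some ((3, 0), (1, 0))), 1, true⟩, ⟨2, 5, none, 0, false⟩]⟩)⟩]⟩,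
  197315164287672929505187932309113463316142087532627365901,
  49136760729463994339743529382297148268544328288828588288,
  24714111086248433599559021928155301194896743609017565184,
  [0, 1, 6, 2], [0, 14, -4, -13], [0, 13, 6, 11], [7], [0, 0, 1, 1],
  [(0, 0), (0, 0), (23, 22), (21, 22)], [(1, 1)]⟩

/-- certificate for `n = 31`, `3 ≤ m ≤ 5` -/
def s31_0_5 : Single :=
  ⟨⟨(0, 31), [((0, 15), (0, 6), (0, 10)), ((0, -2), (0, 11), (0, -9)), ((0, 13), (0, -6), (0, -7)), ((0, -14), (0, 2), (0, 12)), ((0, -10), (0, -13), (0, -8)), ((0, 5), (0, 7), (0, -12)), ((0, -1), (0, 4), (0, -3)), ((0, 3), (0, 8), (0, -11)), ((0, -5), (0, 9), (0, -4)), ((0, 14), (0, -15), (0, 1))],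
  [], false,
  []⟩,
  124232389877130758639722281282007075125952907624867235421103989864531740,
  27170576071301887693322560770302213440173830288595600753846391144704,
  82848128379911666898838923217786658689745415728666653883071375125512192,
  [0, 1, 4, 3, 2], [0, 15, 1, -5, 13], [0, 28, 18, 15, 13], [9], [0, 1, 1, 0, 0],
  [(0, 0), (28, 29), (27, 29), (0, 0), (0, 0)], [(1, 4)]⟩

/-- certificate for `n = 31`, `2 ≤ m ≤ 4` -/
def s31_6_4 : Single :=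
  ⟨⟨(0, 31), [((0, 5), (0, -9), (0, 4)), ((0, -10), (0, 2), (0, 8)), ((0, -13), (0, -11), (0, -7)), ((0, -12), (0, 13), (0, -1)), ((0, -2), (0, -4), (0, 6)), ((0, 9), (0, 12), (0, 10)), ((0, 1), (0, 7), (0, -8)), ((0, -5), (0, -6), (0, 11))],
  [(0, 15), (0, 3), (0, 14)], false,
  [⟨1, (0, 15), ⟨(2, 1), (3, 2), (0, 0), (0, -2), [⟨0, 3, (some ((4, 0), (1, 1))), 2, true⟩, ⟨1, 3, (some ((5, 0), (0, 1))), 2, true⟩, ⟨2, 3, none, 0, false⟩, ⟨2, 4, none, 1, true⟩, ⟨2, 5, none, 0, true⟩, ⟨0, 5, none, 1, false⟩]⟩, (some ⟨(2, 1), (3, 2), (0, 0), (0, -2), [⟨0, 3, (some ((4, 0), (1, 1))), 2, true⟩, ⟨2, 5, none, 0, true⟩, ⟨0, 5, none, 1, false⟩]⟩)⟩]⟩,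
  172980441528662890306330161739606066730676827550649224981,
  49040234392257847495842727499351195166901987323821555968,
  123366269574448878997866908658971660843663090632905195520,
  [0, 1, 2, 6], [0, 5, -6, 1], [0, 21, 14, 11], [6], [0, 0, 1, 1],
  [(0, 0), (0, 0), (20, 18), (19, 18)], [(1, 16)]⟩

/-- certificate for `n = 32`, `3 ≤ m ≤ 5` -/
def s32_1_5 : Single :=
  ⟨⟨(0, 32), [((0, 2), (0, -10), (0, 8)), ((0, 6), (0, -5), (0, -1)), ((0, 4), (0, 13), (0, 15)), ((0, 7), (0, -3), (0, -4)), ((0, 12), (0, 1), (0, -13)), ((0, 9), (0, -12), (0, 3)), ((0, 5), (0, 10), (0, -15)), ((0, -7), (0, -11), (0, -14)), ((0, 14), (0, -8), (0, -6)), ((0, 11), (0, -9), (0, -2))],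
  [(0, 16)], true,
  [⟨1, (0, 2), ⟨(0, 0), (0, 1), (0, 0), (0, -3), [⟨0, 3, (some ((3, 1), (5, 2))), 0, true⟩, ⟨1, 3, (some ((1, 1), (6, 0))), 0, true⟩, ⟨2, 3, (some ((6, 0), (1, 1))), 0, true⟩, ⟨2, 4, (some ((5, 2), (3, 1))), 0, true⟩, ⟨2, 5, (some ((1, 1), (6, 0))), 0, true⟩, ⟨0, 5, (some ((4, 2), (2, 1))), 0, true⟩]⟩, (some ⟨(0, 0), (0, 1), (0, 0), (0, -3), [⟨0, 3, (some ((3, 1), (5, 2))), 0, true⟩, ⟨1, 3, (some ((1, 1), (6, 0))), 0, true⟩, ⟨2, 4, (some ((5, 2), (3, 1))), 0, true⟩, ⟨0, 5, (some ((4, 2), (2, 1))), 0, true⟩]⟩)⟩]⟩,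
  406717307911226342116680544880470221415818587099492520705660439565085,
  6928707116216270285724419345757135862788609211152048016022555152482560,
  7144703039436716760169911726735896891873993965271622657809119077990400,
  [0, 1, 2, 5, 7], [0, 2, -8, -13, 6], [0, 29, 2, 8, 11], [8], [0, 1, 1, 0, 0],
  [(0, 0), (24, 25), (26, 25), (0, 0), (0, 0)], [(9, 23)]⟩

/-- certificate for `n = 33`, `3 ≤ m ≤ 5` -/
def s33_2_5 : Single :=
  ⟨⟨(0, 33), [((0, -12), (0, 4), (0, 8)), ((0, 13), (0, 1), (0, -14)), ((0, -6), (0, -8), (0, 14)), ((0, 3), (0, -5), (0, 2)), ((0, 12), (0, 16), (0, 5)), ((0, -11), (0, -13), (0, -9)), ((0, 10), (0, -16), (0, 6)), ((0, -2), (0, -7), (0, 9)), ((0, -10), (0, -1), (0, 11)), ((0, 7), (0, -3), (0, -4))],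
  [(0, 15)], false,
  [⟨3, (0, 5), ⟨(1, 0), (6, 0), (0, 0), (0, -5), [⟨0, 3, (some ((3, 1), (4, 2))), 0, true⟩, ⟨1, 3, none, 0, true⟩, ⟨1, 4, (some ((7, 2), (5, 2))), 0, true⟩, ⟨2, 4, (some ((0, 2), (2, 1))), 0, false⟩, ⟨2, 5, (some ((5, 2), (7, 2))), 0, false⟩, ⟨0, 5, (some ((4, 2), (3, 1))), 0, false⟩]⟩, (some ⟨(1, 2), (6, 2), (0, 14), (0, -11), [⟨0, 3, (some ((0, 2), (2, 1))), 0, false⟩, ⟨0, 4, (some ((5, 2), (7, 2))), 0, false⟩, ⟨1, 4, (some ((4, 2), (3, 1))), 0, false⟩]⟩)⟩]⟩,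
  7146708914394877195487465739327843542760683060943486242006011900009740,
  20732305948055245687577106076427603554628981555923254416858187840028928,
  6983785446410048938153358832299879162056091897350869312158329756188672,
  [0, 1, 5, 2, 4], [0, -12, 6, -8, 10], [0, 12, 6, 2, 26], [8], [0, 0, 1, 0, 1],
  [(0, 0), (0, 0), (25, 24), (0, 0), (26, 24)], [(3, 13)]⟩

/-- certificate for `n = 33`, `2 ≤ m ≤ 4` -/
def s33_8_4 : Single :=
  ⟨⟨(0, 33), [((0, 14), (0, 16), (0, 3)), ((0, -2), (0, 7), (0, -5)), ((0, -4), (0, -7), (0, 11)), ((0, -10), (0, -12), (0, -11)), ((0, 1), (0, -6), (0, 5)), ((0, 10), (0, 6), (0, -16)), ((0, -14), (0, 12), (0, 2)), ((0, -1), (0, 4), (0, -3))],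
  [(0, 13), (0, 8), (0, 15), (0, 9)], false,
  [⟨3, (0, 11), ⟨(2, 1), (2, 2), (0, 3), (0, 16), [⟨0, 3, none, 0, true⟩, ⟨1, 3, none, 0, false⟩, ⟨2, 3, none, 3, true⟩, ⟨2, 4, (some ((0, 1), (5, 2))), 3, false⟩, ⟨0, 4, none, 0, false⟩, ⟨0, 5, none, 3, false⟩]⟩, none⟩,
    ⟨6, (0, 11), ⟨(3, 1), (5, 0), (0, 6), (0, 21), [⟨0, 3, none, 2, true⟩, ⟨1, 3, (some ((4, 1), (5, 1))), 2, false⟩, ⟨2, 3, (some ((4, 2), (1, 2))), 1, false⟩, ⟨2, 4, (some ((3, 1), (6, 1))), 1, false⟩, ⟨2, 5, none, 2, true⟩, ⟨0, 5, none, 1, false⟩]⟩, none⟩]⟩,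
  49619037310157943572009397940830881744095418927640154386,
  192685837389905995312066135179886873789464743050936576,
  24712624744591378936910057688171352270821513152474120192,
  [0, 1, 5, 2], [0, 14, -4, -3], [0, 18, 22, 2], [7], [0, 0, 1, 1],
  [(0, 0), (0, 0), (22, 23), (21, 23)], [(3, 16)]⟩

/-- certificate for `n = 34`, `3 ≤ m ≤ 5` -/
def s34_3_5 : Single :=
  ⟨⟨(0, 34), [((0, -5), (0, 16), (0, -11)), ((0, -1), (0, -12), (0, 13)), ((0, -16), (0, 1), (0, 15)), ((0, 14), (0, 11), (0, 9)), ((0, -6), (0, -15), (0, -13)), ((0, 7), (0, 3), (0, -10)), ((0, 8), (0, 6), (0, -14)), ((0, 12), (0, -9), (0, -3)), ((0, 5), (0, -7), (0, 2)), ((0, -8), (0, -2), (0, 10))],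
  [(0, 4), (0, 17)], true,
  [⟨2, (0, 8), ⟨(1, 1), (1, 0), (0, 0), (0, -16), [⟨0, 3, (some ((2, 0), (0, 1))), 0, true⟩, ⟨1, 3, none, 0, false⟩, ⟨2, 3, none, 1, true⟩, ⟨2, 4, none, 0, true⟩, ⟨2, 5, (some ((0, 1), (2, 0))), 0, false⟩, ⟨0, 5, none, 1, true⟩]⟩, (some ⟨(1, 2), (1, 0), (0, -12), (0, -16), [⟨0, 3, none, 0, false⟩, ⟨1, 4, none, 0, true⟩, ⟨2, 5, none, 1, true⟩]⟩)⟩]⟩,
  118032553672671900336698850110136597305929565083041808867550513951540760,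
  13830769399881913304129630268290200670155768085717748566525308353839360,
  6956088323298808968272663190895000485653304104437331288868244873543680,
  [0, 1, 15, 2, 3], [0, -5, -7, 3, 13], [0, 24, 15, 23, 14], [9], [0, 0, 1, 1, 0],
  [(0, 0), (0, 0), (29, 28), (27, 28), (0, 0)], [(8, 15)]⟩

/-- certificate for `n = 34`, `2 ≤ m ≤ 4` -/
def s34_9_4 : Single :=
  ⟨⟨(0, 34), [((0, 10), (0, -4), (0, -6)), ((0, -10), (0, -2), (0, 12)), ((0, -14), (0, 15), (0, -1)), ((0, 6), (0, -7), (0, 1)), ((0, 4), (0, 14), (0, 16)), ((0, -3), (0, -15), (0, -16)), ((0, -5), (0, 2), (0, 3)), ((0, 7), (0, -12), (0, 5))],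
  [(0, 9), (0, 11), (0, 13), (0, 8), (0, 17)], true,
  [⟨2, (0, 8), ⟨(4, 0), (4, 0), (0, 0), (0, 17), [⟨0, 3, none, 4, true⟩, ⟨1, 3, none, 2, true⟩, ⟨1, 4, (some ((5, 0), (6, 2))), 2, true⟩, ⟨2, 4, none, 4, true⟩, ⟨2, 5, (some ((6, 2), (5, 0))), 2, false⟩, ⟨0, 5, none, 2, false⟩]⟩, (some ⟨(4, 0), (4, 0), (0, 0), (0, 17), [⟨0, 3, none, 4, true⟩, ⟨1, 4, (some ((5, 0), (6, 2))), 2, true⟩, ⟨2, 5, (some ((6, 2), (5, 0))), 2, false⟩]⟩)⟩,
    ⟨2, (0, 17), ⟨(2, 0), (2, 2), (0, 0), (0, -8), [⟨0, 3, none, 3, false⟩, ⟨1, 3, (some ((3, 0), (0, 2))), 1, true⟩, ⟨2, 3, none, 0, false⟩, ⟨2, 4, (some ((0, 0), (1, 0))), 3, false⟩, ⟨0, 4, none, 1, true⟩, ⟨0, 5, none, 0, false⟩]⟩, none⟩]⟩,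
  441841384015962810753969428011408426062165923350249540611,
  49136760723755002548088165906593638062336655833427935488,
  49232173390937959026992850189693481253414423304234860544,
  [0, 1, 5, 6], [0, 10, -2, 3], [0, 3, 19, 15], [7], [0, 0, 1, 1],
  [(0, 0), (0, 0), (23, 22), (21, 22)], [(6, 21)]⟩

/-- certificate for `n = 35`, `3 ≤ m ≤ 5` -/
def s35_4_5 : Single :=
  ⟨⟨(0, 35), [((0, -15), (0, 4), (0, 11)), ((0, 10), (0, 16), (0, 9)), ((0, 2), (0, -10), (0, 8)), ((0, -8), (0, 3), (0, 5)), ((0, -17), (0, -2), (0, -16)), ((0, -3), (0, -11), (0, 14)), ((0, -6), (0, 15), (0, -9)), ((0, 1), (0, -14), (0, 13)), ((0, 6), (0, -5), (0, -1)), ((0, -13), (0, -4), (0, 17))],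
  [(0, 12), (0, 7)], false,
  [⟨1, (0, 11), ⟨(0, 0), (0, 2), (0, 0), (0, 12), [⟨0, 3, none, 0, true⟩, ⟨1, 3, (some ((3, 0), (2, 2))), 1, true⟩, ⟨2, 3, none, 0, false⟩, ⟨2, 4, (some ((4, 2), (1, 1))), 1, true⟩, ⟨0, 4, (some ((2, 2), (3, 0))), 1, false⟩, ⟨0, 5, none, 0, false⟩]⟩, (some ⟨(0, 0), (0, 2), (0, 0), (0, 12), [⟨0, 3, none, 0, true⟩, ⟨2, 4, (some ((4, 2), (1, 1))), 1, true⟩, ⟨0, 4, (some ((2, 2), (3, 0))), 1, false⟩, ⟨0, 5, none, 0, false⟩]⟩)⟩]⟩,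
  82850346947551188834808593252736801214445814944692586176652393371933715,
  7009692683099504452389700191065955923873091721964173057397270344106240,
  62143099557517672559414524430705928259594323216433112238412879418621952,
  [0, 1, 5, 11, 2], [0, -15, -9, 3, -11], [0, 19, 5, 15, 2], [5], [0, 0, 0, 1, 1],
  [(0, 0), (0, 0), (0, 0), (15, 16), (17, 16)], [(6, 22)]⟩

/-- certificate for `n = 36`, `3 ≤ m ≤ 5` -/
def s36_5_5 : Single :=
  ⟨⟨(0, 36), [((0, -4), (0, -10), (0, 14)), ((0, -6), (0, -3), (0, 9)), ((0, 15), (0, 17), (0, 4)), ((0, 6), (0, -14), (0, 8)), ((0, -13), (0, 2), (0, 11)), ((0, -12), (0, 13), (0, -1)), ((0, -15), (0, 3), (0, 12)), ((0, -16), (0, -11), (0, -9)), ((0, 16), (0, -17), (0, 1)), ((0, -8), (0, 10), (0, -2))],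
  [(0, 7), (0, 5), (0, 18)], true,
  [⟨6, (0, 6), ⟨(0, 1), (0, 2), (0, 6), (0, 21), [⟨0, 3, (some ((2, 0), (6, 0))), 0, true⟩, ⟨1, 3, (some ((7, 1), (4, 2))), 0, true⟩, ⟨2, 3, (some ((4, 2), (7, 1))), 0, false⟩, ⟨2, 4, (some ((6, 0), (2, 0))), 0, false⟩, ⟨0, 4, (some ((7, 1), (4, 2))), 0, true⟩, ⟨0, 5, none, 0, false⟩]⟩, none⟩,
    ⟨4, (0, 9), ⟨(5, 0), (5, 0), (0, 0), (0, 18), [⟨0, 3, none, 2, true⟩, ⟨1, 3, (some ((1, 0), (3, 0))), 1, false⟩, ⟨1, 4, none, 1, false⟩, ⟨2, 4, none, 2, true⟩, ⟨2, 5, none, 1, true⟩, ⟨0, 5, (some ((3, 0), (1, 0))), 1, true⟩]⟩, none⟩]⟩,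
  89750827894927712016460180791565217793391588613543464484134792215534600,
  108050822646910596405571415628835569521455858124361205870353539399680,
  34535903552199856898730672313460004082883096428881945040651491949413888,
  [0, 7, 4, 12, 2], [0, 15, 3, -16, -10], [0, 18, 4, 24, 28], [9], [0, 0, 1, 0, 1],
  [(0, 0), (0, 0), (27, 29), (0, 0), (28, 29)], [(11, 7)]⟩

/-- certificate for `n = 37`, `2 ≤ m ≤ 6` -/
def s37_0_6 : Single :=
  ⟨⟨(0, 37), [((0, 16), (0, 15), (0, 6)), ((0, 17), (0, -12), (0, -5)), ((0, 14), (0, 3), (0, -17)), ((0, 4), (0, 12), (0, -16)), ((0, -14), (0, 18), (0, -4)), ((0, -15), (0, -9), (0, -13)), ((0, 11), (0, -10), (0, -1)), ((0, -11), (0, -2), (0, 13)), ((0, -8), (0, 7), (0, 1)), ((0, -3), (0, -6), (0, 9)), ((0, 2), (0, -7), (0, 5)), ((0, -18), (0, 8), (0, 10))],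
  [], false,
  []⟩,
  37093220107315244755361512286797469533694586366608624932539049774106860101210050662155,
  9736169746948171727050068669150443808390835502518128310272506704285602613096848949504,
  1965642159432504026359986876201108990735696098877588880938804501582346182176863682560,
  [0, 1, 2, 3, 18, 20], [0, 16, 4, -14, -7, -6], [0, 11, 14, 6, 18, 35], [11, 3], [0, 1, 1, 2, 0, 2],
  [(0, 0), (11, 9), (10, 9), (34, 33), (0, 0), (35, 33)], [(1, 11)]⟩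

/-- certificate for `n = 37`, `3 ≤ m ≤ 5` -/
def s37_6_5 : Single :=
  ⟨⟨(0, 37), [((0, 4), (0, 18), (0, 15)), ((0, 5), (0, -1), (0, -4)), ((0, 9), (0, 16), (0, 12)), ((0, -13), (0, -10), (0, -14)), ((0, -18), (0, -16), (0, -3)), ((0, -5), (0, 14), (0, -9)), ((0, 3), (0, 8), (0, -11)), ((0, -2), (0, -8), (0, 10)), ((0, 13), (0, -15), (0, 2)), ((0, -12), (0, 11), (0, 1))],
  [(0, 6), (0, 7), (0, 17)], false,
  [⟨1, (0, 18), ⟨(6, 0), (3, 1), (0, 0), (0, -6), [⟨0, 3, none, 0, false⟩, ⟨1, 3, (some ((5, 2), (2, 0))), 1, false⟩, ⟨2, 3, none, 2, false⟩, ⟨2, 4, (some ((1, 2), (0, 0))), 2, true⟩, ⟨0, 4, none, 1, true⟩, ⟨0, 5, (some ((4, 1), (2, 1))), 0, false⟩]⟩, (some ⟨(6, 2), (3, 0), (0, 11), (0, 7), [⟨0, 3, (some ((1, 2), (0, 0))), 2, true⟩, ⟨1, 3, none, 1, true⟩, ⟨1, 4, (some ((4, 1), (2, 1))), 0, false⟩]⟩)⟩]⟩,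
  28147035461008159372487925261530542050464284309470440739406459656801285,
  6928917329442372935910865169798878762130331480801801225874732417614080,
  14046450208954474745746081401257564835882115044300672172056962551644160,
  [0, 1, 4, 7, 10], [0, 4, 5, 14, -13], [0, 5, 15, 11, 24], [8], [0, 1, 0, 0, 1],
  [(0, 0), (26, 25), (0, 0), (0, 0), (24, 25)], [(1, 35)]⟩

/-- certificate for `n = 38`, `2 ≤ m ≤ 6` -/
def s38_1_6 : Single :=
  ⟨⟨(0, 38), [((0, 12), (0, -1), (0, -11)), ((0, 6), (0, -2), (0, -4)), ((0, 7), (0, 2), (0, -9)), ((0, 17), (0, -7), (0, -10)), ((0, -15), (0, -17), (0, -6)), ((0, 4), (0, -5), (0, 1)), ((0, 5), (0, 15), (0, 18)), ((0, 16), (0, -3), (0, -13)), ((0, 8), (0, -18), (0, 10)), ((0, -12), (0, 3), (0, 9)), ((0, 14), (0, 13), (0, 11)), ((0, -16), (0, -14), (0, -8))],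
  [(0, 19)], true,
  [⟨1, (0, 3), ⟨(0, 1), (0, 1), (0, 0), (0, -6), [⟨0, 3, (some ((4, 2), (1, 0))), 0, true⟩, ⟨1, 3, (some ((5, 1), (6, 0))), 0, true⟩, ⟨2, 3, (some ((1, 0), (4, 2))), 0, true⟩, ⟨2, 4, (some ((4, 2), (1, 0))), 0, true⟩, ⟨2, 5, (some ((6, 0), (5, 1))), 0, true⟩, ⟨0, 5, (some ((3, 1), (2, 0))), 0, true⟩]⟩, (some ⟨(0, 1), (0, 1), (0, 0), (0, -6), [⟨0, 3, (some ((4, 2), (1, 0))), 0, true⟩]⟩)⟩]⟩,
  46852332664544442738776198669099265638772647473198052514847477382063349565573946151195,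
  7793500506897395789727078331539329407859843899913271900163498959149100458502034555136,
  7785941714201207354839817146041863659262128551950905368119599580668683817773332168704,
  [0, 1, 6, 21, 2, 5], [0, 12, 3, -13, 11, 16], [0, 27, 22, 31, 2, 5], [11, 9], [0, 1, 1, 2, 2, 0],
  [(0, 0), (27, 28), (29, 28), (34, 33), (35, 33), (0, 0)], [(9, 3)]⟩

/-- certificate for `n = 39`, `2 ≤ m ≤ 6` -/
def s39_2_6 : Single :=
  ⟨⟨(0, 39), [((0, -5), (0, 18), (0, -13)), ((0, -4), (0, -9), (0, 13)), ((0, -19), (0, -18), (0, -2)), ((0, -1), (0, -11), (0, 12)), ((0, 5), (0, 2), (0, -7)), ((0, -8), (0, 1), (0, 7)), ((0, -16), (0, 10), (0, 6)), ((0, 11), (0, -15), (0, 4)), ((0, 17), (0, 19), (0, 3)), ((0, 9), (0, -6), (0, -3)), ((0, 8), (0, 16), (0, 15)), ((0, -17), (0, -10), (0, -12))],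
  [(0, 14)], false,
  [⟨3, (0, 6), ⟨(3, 2), (3, 2), (0, 0), (0, -14), [⟨0, 3, none, 0, false⟩, ⟨1, 3, (some ((1, 2), (0, 2))), 0, false⟩, ⟨2, 3, none, 0, true⟩, ⟨2, 4, none, 0, false⟩, ⟨2, 5, (some ((0, 2), (1, 2))), 0, true⟩, ⟨0, 5, (some ((2, 2), (4, 1))), 0, true⟩]⟩, (some ⟨(3, 2), (3, 2), (0, 0), (0, -14), [⟨0, 3, none, 0, false⟩, ⟨2, 3, none, 0, true⟩, ⟨2, 4, none, 0, false⟩]⟩)⟩]⟩,
  21514254253518449366764976104048242001389642049549891117435528248349862679265658865420,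
  1965494292485713685612126496793486728711296103911599765541289480187019859340482969856,
  7778353281889317370251447002429301135065841416273697034762191606628378460596216004608,
  [0, 1, 2, 20, 4, 10], [0, -5, -19, 3, 9, -13], [0, 12, 25, 29, 4, 30], [11, 7], [0, 0, 1, 1, 2, 2],
  [(0, 0), (0, 0), (33, 35), (34, 35), (23, 21), (22, 21)], [(1, 11)]⟩

/-- certificate for `n = 39`, `3 ≤ m ≤ 5` -/
def s39_8_5 : Single :=
  ⟨⟨(0, 39), [((0, 19), (0, 2), (0, 18)), ((0, 9), (0, 10), (0, -19)), ((0, -14), (0, 6), (0, 8)), ((0, -7), (0, -4), (0, 11)), ((0, -9), (0, 4), (0, 5)), ((0, 1), (0, -8), (0, 7)), ((0, -15), (0, -6), (0, -18)), ((0, 15), (0, -10), (0, -5)), ((0, 14), (0, -3), (0, -11)), ((0, -2), (0, 3), (0, -1))],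
  [(0, 17), (0, 16), (0, 13), (0, 12)], false,
  [⟨3, (0, 13), ⟨(3, 2), (3, 0), (0, 0), (0, -12), [⟨0, 3, none, 3, false⟩, ⟨1, 3, none, 1, true⟩, ⟨2, 3, none, 1, false⟩, ⟨2, 4, none, 3, true⟩, ⟨2, 5, none, 1, true⟩, ⟨0, 5, (some ((1, 2), (0, 0))), 3, true⟩]⟩, none⟩,
    ⟨9, (0, 13), ⟨(4, 1), (4, 2), (0, 0), (0, -13), [⟨0, 3, none, 2, false⟩, ⟨1, 3, none, 0, false⟩, ⟨2, 3, none, 0, true⟩, ⟨2, 4, none, 2, true⟩, ⟨0, 4, none, 0, false⟩, ⟨0, 5, (some ((5, 1), (2, 2))), 2, false⟩]⟩, none⟩]⟩,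
  104200303750998695515417977110991527326664135879089960194014100008999685,
  27634051063925014990818589442700360677411861697524587208974499020079360,
  14046662070892635431519226062290648774560878648310172950402615744921600,
  [0, 1, 4, 8, 6], [0, 19, 9, 4, 14], [0, 5, 12, 10, 6], [8], [0, 1, 0, 0, 1],
  [(0, 0), (26, 24), (0, 0), (0, 0), (25, 24)], [(1, 20)]⟩

/-- certificate for `n = 40`, `2 ≤ m ≤ 6` -/
def s40_3_6 : Single :=
  ⟨⟨(0, 40), [((0, -5), (0, 19), (0, -14)), ((0, 16), (0, -15), (0, -1)), ((0, 18), (0, 7), (0, 15)), ((0, 9), (0, 4), (0, -13)), ((0, -10), (0, 8), (0, 2)), ((0, -19), (0, -18), (0, -3)), ((0, -12), (0, 14), (0, -2)), ((0, -4), (0, 11), (0, -7)), ((0, -16), (0, 13), (0, 3)), ((0, -9), (0, 17), (0, -8)), ((0, -11), (0, 10), (0, 1)), ((0, 5), (0, 12), (0, -17))],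
  [(0, 6), (0, 20)], true,
  [⟨2, (0, 10), ⟨(0, 0), (0, 1), (0, 0), (0, 15), [⟨0, 3, (some ((2, 2), (1, 1))), 0, true⟩, ⟨1, 3, none, 1, true⟩, ⟨1, 4, (some ((1, 1), (2, 2))), 0, false⟩, ⟨2, 4, none, 0, true⟩, ⟨2, 5, none, 1, true⟩, ⟨0, 5, none, 0, false⟩]⟩, none⟩]⟩,
  54531323473232197233304719632279273587667542704268788791034796030693170746702743932705,
  3885367545287037594256207859203378396438128832480913230637950840061695572433447223552,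
  3900545224061597869768901391645855359567287913580633036208627044800267587774780604416,
  [0, 1, 14, 4, 5, 10], [0, -5, 12, 17, 2, -9], [0, 33, 18, 6, 23, 10], [10, 11], [0, 1, 1, 0, 2, 2],
  [(0, 0), (33, 34), (35, 34), (0, 0), (30, 32), (31, 32)], [(1, 19)]⟩

/-- certificate for `n = 40`, `3 ≤ m ≤ 5` -/
def s40_9_5 : Single :=
  ⟨⟨(0, 40), [((0, -2), (0, 9), (0, -7)), ((0, 13), (0, -10), (0, -3)), ((0, 16), (0, 17), (0, 7)), ((0, 5), (0, -6), (0, 1)), ((0, 18), (0, -13), (0, -5)), ((0, 12), (0, -15), (0, 3)), ((0, 15), (0, 2), (0, -17)), ((0, -1), (0, -18), (0, 19)), ((0, -16), (0, 10), (0, 6)), ((0, -9), (0, -19), (0, -12))],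
  [(0, 11), (0, 8), (0, 4), (0, 14), (0, 20)], true,
  [⟨2, (0, 10), ⟨(3, 0), (3, 0), (0, 0), (0, 20), [⟨0, 3, none, 4, true⟩, ⟨1, 3, (some ((6, 0), (5, 1))), 3, false⟩, ⟨1, 4, none, 3, true⟩, ⟨2, 4, none, 4, true⟩, ⟨2, 5, none, 3, false⟩, ⟨0, 5, (some ((5, 1), (6, 0))), 3, true⟩]⟩, none⟩,
    ⟨6, (0, 20), ⟨(0, 1), (2, 0), (0, 0), (0, 13), [⟨0, 3, (some ((1, 0), (4, 1))), 1, false⟩, ⟨1, 3, none, 2, true⟩, ⟨2, 3, none, 0, true⟩, ⟨2, 4, none, 2, true⟩, ⟨2, 5, (some ((4, 1), (1, 0))), 1, true⟩, ⟨0, 5, none, 0, false⟩]⟩, none⟩]⟩,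
  104146383407722085885948546820422311991448697307389351436131429836659475,
  6929023880670670659669992218187326051122448561442444225797868237291776,
  20921025577958081216930349321922029983040080474719194102082277107302400,
  [0, 1, 3, 2, 4], [0, -2, -17, 7, -3], [0, 19, 7, 2, 11], [8], [0, 0, 0, 1, 1],
  [(0, 0), (0, 0), (0, 0), (25, 24), (26, 24)], [(3, 39)]⟩

/-- certificate for `n = 41`, `2 ≤ m ≤ 6` -/
def s41_4_6 : Single :=
  ⟨⟨(0, 41), [((0, -9), (0, -1), (0, 10)), ((0, 11), (0, 17), (0, 13)), ((0, 5), (0, -2), (0, -3)), ((0, 3), (0, 9), (0, -12)), ((0, 8), (0, 2), (0, -10)), ((0, -19), (0, 1), (0, 18)), ((0, 4), (0, 12), (0, -16)), ((0, -20), (0, -17), (0, -4)), ((0, 20), (0, 6), (0, 15)), ((0, -13), (0, 19), (0, -6)), ((0, -8), (0, -15), (0, -18)), ((0, -5), (0, -11), (0, 16))],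
  [(0, 7), (0, 14)], false,
  [⟨1, (0, 13), ⟨(1, 2), (1, 0), (0, 0), (0, -14), [⟨0, 3, none, 1, false⟩, ⟨1, 3, none, 1, true⟩, ⟨2, 3, (some ((3, 0), (2, 2))), 0, false⟩, ⟨2, 4, (some ((4, 2), (0, 2))), 0, false⟩, ⟨0, 4, none, 1, true⟩, ⟨0, 5, (some ((2, 2), (3, 0))), 0, true⟩]⟩, (some ⟨(1, 2), (1, 0), (0, 0), (0, -14), [⟨0, 3, none, 1, false⟩, ⟨1, 3, none, 1, true⟩, ⟨2, 3, (some ((3, 0), (2, 2))), 0, false⟩, ⟨2, 4, (some ((4, 2), (0, 2))), 0, false⟩]⟩)⟩]⟩,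
  38876323332491446409530065719572591365702914550638194486907124625521482372606686269450,
  5843184358169199765993284295391203685335431632696838080761060566304644585400270323968,
  9721022058326490843958653271161314509777584398768094673767687139285984543266165489664,
  [0, 1, 4, 3, 2, 15], [0, -9, -12, -16, -10, 9], [0, 10, 19, 35, 2, 32], [9, 6], [0, 0, 1, 1, 2, 2],
  [(0, 0), (0, 0), (19, 20), (18, 20), (28, 27), (29, 27)], [(3, 6)]⟩

/-- certificate for `n = 42`, `6 ≤ m ≤ 6` -/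
def s42_5_6 : Single :=
  ⟨⟨(0, 42), [((0, 6), (0, -17), (0, 11)), ((0, -5), (0, -18), (0, -19)), ((0, 16), (0, 19), (0, 7)), ((0, -10), (0, 1), (0, 9)), ((0, 4), (0, 5), (0, -9)), ((0, 10), (0, 3), (0, -13)), ((0, -1), (0, 8), (0, -7)), ((0, -4), (0, -11), (0, 15)), ((0, -15), (0, -3), (0, 18)), ((0, -16), (0, -20), (0, -6)), ((0, 13), (0, 17), (0, 12)), ((0, 20), (0, -8), (0, -12))],
  [(0, 2), (0, 14), (0, 21)], true,
  [⟨6, (0, 7), ⟨(3, 2), (5, 1), (0, 0), (0, -2), [⟨0, 3, none, 0, false⟩, ⟨1, 3, (some ((7, 1), (0, 2))), 0, true⟩, ⟨2, 3, (some ((6, 0), (3, 1))), 0, true⟩, ⟨2, 4, (some ((7, 1), (0, 2))), 0, true⟩, ⟨2, 5, none, 0, true⟩, ⟨0, 5, (some ((3, 1), (6, 0))), 0, false⟩]⟩, none⟩,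
    ⟨4, (0, 10), ⟨(2, 0), (2, 1), (0, 0), (0, -5), [⟨0, 3, (some ((1, 0), (4, 1))), 1, true⟩, ⟨1, 3, none, 2, true⟩, ⟨1, 4, (some ((4, 1), (1, 0))), 1, false⟩, ⟨2, 4, none, 1, false⟩, ⟨2, 5, none, 2, true⟩, ⟨0, 5, none, 1, true⟩]⟩, (some ⟨(2, 0), (2, 1), (0, 0), (0, -5), [⟨0, 3, (some ((1, 0), (4, 1))), 1, true⟩, ⟨1, 4, (some ((4, 1), (1, 0))), 1, false⟩, ⟨2, 5, none, 2, true⟩]⟩)⟩]⟩,
  62310421058969335126457004862041420812346179939769383064585295917545068955612143296285,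
  7785882430459002369148323438878429885623677528843701860787440226031689320021358870784,
  5843243410779511465676541369133262275744050041901367898510975581736345968152668012544,
  [0, 1, 6, 4, 10, 2], [0, 6, -16, -5, -10, 3], [0, 29, 6, 13, 15, 25], [], [0, 0, 0, 0, 0, 0],
  [(0, 0), (0, 0), (0, 0), (0, 0), (0, 0), (0, 0)], [(4, 31)]⟩

/-- certificate for `n = 43`, `3 ≤ m ≤ 7` -/
def s43_0_7 : Single :=
  ⟨⟨(0, 43), [((0, -21), (0, -2), (0, -20)), ((0, 5), (0, -9), (0, 4)), ((0, 14), (0, 8), (0, 21)), ((0, -6), (0, 11), (0, -5)), ((0, 13), (0, 18), (0, 12)), ((0, 6), (0, 2), (0, -8)), ((0, 20), (0, -4), (0, -16)), ((0, -1), (0, -15), (0, 16)), ((0, -17), (0, 10), (0, 7)), ((0, -3), (0, -14), (0, 17)), ((0, 1), (0, 9), (0, -10)), ((0, -19), (0, -11), (0, -13)), ((0, -18), (0, 3), (0, 15)), ((0, 19), (0, -12), (0, -7))],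
  [], false,
  []⟩,
  14247309592151969900338153555850308856961462629141268735896970081523206715901103676596839836722270216,
  10704966532315153870812527946351967745744447147547322219924779314241009797518552957794289770168576,
  3283037203344858727707132227479064674780372629706640785831878813474633563083125280023491450570276864,
  [0, 1, 7, 4, 5, 12, 2], [0, -21, 14, 10, 1, 12, 20], [0, 8, 28, 32, 21, 40, 2], [2, 1], [0, 1, 1, 0, 1, 0, 1],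
  [(0, 0), (8, 6), (7, 6), (0, 0), (5, 4), (0, 0), (3, 4)], [(3, 23)]⟩

/-- certificate for `n = 43`, `2 ≤ m ≤ 6` -/
def s43_6_6 : Single :=
  ⟨⟨(0, 43), [((0, -17), (0, -1), (0, 18)), ((0, 5), (0, -9), (0, 4)), ((0, -21), (0, -4), (0, -18)), ((0, -3), (0, -6), (0, 9)), ((0, 11), (0, 12), (0, 20)), ((0, -13), (0, -19), (0, -11)), ((0, 21), (0, 3), (0, 19)), ((0, -7), (0, 17), (0, -10)), ((0, 6), (0, 14), (0, -20)), ((0, -12), (0, 2), (0, 10)), ((0, 1), (0, 13), (0, -14)), ((0, 7), (0, -2), (0, -5))],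
  [(0, 15), (0, 8), (0, 16)], false,
  [⟨1, (0, 21), ⟨(5, 2), (4, 2), (0, 0), (0, 15), [⟨0, 3, none, 0, true⟩, ⟨1, 3, (some ((0, 0), (7, 1))), 1, true⟩, ⟨2, 3, (some ((2, 1), (1, 2))), 2, false⟩, ⟨2, 4, none, 2, false⟩, ⟨0, 4, (some ((6, 1), (3, 0))), 0, true⟩, ⟨0, 5, none, 1, false⟩]⟩, (some ⟨(5, 2), (4, 2), (0, 0), (0, 15), [⟨0, 3, none, 0, true⟩, ⟨2, 3, (some ((2, 1), (1, 2))), 2, false⟩, ⟨0, 5, none, 1, false⟩]⟩)⟩]⟩,
  6041111486624966308654492192579112333087692931726254443985978225334476603568412958230,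
  5843213883802063391617099576922091656114825257266740882023935360936831380794670121216,
  1957905513248074303256639511571695726711193295011185733535762898673836367574535766016,
  [0, 1, 21, 4, 12, 2], [0, -17, -10, -12, 20, 6], [0, 22, 29, 13, 26, 10], [10, 11], [0, 0, 1, 1, 1, 1],
  [(0, 0), (0, 0), (34, 33), (35, 33), (32, 31), (30, 31)], [(1, 34)]⟩

/-- certificate for `n = 44`, `3 ≤ m ≤ 7` -/
def s44_1_7 : Single :=
  ⟨⟨(0, 44), [((0, 21), (0, 14), (0, 9)), ((0, 3), (0, 12), (0, -15)), ((0, -4), (0, -12), (0, 16)), ((0, -13), (0, 19), (0, -6)), ((0, -3), (0, -7), (0, 10)), ((0, 8), (0, 1), (0, -9)), ((0, -16), (0, -10), (0, -18)), ((0, 5), (0, -20), (0, 15)), ((0, -14), (0, -19), (0, -11)), ((0, 2), (0, 6), (0, -8)), ((0, 11), (0, 13), (0, 20)), ((0, 7), (0, -2), (0, -5)), ((0, 4), (0, -21), (0, 17)), ((0, 18), (0, -17), (0, -1))],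
  [(0, 22)], true,
  [⟨4, (0, 3), ⟨(3, 0), (3, 2), (0, 0), (0, 3), [⟨0, 3, (some ((1, 0), (4, 0))), 0, true⟩, ⟨1, 3, (some ((2, 2), (6, 0))), 0, true⟩, ⟨2, 3, (some ((4, 0), (1, 0))), 0, true⟩, ⟨2, 4, none, 0, true⟩, ⟨2, 5, (some ((5, 2), (0, 2))), 0, true⟩, ⟨0, 5, (some ((4, 0), (1, 0))), 0, true⟩]⟩, (some ⟨(3, 1), (3, 2), (0, -13), (0, 3), [⟨0, 3, (some ((2, 2), (6, 0))), 0, true⟩, ⟨1, 3, (some ((4, 0), (1, 0))), 0, true⟩, ⟨1, 5, (some ((5, 2), (0, 2))), 0, true⟩, ⟨2, 5, (some ((4, 0), (1, 0))), 0, true⟩]⟩)⟩]⟩,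
  8830338584190273396536264859079244606649403645670684239609467657749910837910932278503687627199289381,
  4280317899516147222819155807615987944318144321146738503868923267418377657087167961109978077659392,
  1100066796202749024498940088788068362836676285640863450010011264545447664614021227469633566892097536,
  [0, 1, 5, 2, 10, 3, 4], [0, 21, 17, -9, 2, 15, 5], [0, 37, 40, 2, 10, 28, 8], [13, 7], [0, 1, 1, 2, 0, 2, 0],
  [(0, 0), (39, 41), (40, 41), (22, 21), (0, 0), (23, 21), (0, 0)], [(3, 17)]⟩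

/-- certificate for `n = 44`, `2 ≤ m ≤ 6` -/
def s44_7_6 : Single :=
  ⟨⟨(0, 44), [((0, 12), (0, -11), (0, -1)), ((0, 6), (0, -17), (0, 11)), ((0, 3), (0, -8), (0, 5)), ((0, 7), (0, 20), (0, 17)), ((0, -21), (0, -18), (0, -5)), ((0, -2), (0, 8), (0, -6)), ((0, 1), (0, -19), (0, 18)), ((0, 10), (0, 2), (0, -12)), ((0, -10), (0, -4), (0, 14)), ((0, -16), (0, -3), (0, 19)), ((0, -7), (0, 21), (0, -14)), ((0, -20), (0, 4), (0, 16))],
  [(0, 15), (0, 13), (0, 9), (0, 22)], true,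
  [⟨5, (0, 14), ⟨(6, 0), (6, 2), (0, 0), (0, 13), [⟨0, 3, none, 1, true⟩, ⟨1, 3, (some ((0, 0), (7, 2))), 2, true⟩, ⟨2, 3, none, 1, false⟩, ⟨2, 4, (some ((1, 0), (5, 2))), 2, true⟩, ⟨0, 4, (some ((7, 2), (0, 0))), 2, false⟩, ⟨0, 5, none, 1, false⟩]⟩, (some ⟨(6, 0), (6, 2), (0, 0), (0, 13), [⟨0, 3, none, 1, true⟩, ⟨1, 3, (some ((0, 0), (7, 2))), 2, true⟩, ⟨2, 3, none, 1, false⟩, ⟨2, 4, (some ((1, 0), (5, 2))), 2, true⟩]⟩)⟩,
    ⟨2, (0, 11), ⟨(3, 1), (3, 0), (0, 0), (0, 15), [⟨0, 3, none, 0, true⟩, ⟨1, 3, (some ((4, 2), (2, 2))), 0, false⟩, ⟨2, 3, none, 3, true⟩, ⟨2, 4, (some ((2, 2), (4, 2))), 0, true⟩, ⟨2, 5, none, 0, false⟩, ⟨0, 5, none, 3, true⟩]⟩, none⟩]⟩,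
  52642073292887658574310435696274574987408680090748183905667080299801876593188352951575,
  22884453769662799314894441530028712285669774378090721448320018169515716013417824512,
  17506875073963949423083140867968074173720943387342980989468329219476545800694623371264,
  [0, 1, 8, 10, 2, 6], [0, 12, 10, -4, 16, -3], [0, 23, 24, 34, 27, 6], [8, 9], [0, 0, 1, 1, 1, 1],
  [(0, 0), (0, 0), (24, 25), (26, 25), (27, 28), (29, 28)], [(1, 41)]⟩

/-- certificate for `n = 45`, `3 ≤ m ≤ 7` -/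
def s45_2_7 : Single :=
  ⟨⟨(0, 45), [((0, -3), (0, 14), (0, -11)), ((0, -13), (0, 3), (0, 10)), ((0, 11), (0, -5), (0, -6)), ((0, -7), (0, 21), (0, -14)), ((0, -2), (0, -10), (0, 12)), ((0, -16), (0, -21), (0, -8)), ((0, -20), (0, 18), (0, 2)), ((0, 7), (0, 5), (0, -12)), ((0, -1), (0, 19), (0, -18)), ((0, 4), (0, -17), (0, 13)), ((0, -19), (0, -22), (0, -4)), ((0, 16), (0, 9), (0, 20)), ((0, 1), (0, -9), (0, 8)), ((0, 17), (0, 22), (0, 6))],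
  [(0, 15)], false,
  [⟨3, (0, 7), ⟨(0, 2), (2, 0), (0, 0), (0, 10), [⟨0, 3, (some ((1, 2), (4, 1))), 0, true⟩, ⟨1, 3, (some ((3, 1), (5, 1))), 0, false⟩, ⟨2, 3, (some ((5, 1), (3, 1))), 0, true⟩, ⟨2, 4, none, 0, false⟩, ⟨2, 5, (some ((4, 1), (1, 2))), 0, false⟩, ⟨0, 5, (some ((3, 1), (5, 1))), 0, false⟩]⟩, (some ⟨(0, 1), (2, 0), (0, -14), (0, 10), [⟨0, 3, (some ((5, 1), (3, 1))), 0, true⟩, ⟨0, 5, (some ((4, 1), (1, 2))), 0, false⟩, ⟨1, 5, (some ((3, 1), (5, 1))), 0, false⟩]⟩)⟩]⟩,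
  4440951229676083930468554898785777714477068255050371917280710050024918880222434773119090937519540996,
  12824396921770498349301559212782286043596432412003003173233408324338692154811186012187101310943488,
  1097922400411118673026744724807046067895836191880793206785091371323761732134481268261226330084868096,
  [0, 1, 3, 2, 15, 19, 28], [0, -3, 10, 12, -8, 1, -22], [0, 4, 13, 23, 38, 24, 40], [7, 11], [0, 1, 0, 1, 2, 2, 0],
  [(0, 0), (22, 21), (0, 0), (23, 21), (34, 33), (35, 33), (0, 0)], [(1, 44)]⟩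

/-- certificate for `n = 45`, `2 ≤ m ≤ 6` -/
def s45_8_6 : Single :=
  ⟨⟨(0, 45), [((0, -12), (0, 13), (0, -1)), ((0, -6), (0, 1), (0, 5)), ((0, 10), (0, -13), (0, 3)), ((0, -3), (0, 21), (0, -18)), ((0, 11), (0, -15), (0, 4)), ((0, 18), (0, 7), (0, 20)), ((0, -10), (0, -19), (0, -16)), ((0, -20), (0, -4), (0, -21)), ((0, -8), (0, -7), (0, 15)), ((0, 12), (0, 14), (0, 19)), ((0, 6), (0, 8), (0, -14)), ((0, -5), (0, 16), (0, -11))],
  [(0, 9), (0, 22), (0, 17), (0, 2)], false,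
  [⟨12, (0, 15), ⟨(1, 2), (1, 2), (0, 0), (0, 22), [⟨0, 3, none, 1, true⟩, ⟨1, 3, none, 2, true⟩, ⟨2, 3, none, 1, false⟩, ⟨2, 4, none, 1, true⟩, ⟨2, 5, none, 2, false⟩, ⟨0, 5, (some ((3, 2), (5, 0))), 2, false⟩]⟩, none⟩,
    ⟨3, (0, 15), ⟨(4, 1), (4, 2), (0, 0), (0, -13), [⟨0, 3, (some ((2, 1), (0, 1))), 0, true⟩, ⟨1, 3, none, 3, true⟩, ⟨2, 3, none, 3, false⟩, ⟨2, 4, (some ((0, 1), (2, 1))), 0, false⟩, ⟨2, 5, none, 3, true⟩, ⟨0, 5, none, 0, false⟩]⟩, none⟩]⟩,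
  23463949180827547247379724513338872575763571923249628779600887190220869262080456525595,
  3915781147158150241392383307703591641223638520772602462105842111351567490729338208512,
  1965464651967132607534699437729690104579968671103550122015025523246812960530217566208,
  [0, 1, 13, 3, 2, 11], [0, -12, 14, 6, 1, 9], [0, 27, 32, 3, 2, 23], [8, 9], [0, 1, 1, 2, 0, 2],
  [(0, 0), (27, 28), (29, 28), (25, 24), (0, 0), (26, 24)], [(14, 13)]⟩

/-- certificate for `n = 46`, `3 ≤ m ≤ 7` -/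
def s46_3_7 : Single :=
  ⟨⟨(0, 46), [((0, -22), (0, 17), (0, 5)), ((0, 12), (0, 20), (0, 14)), ((0, 2), (0, 1), (0, -3)), ((0, -12), (0, -10), (0, 22)), ((0, -5), (0, -21), (0, -20)), ((0, -8), (0, 9), (0, -1)), ((0, 18), (0, -16), (0, -2)), ((0, 16), (0, 19), (0, 11)), ((0, -6), (0, 21), (0, -15)), ((0, -4), (0, -11), (0, 15)), ((0, -17), (0, 13), (0, 4)), ((0, 10), (0, -13), (0, 3)), ((0, -19), (0, -18), (0, -9)), ((0, -14), (0, 6), (0, 8))],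
  [(0, 7), (0, 23)], true,
  [⟨2, (0, 11), ⟨(2, 2), (2, 2), (0, 0), (0, 23), [⟨0, 3, none, 1, true⟩, ⟨1, 3, (some ((4, 2), (1, 1))), 0, false⟩, ⟨2, 3, (some ((0, 0), (3, 2))), 0, false⟩, ⟨2, 4, none, 1, true⟩, ⟨0, 4, (some ((3, 2), (0, 0))), 0, true⟩, ⟨0, 5, (some ((1, 1), (4, 2))), 0, true⟩]⟩, (some ⟨(2, 1), (2, 2), (0, -1), (0, 23), [⟨0, 3, (some ((0, 0), (3, 2))), 0, false⟩, ⟨0, 4, none, 1, true⟩, ⟨1, 4, (some ((3, 2), (0, 0))), 0, true⟩]⟩)⟩]⟩,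
  8253496149079024191750929377541015833089672881939111045460969214542252462691903624518236365241720331,
  3287300768913134010166587883696481267359337286992458220811209194870477578987674470400480006853886208,
  553229149095569850976802047333783014123086347466563357460982317826230647137274900390644379140751360,
  [0, 1, 3, 5, 2, 19, 16], [0, -22, -12, 20, -5, -4, 15], [0, 11, 3, 14, 2, 37, 16], [5, 8], [0, 0, 1, 2, 2, 0, 1],
  [(0, 0), (0, 0), (15, 17), (25, 24), (26, 24), (0, 0), (16, 17)], [(7, 21)]⟩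

/-- certificate for `n = 46`, `2 ≤ m ≤ 6` -/
def s46_9_6 : Single :=
  ⟨⟨(0, 46), [((0, 16), (0, 6), (0, -22)), ((0, -8), (0, -13), (0, 21)), ((0, 14), (0, -2), (0, -12)), ((0, -7), (0, 10), (0, -3)), ((0, 7), (0, 13), (0, -20)), ((0, -10), (0, 2), (0, 8)), ((0, 4), (0, 12), (0, -16)), ((0, 22), (0, -1), (0, -21)), ((0, -14), (0, 5), (0, 9)), ((0, 3), (0, 1), (0, -4)), ((0, 20), (0, -9), (0, -11)), ((0, 11), (0, -5), (0, -6))],
  [(0, 18), (0, 17), (0, 15), (0, 19), (0, 23)], true,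
  [⟨6, (0, 11), ⟨(3, 0), (3, 0), (0, 0), (0, 23), [⟨0, 3, none, 4, true⟩, ⟨1, 3, (some ((6, 2), (0, 0))), 0, true⟩, ⟨1, 4, (some ((1, 1), (4, 1))), 0, true⟩, ⟨2, 4, none, 4, true⟩, ⟨2, 5, (some ((4, 1), (1, 1))), 0, false⟩, ⟨0, 5, (some ((0, 0), (6, 2))), 0, false⟩]⟩, (some ⟨(3, 0), (3, 0), (0, 0), (0, 23), [⟨0, 3, none, 4, true⟩, ⟨1, 4, (some ((1, 1), (4, 1))), 0, true⟩, ⟨2, 5, (some ((4, 1), (1, 1))), 0, false⟩]⟩)⟩,
    ⟨4, (0, 23), ⟨(2, 0), (5, 1), (0, 0), (0, -17), [⟨0, 3, none, 1, false⟩, ⟨1, 3, none, 2, true⟩, ⟨2, 3, none, 1, true⟩, ⟨2, 4, none, 3, false⟩, ⟨2, 5, none, 3, true⟩, ⟨0, 5, none, 2, false⟩]⟩, none⟩]⟩,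
  2133335052951119599004934408151059148440612893525326396311407935839077147660963357460,
  3923310759799064978054762746199044442705442903698501450579906261461885539589468324096,
  1950465175413964610257258778910441700097468231229044650559473501081813451205622366208,
  [0, 1, 2, 3, 4, 26], [0, 16, 4, 3, 13, -19], [0, 20, 29, 11, 4, 32], [7, 10], [0, 0, 1, 1, 1, 1],
  [(0, 0), (0, 0), (22, 21), (23, 21), (31, 30), (32, 30)], [(6, 37)]⟩

/-- certificate for `n = 47`, `3 ≤ m ≤ 7` -/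
def s47_4_7 : Single :=
  ⟨⟨(0, 47), [((0, 11), (0, -20), (0, 9)), ((0, -19), (0, 4), (0, 15)), ((0, 14), (0, 12), (0, 21)), ((0, 23), (0, -12), (0, -11)), ((0, -14), (0, -6), (0, 20)), ((0, -21), (0, -9), (0, -17)), ((0, -4), (0, -18), (0, 22)), ((0, 2), (0, 13), (0, -15)), ((0, 1), (0, 7), (0, -8)), ((0, -2), (0, -23), (0, -22)), ((0, 5), (0, 8), (0, -13)), ((0, -1), (0, -5), (0, 6)), ((0, -10), (0, -7), (0, 17)), ((0, 18), (0, 19), (0, 10))],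
  [(0, 3), (0, 16)], false,
  [⟨1, (0, 15), ⟨(1, 0), (1, 2), (0, 0), (0, 16), [⟨0, 3, none, 1, true⟩, ⟨1, 3, (some ((3, 1), (2, 1))), 0, false⟩, ⟨2, 3, none, 1, false⟩, ⟨2, 4, (some ((0, 1), (4, 2))), 0, false⟩, ⟨0, 4, (some ((2, 1), (3, 1))), 0, true⟩, ⟨0, 5, none, 1, false⟩]⟩, (some ⟨(1, 0), (1, 2), (0, 0), (0, 16), [⟨0, 3, none, 1, true⟩, ⟨1, 3, (some ((3, 1), (2, 1))), 0, false⟩, ⟨0, 4, (some ((2, 1), (3, 1))), 0, true⟩, ⟨0, 5, none, 1, false⟩]⟩)⟩]⟩,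
  19691823571719762316406629676597382294211270983736193382410945220748249330869289600633444225233456651,
  2193675536762628465062800372660453505627590421765218093224581771856919052591320902521691515683733760,
  2736257864608592001245231182970439579633954120934039710532721615146558211500944944614395366523011072,
  [0, 1, 2, 4, 3, 6, 24], [0, 11, -22, -4, 15, 21, -17], [0, 11, 20, 4, 23, 15, 34], [5, 10], [0, 0, 1, 0, 2, 1, 2],
  [(0, 0), (0, 0), (17, 16), (0, 0), (32, 30), (15, 16), (31, 30)], [(1, 29)]⟩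

/-- certificate for `n = 48`, `3 ≤ m ≤ 7` -/
def s48_5_7 : Single :=
  ⟨⟨(0, 48), [((0, 7), (0, 18), (0, 23)), ((0, 14), (0, -2), (0, -12)), ((0, 19), (0, 17), (0, 12)), ((0, -10), (0, -23), (0, -15)), ((0, -11), (0, -17), (0, -20)), ((0, 9), (0, 5), (0, -14)), ((0, -5), (0, -16), (0, 21)), ((0, 22), (0, 6), (0, 20)), ((0, -8), (0, -22), (0, -18)), ((0, 15), (0, -19), (0, 4)), ((0, 8), (0, 13), (0, -21)), ((0, 10), (0, -4), (0, -6)), ((0, 16), (0, -9), (0, -7)), ((0, -13), (0, 11), (0, 2))],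
  [(0, 3), (0, 1), (0, 24)], true,
  [⟨6, (0, 8), ⟨(4, 1), (4, 2), (0, 6), (0, 3), [⟨0, 3, none, 0, false⟩, ⟨1, 3, (some ((1, 0), (5, 2))), 0, false⟩, ⟨2, 3, (some ((5, 2), (1, 0))), 0, true⟩, ⟨2, 4, none, 0, true⟩, ⟨2, 5, (some ((1, 0), (5, 2))), 0, false⟩, ⟨0, 5, (some ((3, 1), (0, 2))), 0, false⟩]⟩, none⟩,
    ⟨10, (0, 12), ⟨(0, 1), (0, 0), (0, 0), (0, 17), [⟨0, 3, (some ((2, 1), (4, 1))), 1, false⟩, ⟨1, 3, none, 1, false⟩, ⟨2, 3, none, 2, true⟩, ⟨2, 4, none, 1, true⟩, ⟨2, 5, (some ((4, 1), (2, 1))), 1, true⟩, ⟨0, 5, none, 2, true⟩]⟩, none⟩]⟩,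
  2213141225813407221424607073542208533371755791622323109798155229520657765854203474355812506809276966,
  2736224456959977890982750132143559592723094375450919175714849206220009059720688331957891647066603776,
  559662010932094124247390100858407028093500892347410572258200062653352975445693541620969194129457152,
  [0, 1, 16, 4, 2, 5, 9], [0, 7, 16, 21, -22, 6, 10], [0, 38, 19, 32, 21, 35, 9], [12, 7], [0, 1, 1, 0, 1, 1, 0],
  [(0, 0), (38, 36), (37, 36), (0, 0), (21, 22), (23, 22), (0, 0)], [(1, 47)]⟩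

/-- certificate for `n = 48`, `2 ≤ m ≤ 4` -/
def s48_11_4 : Single :=
  ⟨⟨(0, 48), [((0, 10), (0, 6), (0, -16)), ((0, -21), (0, 16), (0, 5)), ((0, 12), (0, 19), (0, 17)), ((0, -20), (0, -9), (0, -19)), ((0, -14), (0, -4), (0, 18)), ((0, -13), (0, -8), (0, 21)), ((0, -5), (0, -18), (0, 23)), ((0, 14), (0, -17), (0, 3)), ((0, 9), (0, -6), (0, -3)), ((0, 8), (0, 4), (0, -12)), ((0, -10), (0, -23), (0, -15)), ((0, 15), (0, 13), (0, 20))],
  [(0, 22), (0, 11), (0, 1), (0, 2), (0, 7), (0, 24)], true,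
  [⟨6, (0, 8), ⟨(5, 2), (5, 1), (0, 6), (0, 10), [⟨0, 3, (some ((9, 1), (4, 1))), 0, false⟩, ⟨1, 3, (some ((7, 1), (2, 2))), 0, false⟩, ⟨2, 3, (some ((4, 1), (9, 1))), 0, true⟩, ⟨2, 4, (some ((8, 0), (3, 1))), 0, false⟩, ⟨0, 4, (some ((2, 2), (7, 1))), 0, true⟩, ⟨0, 5, (some ((4, 1), (9, 1))), 0, true⟩]⟩, none⟩,
    ⟨10, (0, 12), ⟨(5, 0), (5, 0), (0, 0), (0, 24), [⟨0, 3, none, 5, true⟩, ⟨1, 3, none, 1, false⟩, ⟨1, 4, (some ((1, 1), (0, 2))), 1, false⟩, ⟨2, 4, none, 5, true⟩, ⟨2, 5, (some ((0, 2), (1, 1))), 1, true⟩, ⟨0, 5, none, 1, true⟩]⟩, none⟩,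
    ⟨2, (0, 24), ⟨(8, 2), (9, 0), (0, 0), (0, -1), [⟨0, 3, none, 2, false⟩, ⟨1, 3, none, 3, true⟩, ⟨2, 3, none, 4, false⟩, ⟨2, 4, (some ((1, 2), (6, 0))), 3, false⟩, ⟨2, 5, none, 2, true⟩, ⟨0, 5, none, 4, true⟩]⟩, none⟩]⟩,
  17598800684415688611048878425922694784426369505707198963177648162748500093791681911070,
  15206975081310538676407481700036975228571447724416157377517272862693747396131684608,
  23334852113746372529148184073132427653877617821881769868522210179113933846421411790848,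
  [0, 1, 14, 8], [0, 10, -23, -9], [0, 30, 20, 24], [11], [0, 1, 1, 0],
  [(0, 0), (33, 35), (34, 35), (0, 0)], [(5, 29)]⟩

/-- certificate for `n = 48`, `6 ≤ m ≤ 6` -/
def s48_11_6 : Single :=
  ⟨⟨(0, 48), [((0, 7), (0, 10), (0, -17)), ((0, 8), (0, 12), (0, -20)), ((0, -18), (0, 13), (0, 5)), ((0, 2), (0, -19), (0, 17)), ((0, 15), (0, -5), (0, -10)), ((0, -8), (0, 21), (0, -13)), ((0, -9), (0, 16), (0, -7)), ((0, 20), (0, 9), (0, 19)), ((0, -14), (0, 18), (0, -4)), ((0, 11), (0, 4), (0, -15)), ((0, 14), (0, -2), (0, -12)), ((0, -16), (0, -21), (0, -11))],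
  [(0, 22), (0, 6), (0, 23), (0, 1), (0, 3), (0, 24)], true,
  [⟨6, (0, 8), ⟨(6, 2), (0, 0), (0, 6), (0, -9), [⟨0, 3, (some ((9, 2), (4, 0))), 3, false⟩, ⟨1, 3, (some ((5, 0), (1, 0))), 3, false⟩, ⟨2, 3, none, 3, true⟩, ⟨2, 4, (some ((8, 1), (2, 0))), 3, false⟩, ⟨2, 5, (some ((1, 0), (5, 0))), 3, true⟩, ⟨0, 5, (some ((5, 0), (1, 0))), 3, false⟩]⟩, none⟩,
    ⟨14, (0, 12), ⟨(3, 1), (3, 0), (0, 0), (0, 22), [⟨0, 3, none, 0, true⟩, ⟨1, 3, (some ((6, 2), (0, 0))), 0, false⟩, ⟨1, 4, none, 5, true⟩, ⟨2, 4, (some ((0, 0), (6, 2))), 0, true⟩, ⟨2, 5, none, 0, false⟩, ⟨0, 5, none, 5, true⟩]⟩, none⟩,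
    ⟨2, (0, 24), ⟨(7, 1), (3, 0), (0, 0), (0, 3), [⟨0, 3, none, 4, true⟩, ⟨1, 3, none, 1, false⟩, ⟨2, 3, none, 2, true⟩, ⟨2, 4, none, 1, true⟩, ⟨2, 5, none, 2, false⟩, ⟨0, 5, (some ((2, 2), (4, 1))), 4, true⟩]⟩, none⟩]⟩,
  52574040575862503729413571919407495971085110670898564281794969498111436352911227686420,
  5843213653122524417749247398154303373664639344687323916048121269371911802207676268800,
  11686427768045824719290023758862332055816131481741577863030444831916986549526373335040,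
  [0, 1, 2, 3, 6, 4], [0, 7, -9, 19, 22, -21], [0, 20, 22, 10, 29, 4], [], [0, 0, 0, 0, 0, 0],
  [(0, 0), (0, 0), (0, 0), (0, 0), (0, 0), (0, 0)], [(6, 25)]⟩

/-- the certificates of this file -/
def singles01 : List Single := [s26_1_4, s27_2_4, s28_3_4, s28_9_3, s29_4_4, s31_0_5, s31_6_4, s32_1_5, s33_2_5, s33_8_4, s34_3_5, s34_9_4, s35_4_5, s36_5_5, s37_0_6, s37_6_5, s38_1_6, s39_2_6, s39_8_5, s40_3_6, s40_9_5, s41_4_6, s42_5_6, s43_0_7, s43_6_6, s44_1_7, s44_7_6, s45_2_7, s45_8_6, s46_3_7, s46_9_6, s47_4_7, s48_5_7, s48_11_4, s48_11_6]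

theorem singles01_ok : singles01.all Single.check = true := by decide +kernel

theorem sgl01 : ∀ x ∈ ([(26, 4, 1), (27, 4, 1), (28, 4, 1), (28, 3, 0), (29, 4, 1), (31, 5, 1), (31, 4, 1), (32, 5, 1), (33, 5, 1), (33, 4, 1), (34, 5, 1), (34, 4, 1), (35, 5, 1), (36, 5, 1), (37, 6, 2), (37, 5, 1), (38, 6, 2), (39, 6, 2), (39, 5, 1), (40, 6, 2), (40, 5, 1), (41, 6, 2), (42, 6, 0), (43, 7, 2), (43, 6, 2), (44, 7, 2), (44, 6, 2), (45, 7, 2), (45, 6, 2), (46, 7, 2), (46, 6, 2), (47, 7, 2), (48, 7, 2), (48, 4, 1), (48, 6, 0)] :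
    List (ℕ × ℕ × ℕ)), Covers x.1 x.2.1 x.2.2 := by
  have e : singles01.map (fun T => (T.n, T.F, T.xs.length)) = [(26, 4, 1), (27, 4, 1), (28, 4, 1), (28, 3, 0), (29, 4, 1), (31, 5, 1), (31, 4, 1), (32, 5, 1), (33, 5, 1), (33, 4, 1), (34, 5, 1), (34, 4, 1), (35, 5, 1), (36, 5, 1), (37, 6, 2), (37, 5, 1), (38, 6, 2), (39, 6, 2), (39, 5, 1), (40, 6, 2), (40, 5, 1), (41, 6, 2), (42, 6, 0), (43, 7, 2), (43, 6, 2), (44, 7, 2), (44, 6, 2), (45, 7, 2), (45, 6, 2), (46, 7, 2), (46, 6, 2), (47, 7, 2), (48, 7, 2), (48, 4, 1), (48, 6, 0)] := by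
    decide +kernel
  rw [← e]
  exact covers_of_all singles01 singles01_ok

end Empire
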