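import Pool.Agent.Lib.MP_800721_co.Sgl.Basic

/-!
# PROJECT EMPIRE: certificates for single `n`, part 6

Found by computer search (helper98, helper7); converted by helper56.
-/

namespace Empire

/-- certificate for `n = 42`, `3 ≤ m ≤ 3` -/
def s42_11_3 : Single :=
  ⟨⟨(0, 42), [((0, -16), (0, 12), (0, 4)), ((0, -9), (0, -5), (0, 14)), ((0, 9), (0, 11), (0, -20)), ((0, 13), (0, 5), (0, -18)), ((0, 6), (0, 8), (0, -14)), ((0, -6), (0, -13), (0, 19)), ((0, 20), (0, -12), (0, -8)), ((0, -4), (0, -11), (0, 15)), ((0, -15), (0, 18), (0, -3)), ((0, 16), (0, -19), (0, 3))],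
  [(0, 17), (0, 1), (0, 7), (0, 10), (0, 2), (0, 21)], true,
  [⟨11, (0, 10), ⟨(0, 0), (0, 2), (0, 0), (0, 17), [⟨0, 3, none, 0, true⟩, ⟨1, 3, (some ((1, 0), (2, 0))), 0, false⟩, ⟨1, 4, none, 5, true⟩, ⟨2, 4, (some ((2, 0), (1, 0))), 0, true⟩, ⟨2, 5, none, 0, false⟩, ⟨0, 5, none, 5, true⟩]⟩, (some ⟨(0, 0), (0, 2), (0, 0), (0, 17), [⟨0, 3, none, 0, true⟩, ⟨1, 4, none, 5, true⟩, ⟨2, 5, none, 0, false⟩]⟩)⟩,
    ⟨3, (0, 14), ⟨(4, 0), (4, 1), (0, 0), (0, 7), [⟨0, 3, none, 2, true⟩, ⟨1, 3, none, 1, true⟩, ⟨2, 3, none, 2, false⟩, ⟨2, 4, (some ((5, 1), (3, 0))), 1, false⟩, ⟨2, 5, none, 1, true⟩, ⟨0, 5, (some ((7, 2), (8, 0))), 2, true⟩]⟩, none⟩,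
    ⟨3, (0, 14), ⟨(6, 0), (6, 1), (0, 0), (0, 10), [⟨0, 3, none, 3, true⟩, ⟨1, 3, none, 3, false⟩, ⟨2, 3, none, 4, true⟩, ⟨2, 4, (some ((3, 2), (8, 1))), 4, true⟩, ⟨0, 4, none, 3, false⟩, ⟨0, 5, none, 4, false⟩]⟩, none⟩]⟩,
  179903736057625540904841369867324039304130938231844143332949140616581915,
  191561954026217989224839427027911343900352382752653312,
  21272772749093851061898928335016948299677619287243066403024710890687488,
  [0, 5, 2], [0, -6, 20], [0, 12, 8], [], [0, 0, 0],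
  [(0, 0), (0, 0), (0, 0)], [(4, 1)]⟩

/-- certificate for `n = 47`, `6 ≤ m ≤ 6` -/
def s47_10_6 : Single :=
  ⟨⟨(0, 47), [((0, 15), (0, 4), (0, -19)), ((0, 16), (0, 7), (0, -23)), ((0, 6), (0, 19), (0, 22)), ((0, -6), (0, 20), (0, -14)), ((0, 14), (0, 10), (0, 23)), ((0, -8), (0, -13), (0, 21)), ((0, 12), (0, 8), (0, -20)), ((0, -21), (0, -15), (0, -11)), ((0, 9), (0, 3), (0, -12)), ((0, -3), (0, -10), (0, 13)), ((0, -7), (0, -4), (0, 11)), ((0, -16), (0, -9), (0, -22))],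
  [(0, 2), (0, 17), (0, 5), (0, 18), (0, 1)], false,
  [⟨5, (0, 23), ⟨(0, 0), (1, 0), (0, 0), (0, -2), [⟨0, 3, none, 0, false⟩, ⟨1, 3, none, 1, false⟩, ⟨1, 4, (some ((2, 0), (3, 0))), 2, false⟩, ⟨2, 4, none, 0, true⟩, ⟨2, 5, none, 2, false⟩, ⟨0, 5, (some ((4, 0), (3, 2))), 1, true⟩]⟩, (some ⟨(0, 1), (1, 0), (0, 15), (0, -2), [⟨0, 3, none, 1, false⟩, ⟨0, 4, (some ((2, 0), (3, 0))), 2, false⟩, ⟨1, 4, none, 0, true⟩]⟩)⟩,
    ⟨7, (0, 15), ⟨(7, 0), (7, 0), (0, 0), (0, -18), [⟨0, 3, none, 3, false⟩, ⟨1, 3, (some ((8, 1), (9, 0))), 4, false⟩, ⟨2, 3, none, 3, true⟩, ⟨2, 4, none, 3, false⟩, ⟨2, 5, (some ((9, 0), (8, 1))), 4, true⟩, ⟨0, 5, (some ((6, 1), (5, 0))), 4, false⟩]⟩, (some ⟨(7, 1), (7, 0), (0, -21), (0, -18), [⟨0, 3, (some ((8, 1), (9, 0))), 4, false⟩, ⟨1, 3, none, 3, true⟩, ⟨1, 4, none, 3, false⟩, ⟨1, 5, (some ((9, 0), (8, 1))), 4, true⟩]⟩)⟩]⟩,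
  15723567938454072402768465764427744842332170977787308387026524504029507934557747748630,
  7793500622230097969757280117154401650956546295915486898580125203161586121853739598080,
  1973113064581261325719279090586757447042203489008096110002341732278074349770351050752,
  [0, 1, 2, 3, 6, 16], [0, 15, -7, -23, -6, 7], [0, 22, 4, 14, 6, 19], [], [0, 0, 0, 0, 0, 0],
  [(0, 0), (0, 0), (0, 0), (0, 0), (0, 0), (0, 0)], [(1, 38)]⟩

/-- certificate for `n = 47`, `2 ≤ m ≤ 4` -/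
def s47_10_4 : Single :=
  ⟨⟨(0, 47), [((0, 21), (0, 8), (0, 18)), ((0, -11), (0, 9), (0, 2)), ((0, 7), (0, -8), (0, 1)), ((0, -7), (0, -17), (0, -23)), ((0, 23), (0, 13), (0, 11)), ((0, -12), (0, -5), (0, 17)), ((0, 3), (0, -13), (0, 10)), ((0, -10), (0, -9), (0, 19)), ((0, -20), (0, -21), (0, -6)), ((0, -19), (0, -1), (0, 20)), ((0, 5), (0, -2), (0, -3)), ((0, 12), (0, 6), (0, -18))],
  [(0, 4), (0, 16), (0, 14), (0, 15), (0, 22)], false,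
  [⟨3, (0, 23), ⟨(0, 0), (1, 0), (0, 0), (0, 7), [⟨0, 3, (some ((2, 0), (3, 0))), 1, false⟩, ⟨1, 3, none, 2, false⟩, ⟨1, 4, none, 1, false⟩, ⟨2, 4, (some ((4, 0), (3, 2))), 0, true⟩, ⟨2, 5, none, 2, true⟩, ⟨0, 5, none, 0, false⟩]⟩, (some ⟨(0, 1), (1, 2), (0, 21), (0, 5), [⟨0, 3, none, 1, false⟩, ⟨1, 3, (some ((4, 0), (3, 2))), 0, true⟩, ⟨1, 4, none, 2, true⟩]⟩)⟩,
    ⟨2, (0, 15), ⟨(5, 0), (5, 2), (0, 0), (0, 15), [⟨0, 3, none, 3, true⟩, ⟨1, 3, (some ((8, 0), (9, 2))), 4, true⟩, ⟨2, 3, none, 3, false⟩, ⟨2, 4, (some ((7, 0), (6, 2))), 4, true⟩, ⟨0, 4, (some ((9, 2), (8, 0))), 4, false⟩, ⟨0, 5, none, 3, false⟩]⟩, (some ⟨(5, 0), (5, 2), (0, 0), (0, 15), [⟨0, 3, none, 3, true⟩, ⟨1, 3, (some ((8, 0), (9, 2))), 4, true⟩, ⟨2, 3, none, 3, false⟩, ⟨0, 4, (some ((9, 2), (8, 0))), 4, false⟩]⟩)⟩]⟩,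
  4083086821988410972466977882107359905447122168030297739247513408668811547669472413465,
  15266261989705437593256707328315804442224680510170275344981065048442645224983036160,
  2056704996709008396905114719274989367461584962658268484692246035647302215552836042752,
  [0, 1, 4, 2], [0, 21, -6, -18], [0, 25, 34, 2], [11], [0, 0, 1, 1],
  [(0, 0), (0, 0), (34, 35), (33, 35)], [(3, 2)]⟩

/-- certificate for `n = 54`, `7 ≤ m ≤ 7` -/
def s54_11_7 : Single :=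
  ⟨⟨(0, 54), [((0, -5), (0, -13), (0, 18)), ((0, 14), (0, 5), (0, -19)), ((0, -14), (0, 10), (0, 4)), ((0, 15), (0, 2), (0, -17)), ((0, -20), (0, -24), (0, -10)), ((0, 6), (0, -25), (0, 19)), ((0, 20), (0, -2), (0, -18)), ((0, 3), (0, 8), (0, -11)), ((0, -21), (0, -1), (0, 22)), ((0, -22), (0, -3), (0, 25)), ((0, 24), (0, 13), (0, 17)), ((0, -4), (0, 11), (0, -7)), ((0, -6), (0, -15), (0, 21)), ((0, 7), (0, -8), (0, 1))],
  [(0, 9), (0, 23), (0, 26), (0, 16), (0, 12), (0, 27)], true,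
  [⟨10, (0, 13), ⟨(0, 0), (0, 2), (0, 0), (0, 9), [⟨0, 3, none, 0, true⟩, ⟨1, 3, (some ((1, 0), (2, 0))), 0, false⟩, ⟨1, 4, none, 5, true⟩, ⟨2, 4, (some ((2, 0), (1, 0))), 0, true⟩, ⟨2, 5, none, 0, false⟩, ⟨0, 5, none, 5, true⟩]⟩, (some ⟨(0, 0), (0, 2), (0, 0), (0, 9), [⟨0, 3, none, 0, true⟩, ⟨1, 4, none, 5, true⟩, ⟨2, 5, none, 0, false⟩]⟩)⟩,
    ⟨15, (0, 18), ⟨(11, 1), (7, 2), (0, 15), (0, -2), [⟨0, 3, (some ((3, 2), (10, 2))), 2, true⟩, ⟨1, 3, none, 2, true⟩, ⟨2, 3, (some ((8, 0), (12, 2))), 3, true⟩, ⟨2, 4, (some ((9, 2), (5, 1))), 3, true⟩, ⟨0, 4, (some ((5, 1), (9, 2))), 3, false⟩, ⟨0, 5, none, 2, true⟩]⟩, none⟩,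
    ⟨3, (0, 18), ⟨(7, 0), (7, 1), (0, 0), (0, -20), [⟨0, 3, (some ((4, 0), (6, 0))), 4, false⟩, ⟨1, 3, none, 1, false⟩, ⟨2, 3, none, 1, true⟩, ⟨2, 4, (some ((6, 0), (4, 0))), 4, true⟩, ⟨2, 5, none, 1, false⟩, ⟨0, 5, none, 4, false⟩]⟩, none⟩]⟩,
  13717601557536835297604980668107833227004239433132457377274941716952380854096577646762381827193970436,
  2746887704487728694296228464530132124084732205737242175628886543141255367500254709061902404707156224,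
  1642607601358515330273440342274744257318577644830642052182297959773519004613569938651783285805416448,
  [0, 1, 3, 16, 2, 22, 23], [0, -5, -19, 6, -18, -6, 2], [0, 4, 17, 36, 2, 41, 35], [], [0, 0, 0, 0, 0, 0, 0],
  [(0, 0), (0, 0), (0, 0), (0, 0), (0, 0), (0, 0), (0, 0)], [(11, 47)]⟩

/-- certificate for `n = 54`, `3 ≤ m ≤ 5` -/
def s54_11_5 : Single :=
  ⟨⟨(0, 54), [((0, -19), (0, 1), (0, 18)), ((0, 8), (0, 20), (0, 26)), ((0, -8), (0, -17), (0, 25)), ((0, -4), (0, -3), (0, 7)), ((0, -25), (0, -13), (0, -16)), ((0, 10), (0, -26), (0, 16)), ((0, -2), (0, 22), (0, -20)), ((0, 23), (0, -18), (0, -5)), ((0, 11), (0, 12), (0, -23)), ((0, 5), (0, -7), (0, 2)), ((0, 17), (0, -21), (0, 4)), ((0, 21), (0, -10), (0, -11)), ((0, -22), (0, 19), (0, 3)), ((0, 13), (0, -1), (0, -12))],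
  [(0, 9), (0, 15), (0, 6), (0, 14), (0, 24), (0, 27)], true,
  [⟨2, (0, 13), ⟨(0, 0), (0, 1), (0, 0), (0, 8), [⟨0, 3, (some ((1, 0), (2, 0))), 0, true⟩, ⟨1, 3, none, 5, true⟩, ⟨1, 4, (some ((2, 0), (1, 0))), 0, false⟩, ⟨2, 4, none, 0, false⟩, ⟨2, 5, none, 5, true⟩, ⟨0, 5, none, 0, true⟩]⟩, (some ⟨(0, 1), (0, 1), (0, -19), (0, 8), [⟨0, 3, none, 5, true⟩, ⟨1, 4, none, 0, false⟩, ⟨2, 5, none, 0, true⟩]⟩)⟩,
    ⟨3, (0, 18), ⟨(5, 2), (5, 1), (0, 0), (0, -14), [⟨0, 3, none, 3, false⟩, ⟨1, 3, none, 4, true⟩, ⟨2, 3, none, 3, true⟩, ⟨2, 4, (some ((10, 2), (3, 0))), 4, false⟩, ⟨0, 4, none, 4, false⟩, ⟨0, 5, none, 3, true⟩]⟩, none⟩,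
    ⟨3, (0, 18), ⟨(10, 2), (4, 1), (0, 0), (0, -2), [⟨0, 3, (some ((6, 0), (9, 2))), 1, false⟩, ⟨1, 3, none, 2, false⟩, ⟨2, 3, (some ((8, 2), (7, 0))), 2, false⟩, ⟨2, 4, (some ((9, 2), (6, 0))), 1, true⟩, ⟨0, 4, (some ((7, 0), (8, 2))), 2, true⟩, ⟨0, 5, none, 1, false⟩]⟩, none⟩]⟩,
  13672561810956665389936867221695537031051570579037445775719961955887800671189629779402221452623489061,
  4297005170422199956866394648475902475141000724627829883369066625259257996657359393665350251970560,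
  1642582668295283037057253164137731429366775380091591150964238903406705591775556596179703744650281984,
  [0, 4, 2, 14, 3], [0, 3, 7, -12, 24], [0, 10, 28, 25, 31], [13], [0, 0, 1, 1, 0],
  [(0, 0), (0, 0), (40, 41), (39, 41), (0, 0)], [(0, 17)]⟩

/-- certificate for `n = 66`, `9 ≤ m ≤ 9` -/
def s66_11_9 : Single :=
  ⟨⟨(0, 66), [((0, -4), (0, 28), (0, -24)), ((0, -5), (0, 4), (0, 1)), ((0, 5), (0, 8), (0, -13)), ((0, 20), (0, 12), (0, -32)), ((0, -7), (0, 25), (0, -18)), ((0, 21), (0, -19), (0, -2)), ((0, -11), (0, -26), (0, -29)), ((0, 16), (0, -10), (0, -6)), ((0, 13), (0, 24), (0, 29)), ((0, -22), (0, -16), (0, -28)), ((0, -14), (0, 22), (0, -8)), ((0, 6), (0, -17), (0, 11)), ((0, 14), (0, 7), (0, -21)), ((0, 10), (0, 2), (0, -12)), ((0, -25), (0, -1), (0, 26)), ((0, 17), (0, -20), (0, 3)), ((0, 18), (0, -3), (0, -15)), ((0, 32), (0, 19), (0, 15))],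
  [(0, 9), (0, 31), (0, 23), (0, 27), (0, 30), (0, 33)], true,
  [⟨8, (0, 16), ⟨(0, 0), (0, 2), (0, 0), (0, -9), [⟨0, 3, none, 0, false⟩, ⟨1, 3, (some ((1, 0), (2, 0))), 0, true⟩, ⟨1, 4, none, 5, true⟩, ⟨2, 4, (some ((2, 0), (1, 0))), 0, false⟩, ⟨2, 5, none, 0, true⟩, ⟨0, 5, none, 5, true⟩]⟩, (some ⟨(0, 0), (0, 2), (0, 0), (0, -9), [⟨0, 3, none, 0, false⟩, ⟨1, 4, none, 5, true⟩, ⟨2, 5, none, 0, true⟩]⟩)⟩,
    ⟨3, (0, 22), ⟨(8, 2), (3, 1), (0, 0), (0, 31), [⟨0, 3, none, 1, true⟩, ⟨1, 3, (some ((13, 1), (5, 2))), 1, true⟩, ⟨2, 3, (some ((6, 0), (11, 2))), 2, false⟩, ⟨2, 4, none, 1, false⟩, ⟨0, 4, (some ((11, 2), (6, 0))), 2, true⟩, ⟨0, 5, none, 2, false⟩]⟩, none⟩,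
    ⟨15, (0, 22), ⟨(8, 0), (10, 0), (0, 0), (0, 7), [⟨0, 3, (some ((12, 1), (4, 0))), 3, false⟩, ⟨1, 3, (some ((7, 2), (11, 0))), 3, false⟩, ⟨2, 3, none, 4, false⟩, ⟨2, 4, (some ((9, 0), (10, 1))), 4, true⟩, ⟨2, 5, (some ((10, 1), (9, 0))), 4, false⟩, ⟨0, 5, (some ((4, 0), (12, 1))), 3, true⟩]⟩, none⟩]⟩,
  2168863292729595812570770319942404824588946477054455095657668318789091703942644999615442001558293475046828312961913657278185676036,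
  217972644326954864949603983479271442004145524081012892139503215667254166132292448864825409507062226425638644840478136932780670976,
  87154285196249353998790934749204775447818962734163639910855588954358805654066945708313793534561618711997179278032375870199432448,
  [0, 3, 14, 2, 15, 12, 9, 10, 11], [0, 1, 26, -29, -22, 8, 23, -23, -20], [0, 43, 19, 26, 31, 12, 47, 34, 17], [], [0, 0, 0, 0, 0, 0, 0, 0, 0],
  [(0, 0), (0, 0), (0, 0), (0, 0), (0, 0), (0, 0), (0, 0), (0, 0), (0, 0)], [(2, 61)]⟩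

/-- certificate for `n = 66`, `3 ≤ m ≤ 7` -/
def s66_11_7 : Single :=
  ⟨⟨(0, 66), [((0, -20), (0, 28), (0, -8)), ((0, -13), (0, 8), (0, 5)), ((0, 13), (0, -30), (0, 17)), ((0, -2), (0, 9), (0, -7)), ((0, -9), (0, -21), (0, 30)), ((0, 20), (0, -22), (0, 2)), ((0, -10), (0, -1), (0, 11)), ((0, -15), (0, -3), (0, 18)), ((0, 32), (0, 22), (0, 12)), ((0, 1), (0, -16), (0, 15)), ((0, -11), (0, -26), (0, -29)), ((0, 16), (0, -4), (0, -12)), ((0, 29), (0, -5), (0, -24)), ((0, -32), (0, 26), (0, 6)), ((0, 3), (0, -17), (0, 14)), ((0, 21), (0, -28), (0, 7)), ((0, 24), (0, -6), (0, -18)), ((0, -14), (0, 4), (0, 10))],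
  [(0, 25), (0, 27), (0, 23), (0, 19), (0, 31), (0, 33)], true,
  [⟨16, (0, 16), ⟨(0, 0), (0, 0), (0, 0), (0, 33), [⟨0, 3, none, 5, true⟩, ⟨1, 3, (some ((1, 0), (2, 0))), 0, false⟩, ⟨2, 3, none, 0, true⟩, ⟨2, 4, none, 5, true⟩, ⟨0, 4, none, 0, false⟩, ⟨0, 5, (some ((2, 0), (1, 0))), 0, true⟩]⟩, (some ⟨(0, 0), (0, 0), (0, 0), (0, 33), [⟨0, 3, none, 5, true⟩, ⟨2, 3, none, 0, true⟩, ⟨0, 4, none, 0, false⟩]⟩)⟩,
    ⟨15, (0, 22), ⟨(11, 2), (11, 1), (0, 0), (0, -31), [⟨0, 3, none, 4, false⟩, ⟨1, 3, none, 3, false⟩, ⟨2, 3, none, 4, true⟩, ⟨2, 4, (some ((9, 2), (7, 0))), 3, false⟩, ⟨0, 4, none, 3, true⟩, ⟨0, 5, none, 4, true⟩]⟩, none⟩,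
    ⟨3, (0, 22), ⟨(5, 1), (8, 1), (0, 0), (0, -11), [⟨0, 3, (some ((10, 0), (6, 2))), 1, true⟩, ⟨1, 3, (some ((6, 2), (10, 0))), 1, false⟩, ⟨2, 3, (some ((3, 1), (4, 0))), 2, false⟩, ⟨2, 4, none, 2, false⟩, ⟨0, 4, none, 2, true⟩, ⟨0, 5, (some ((6, 2), (10, 0))), 1, false⟩]⟩, none⟩]⟩,
  785596328893265896958957220116139360681751911623259751840940286474502356115886334359695990395402636317189348194030131757088779791,
  173803526134054365907128615089411681659492404431316423096152676315442178271967796920802425106208412387544197842286660888985469184,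
  44342320091988993270787201372772803788453030084007471830130351578933365979086076529653072058725685831020216457525789013416345600,
  [0, 1, 2, 3, 19, 20, 18], [0, -20, -22, 12, 16, 15, -3], [0, 15, 25, 35, 28, 21, 42], [13, 17], [0, 0, 0, 1, 2, 1, 2],
  [(0, 0), (0, 0), (0, 0), (40, 39), (53, 52), (41, 39), (51, 52)], [(3, 65)]⟩

/-- the certificates of this file -/
def singles06 : List Single := [s42_11_3, s47_10_6, s47_10_4, s54_11_7, s54_11_5, s66_11_9, s66_11_7]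

theorem singles06_ok : singles06.all Single.check = true := by decide +kernel

theorem sgl06 : ∀ x ∈ ([(42, 3, 0), (47, 6, 0), (47, 4, 1), (54, 7, 0), (54, 5, 1), (66, 9, 0), (66, 7, 2)] :
    List (ℕ × ℕ × ℕ)), Covers x.1 x.2.1 x.2.2 := by
  have e : singles06.map (fun T => (T.n, T.F, T.xs.length)) = [(42, 3, 0), (47, 6, 0), (47, 4, 1), (54, 7, 0), (54, 5, 1), (66, 9, 0), (66, 7, 2)] := by
    decide +kernel
  rw [← e]
  exact covers_of_all singles06 singles06_ok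

end Empire
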